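import Mathlib

set_option autoImplicit false

/-!
# Computable predicates: closure properties

Boolean combinations, substitution, bounded quantifiers, uniformization, and the inverse of a computable bijection.
-/

namespace Pool.Agent.DP

attribute [fun_prop] Computable

section

variable {α β γ : Type} [Primcodable α] [Primcodable β] [Primcodable γ]

@[fun_prop]
theorem Cp.id : Computable fun x : α => x := Computable.id

@[fun_prop]
theorem Cp.const (c : β) : Computable fun _ : α => c := Computable.const c

@[fun_prop]
theorem Cp.comp {f : β → γ} {g : α → β} (hf : Computable f) (hg : Computable g) :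
    Computable fun x => f (g x) := Computable.comp hf hg

@[fun_prop]
theorem Cp.fst {f : α → β × γ} (hf : Computable f) : Computable fun x => (f x).1 :=
  Computable.fst.comp hf

@[fun_prop]
theorem Cp.snd {f : α → β × γ} (hf : Computable f) : Computable fun x => (f x).2 :=
  Computable.snd.comp hf

@[fun_prop]
theorem Cp.pair {f : α → β} {g : α → γ} (hf : Computable f) (hg : Computable g) :
    Computable fun x => (f x, g x) := Computable.pair hf hg

@[fun_prop]
theorem Cp.add {f g : α → ℕ} (hf : Computable f) (hg : Computable g) :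
    Computable fun x => f x + g x := (Primrec.nat_add.to_comp).comp hf hg

@[fun_prop]
theorem Cp.sub {f g : α → ℕ} (hf : Computable f) (hg : Computable g) :
    Computable fun x => f x - g x := (Primrec.nat_sub.to_comp).comp hf hg

@[fun_prop]
theorem Cp.natPair {f g : α → ℕ} (hf : Computable f) (hg : Computable g) :
    Computable fun x => Nat.pair (f x) (g x) := (Primrec₂.natPair.to_comp).comp hf hg

@[fun_prop]
theorem Cp.unpair {f : α → ℕ} (hf : Computable f) :
    Computable fun x => Nat.unpair (f x) := Computable.unpair.comp hf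

/-! ## Predicates -/

theorem cp_iff {p : α → Prop} :
    ComputablePred p ↔ ∃ f : α → Bool, Computable f ∧ ∀ a, p a ↔ f a = true := by
  rw [ComputablePred.computable_iff]
  constructor
  · rintro ⟨f, hf, rfl⟩
    exact ⟨f, hf, fun a => Iff.rfl⟩
  · rintro ⟨f, hf, h⟩
    exact ⟨f, hf, funext fun a => propext (h a)⟩

theorem CP.of_eq {p q : α → Prop} (hp : ComputablePred p) (h : ∀ a, q a ↔ p a) :
    ComputablePred q := hp.of_eq fun a => (h a).symm

theorem CP.bool {f : α → Bool} (hf : Computable f) : ComputablePred fun a => f a = true :=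
  cp_iff.2 ⟨f, hf, fun _ => Iff.rfl⟩

theorem CP.const (P : Prop) : ComputablePred fun _ : α => P := by
  classical
  refine cp_iff.2 ⟨fun _ => decide P, Computable.const _, fun _ => ?_⟩
  simp

theorem CP.not {p : α → Prop} (hp : ComputablePred p) : ComputablePred fun a => ¬ p a :=
  ComputablePred.not hp

theorem CP.and {p q : α → Prop} (hp : ComputablePred p) (hq : ComputablePred q) :
    ComputablePred fun a => p a ∧ q a := by
  obtain ⟨f, hf, hf'⟩ := cp_iff.1 hp
  obtain ⟨g, hg, hg'⟩ := cp_iff.1 hq
  refine cp_iff.2 ⟨fun a => f a && g a, Primrec.and.to_comp.comp hf hg, fun a => ?_⟩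
  rw [hf', hg', Bool.and_eq_true]

theorem CP.or {p q : α → Prop} (hp : ComputablePred p) (hq : ComputablePred q) :
    ComputablePred fun a => p a ∨ q a := by
  obtain ⟨f, hf, hf'⟩ := cp_iff.1 hp
  obtain ⟨g, hg, hg'⟩ := cp_iff.1 hq
  refine cp_iff.2 ⟨fun a => f a || g a, Primrec.or.to_comp.comp hf hg, fun a => ?_⟩
  rw [hf', hg', Bool.or_eq_true]

theorem CP.imp {p q : α → Prop} (hp : ComputablePred p) (hq : ComputablePred q) :
    ComputablePred fun a => p a → q a :=
  CP.of_eq (CP.or (CP.not hp) hq) fun _ => imp_iff_not_or

theorem CP.comp {p : β → Prop} {f : α → β} (hp : ComputablePred p) (hf : Computable f) :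
    ComputablePred fun a => p (f a) := by
  obtain ⟨g, hg, hg'⟩ := cp_iff.1 hp
  exact cp_iff.2 ⟨fun a => g (f a), hg.comp hf, fun a => hg' (f a)⟩

theorem CP.lt {f g : α → ℕ} (hf : Computable f) (hg : Computable g) :
    ComputablePred fun a => f a < g a :=
  CP.comp (p := fun x : ℕ × ℕ => x.1 < x.2)
    (PrimrecPred.computablePred Primrec.nat_lt) (hf.pair hg)

theorem CP.le {f g : α → ℕ} (hf : Computable f) (hg : Computable g) :
    ComputablePred fun a => f a ≤ g a :=
  CP.of_eq (CP.not (CP.lt hg hf)) fun _ => not_lt.symm

theorem CP.eq {f g : α → ℕ} (hf : Computable f) (hg : Computable g) :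
    ComputablePred fun a => f a = g a :=
  CP.of_eq (CP.and (CP.le hf hg) (CP.le hg hf)) fun _ => le_antisymm_iff

/-- bounded universal quantification -/
theorem CP.all {f : α → ℕ} {p : α → ℕ → Prop} (hf : Computable f)
    (hp : ComputablePred fun x : α × ℕ => p x.1 x.2) :
    ComputablePred fun a => ∀ i < f a, p a i := by
  obtain ⟨g, hg, hg'⟩ := cp_iff.1 hp
  have h0 : Computable₂ fun (a : α) (q : ℕ × Bool) => q.2 && g (a, q.1) :=
    Primrec.and.to_comp.comp (Computable.snd.comp Computable.snd)
      (hg.comp (Computable.fst.pair (Computable.fst.comp Computable.snd)))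
  have h1 : Computable fun a => Nat.rec (motive := fun _ => Bool) true
      (fun y IH => IH && g (a, y)) (f a) :=
    Computable.nat_rec hf (Computable.const true) h0
  refine cp_iff.2 ⟨_, h1, fun a => ?_⟩
  have h2 : ∀ n : ℕ, (∀ i < n, p a i) ↔ (Nat.rec (motive := fun _ => Bool) true
      (fun y IH => IH && g (a, y)) n : Bool) = true := by
    intro n
    induction n with
    | zero => simp
    | succ n ih =>
      simp only [Bool.and_eq_true]
      rw [← ih, ← hg' (a, n)]
      constructor
      · intro h
        exact ⟨fun i hi => h i (Nat.lt_succ_of_lt hi), h n (Nat.lt_succ_self n)⟩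
      · rintro ⟨h, h'⟩ i hi
        rcases Nat.lt_succ_iff_lt_or_eq.1 hi with h3 | rfl
        · exact h i h3
        · exact h'
  exact h2 (f a)

/-- bounded existential quantification -/
theorem CP.ex {f : α → ℕ} {p : α → ℕ → Prop} (hf : Computable f)
    (hp : ComputablePred fun x : α × ℕ => p x.1 x.2) :
    ComputablePred fun a => ∃ i < f a, p a i := by
  refine CP.of_eq (CP.not (CP.all (p := fun a i => ¬ p a i) hf (CP.not hp))) fun a => ?_
  push Not
  exact Iff.rfl

/-- uniformization -/
theorem CP.choose {p : α → β → Prop} (hp : ComputablePred fun x : α × β => p x.1 x.2)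
    (h : ∀ a, ∃ b, p a b) : ∃ f : α → β, Computable f ∧ ∀ a, p a (f a) := by
  classical
  obtain ⟨g, hg, hg'⟩ := cp_iff.1 hp
  have h1 : Computable fun x : α × ℕ =>
      (Option.casesOn (motive := fun _ => Bool) (Encodable.decode (α := β) x.2) false
        (fun b => g (x.1, b)) : Bool) := by
    refine Computable.option_casesOn (Computable.decode.comp Computable.snd)
      (Computable.const false) ?_
    exact hg.comp ((Computable.fst.comp Computable.fst).pair Computable.snd)
  have h2 : ComputablePred fun x : α × ℕ =>
      ∃ b : β, Encodable.decode x.2 = some b ∧ p x.1 b := by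
    refine cp_iff.2 ⟨_, h1, fun x => ?_⟩
    rcases hd : (Encodable.decode (α := β) x.2) with _ | b
    · simp
    · have h3 := hg' (x.1, b)
      simp only [Option.some.injEq]
      constructor
      · rintro ⟨b', rfl, hb'⟩
        exact h3.1 hb'
      · intro hb
        exact ⟨b, rfl, h3.2 hb⟩
  have h3 : ∀ a : α, ∃ n : ℕ, ∃ b : β, Encodable.decode n = some b ∧ p a b := by
    intro a
    obtain ⟨b, hb⟩ := h a
    exact ⟨Encodable.encode b, b, Encodable.encodek b, hb⟩
  have h4 := Computable.find (P := fun (a : α) (n : ℕ) =>
    ∃ b : β, Encodable.decode n = some b ∧ p a b) h2 h3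
  choose F hF1 hF2 using fun a => Nat.find_spec (h3 a)
  refine ⟨F, ?_, hF2⟩
  rw [← Computable.option_some_iff]
  exact (Computable.decode.comp h4).of_eq hF1

/-- the inverse of a computable bijection -/
theorem computable_symm (e : ℕ ≃ ℕ) (he : Computable e) : Computable e.symm := by
  obtain ⟨f, hf, hf'⟩ := CP.choose (p := fun a b => e b = a)
    (CP.eq (he.comp Computable.snd) Computable.fst) (fun a => ⟨e.symm a, e.apply_symm_apply a⟩)
  refine hf.of_eq fun a => ?_
  rw [Equiv.eq_symm_apply]
  exact hf' a

end

end Pool.Agent.DP
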