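import Pool.Agent.DP.Comp

set_option autoImplicit false

/-!
# Iteration of a decidable relation along an invariant
-/

namespace Pool.Agent.DP

/-- a decidable relation, total on the states which satisfy an invariant (not necessarily
decidable) and preserving it, has a computable run -/
theorem exists_iteration (P : ℕ → ℕ → ℕ → Prop)
    (hP : ComputablePred fun p : ℕ × ℕ × ℕ => P p.1 p.2.1 p.2.2) (Inv : ℕ → ℕ → Prop) (c0 : ℕ)
    (h0 : Inv 0 c0) (h1 : ∀ s c, Inv s c → ∃ c', P s c c')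
    (h2 : ∀ s c c', Inv s c → P s c c' → Inv (s + 1) c') :
    ∃ g : ℕ → ℕ, Computable g ∧ g 0 = c0 ∧ ∀ s, Inv s (g s) ∧ P s (g s) (g (s + 1)) := by
  obtain ⟨f, hf, hPf⟩ := cp_iff.1 hP
  have hF : Partrec fun x : ℕ × ℕ => Nat.rfind fun c' => Part.some (f (x.1, x.2, c')) := by
    refine Partrec.rfind (p := fun (x : ℕ × ℕ) (c' : ℕ) => Part.some (f (x.1, x.2, c'))) ?_
    exact (hf.comp (f := f) (g := fun y : (ℕ × ℕ) × ℕ => (y.1.1, y.1.2, y.2))
      (by fun_prop)).partrec
  set Fn : ℕ × ℕ →. ℕ := fun x => Nat.rfind fun c' => Part.some (f (x.1, x.2, c')) with hFn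
  have hspec : ∀ s c c', c' ∈ Fn (s, c) → P s c c' := by
    intro s c c' h
    have := Nat.rfind_spec h
    rw [Part.mem_some_iff] at this
    exact (hPf (s, c, c')).2 this.symm
  have htot : ∀ s c, Inv s c → ∃ c', c' ∈ Fn (s, c) := by
    intro s c h
    obtain ⟨c', hc'⟩ := h1 s c h
    have h3 : (Fn (s, c)).Dom := by
      rw [hFn]
      refine Nat.rfind_dom.2 ⟨c', ?_, fun _ => trivial⟩
      rw [Part.mem_some_iff]
      exact ((hPf (s, c, c')).1 hc').symm
    exact ⟨_, Part.get_mem h3⟩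
  let G : ℕ →. ℕ := fun n => Nat.rec (motive := fun _ => Part ℕ) (Part.some c0)
    (fun s IH => IH.bind fun c => Fn (s, c)) n
  have hG : Partrec G := by
    refine Partrec.nat_rec (f := fun n : ℕ => n) (g := fun _ : ℕ => Part.some c0)
      (h := fun (_ : ℕ) (p : ℕ × ℕ) => Fn p) Computable.id (Computable.const c0).partrec ?_
    exact hF.comp (f := Fn) (g := fun y : ℕ × (ℕ × ℕ) => y.2) Computable.snd
  have hex : ∀ n, ∃ c, c ∈ G n ∧ Inv n c := by
    intro n
    induction n with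
    | zero => exact ⟨c0, Part.mem_some _, h0⟩
    | succ n ih =>
      obtain ⟨c, hc, hI⟩ := ih
      obtain ⟨c', hc'⟩ := htot n c hI
      exact ⟨c', Part.mem_bind hc hc', h2 n c c' hI (hspec n c c' hc')⟩
  choose g hg hI using hex
  refine ⟨g, hG.of_eq_tot hg, Part.mem_unique (hg 0) (Part.mem_some _), fun s => ⟨hI s, ?_⟩⟩
  obtain ⟨c, hc, hc'⟩ := Part.mem_bind_iff.1 (show g (s + 1) ∈ (G s).bind fun c => Fn (s, c) from
    hg (s + 1))
  have : c = g s := Part.mem_unique hc (hg s)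
  subst this
  exact hspec _ _ _ hc'

end Pool.Agent.DP
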