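import Pool.Agent.DP.Eng

set_option autoImplicit false

/-!
# Bounded tuples and the preserved part

Codes of bounded tuples, monotonicity of the bounded evaluation of programs, the function `hgt`.
-/

namespace Pool.Agent.DP

private theorem ent_pair_zero (x c : ℕ) : ent (Nat.pair x c) 0 = x := by
  change (Nat.pair x c).unpair.1 = x
  rw [Nat.unpair_pair]

private theorem ent_pair_succ (x c i : ℕ) : ent (Nat.pair x c) (i + 1) = ent c i := by
  change ent (Nat.pair x c).unpair.2 i = ent c i
  rw [Nat.unpair_pair]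

theorem exists_code (w : ℕ → ℕ) (l : ℕ) : ∃ c, ∀ i < l, ent c i = w i := by
  induction l generalizing w with
  | zero => exact ⟨0, fun i hi => absurd hi (Nat.not_lt_zero i)⟩
  | succ l ih =>
    obtain ⟨c, hc⟩ := ih (fun i => w (i + 1))
    refine ⟨Nat.pair (w 0) c, fun i hi => ?_⟩
    cases i with
    | zero => exact ent_pair_zero _ _
    | succ i =>
      rw [ent_pair_succ]
      exact hc i (by omega)

private theorem pair_le {a a' b b' : ℕ} (ha : a ≤ a') (hb : b ≤ b') :
    Nat.pair a b ≤ Nat.pair a' b' := by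
  have h1 : Nat.pair a b ≤ Nat.pair a' b := by
    rcases ha.lt_or_eq with h | h
    · exact (Nat.pair_lt_pair_left b h).le
    · rw [h]
  have h2 : Nat.pair a' b ≤ Nat.pair a' b' := by
    rcases hb.lt_or_eq with h | h
    · exact (Nat.pair_lt_pair_right a' h).le
    · rw [h]
  exact h1.trans h2

private theorem Gb_spec (m b : ℕ) (w : ℕ → ℕ) (h : ∀ i < b, w i ≤ m) :
    ∃ y ≤ Gb m b, ∀ i < b, ent y i = w i := by
  induction b generalizing w with
  | zero => exact ⟨0, Nat.zero_le _, fun i hi => absurd hi (Nat.not_lt_zero i)⟩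
  | succ b ih =>
    obtain ⟨c, hc, hcw⟩ := ih (fun i => w (i + 1)) (fun i hi => h (i + 1) (by omega))
    refine ⟨Nat.pair (w 0) c, ?_, fun i hi => ?_⟩
    · change Nat.pair (w 0) c ≤ Nat.pair m (Gb m b)
      exact pair_le (h 0 (Nat.succ_pos b)) hc
    · cases i with
      | zero => exact ent_pair_zero _ _
      | succ i =>
        rw [ent_pair_succ]
        exact hcw i (by omega)

private theorem bsum_succ (e s b : ℕ) : bsum e s (b + 1) = bsum e s b + bd e s b := rfl

private theorem bd_le_bsum (e s b i : ℕ) (hi : i < b) : bd e s i ≤ bsum e s b := by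
  induction b with
  | zero => exact absurd hi (Nat.not_lt_zero i)
  | succ b ih =>
    rw [bsum_succ]
    rcases Nat.lt_succ_iff_lt_or_eq.1 hi with h | h
    · exact (ih h).trans (Nat.le_add_right _ _)
    · rw [h]
      exact Nat.le_add_left _ _

theorem Bx_spec (e s b : ℕ) (w : ℕ → ℕ) (h : ∀ i < b, w i ≤ bd e s i) :
    ∃ y < Bx e s b, ∀ i < b, ent y i = w i := by
  obtain ⟨y, hy, hyw⟩ := Gb_spec (bsum e s b) b w fun i hi => (h i hi).trans (bd_le_bsum e s b i hi)
  exact ⟨y, Nat.lt_succ_of_le hy, hyw⟩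

private theorem evaln_mono' {e s s' i : ℕ} (h : cvg e s i = true) (hs : s ≤ s') :
    ∃ x, Nat.Partrec.Code.evaln s (Denumerable.ofNat Nat.Partrec.Code e) i = some x ∧
      Nat.Partrec.Code.evaln s' (Denumerable.ofNat Nat.Partrec.Code e) i = some x := by
  obtain ⟨x, hx⟩ := Option.isSome_iff_exists.1 h
  exact ⟨x, hx, Nat.Partrec.Code.evaln_mono hs hx⟩

theorem cvg_mono {e s s' i : ℕ} (h : cvg e s i = true) (hs : s ≤ s') : cvg e s' i = true := by
  obtain ⟨x, _, hx⟩ := evaln_mono' h hs
  unfold cvg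
  rw [hx]
  rfl

theorem bd_mono {e s s' i : ℕ} (h : cvg e s i = true) (hs : s ≤ s') : bd e s' i = bd e s i := by
  obtain ⟨x, h1, h2⟩ := evaln_mono' h hs
  unfold bd
  rw [h1, h2]

private theorem bsum_mono {e s s' b : ℕ} (h : ∀ i < b, cvg e s i = true) (hs : s ≤ s') :
    bsum e s' b = bsum e s b := by
  induction b with
  | zero => rfl
  | succ b ih =>
    rw [bsum_succ, bsum_succ, ih fun i hi => h i (by omega), bd_mono (h b (Nat.lt_succ_self b)) hs]

theorem Bx_mono {e s s' b : ℕ} (h : ∀ i < b, cvg e s i = true) (hs : s ≤ s') :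
    Bx e s' b = Bx e s b := by
  unfold Bx
  rw [bsum_mono h hs]

theorem Box_mono {e s s' b y : ℕ} (h : ∀ i < b, cvg e s i = true) (hs : s ≤ s') :
    Box e s' b y ↔ Box e s b y := by
  unfold Box
  constructor
  · intro h1 i hi
    rw [← bd_mono (h i hi) hs]
    exact h1 i hi
  · intro h1 i hi
    rw [bd_mono (h i hi) hs]
    exact h1 i hi

theorem exists_prog (h : ℕ → ℕ) (hh : Computable h) : ∃ e, (∀ i, ∃ s, cvg e s i = true) ∧
    ∀ s i, cvg e s i = true → bd e s i = h i := by
  have h1 : Nat.Partrec (fun n => Part.some (h n)) := Partrec.nat_iff.1 hh.partrec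
  obtain ⟨c, hc⟩ := Nat.Partrec.Code.exists_code.1 h1
  refine ⟨Encodable.encode c, fun i => ?_, fun s i hs => ?_⟩
  · have h2 : h i ∈ Nat.Partrec.Code.eval c i := by
      rw [hc]
      exact Part.mem_some _
    obtain ⟨s, hs⟩ := Nat.Partrec.Code.evaln_complete.1 h2
    refine ⟨s, ?_⟩
    unfold cvg
    rw [Denumerable.ofNat_encode, hs]
    rfl
  · unfold cvg at hs
    unfold bd
    rw [Denumerable.ofNat_encode] at hs ⊢
    obtain ⟨x, hx⟩ := Option.isSome_iff_exists.1 hs
    have h2 := Nat.Partrec.Code.evaln_sound hx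
    rw [hc] at h2
    rw [hx]
    exact Part.mem_some_iff.1 h2

private theorem hgt_succ (r σ l : ℕ) : hgt r σ (l + 1) =
    bif decide (l < r) || decide (ent σ l < r) then l + 1 else hgt r σ l := rfl

private theorem hgt_pos {r σ l : ℕ} (h : l < r ∨ ent σ l < r) : hgt r σ (l + 1) = l + 1 := by
  have h1 : (decide (l < r) || decide (ent σ l < r)) = true := by simpa using h
  rw [hgt_succ, h1]
  rfl

private theorem hgt_neg {r σ l : ℕ} (h : ¬ (l < r ∨ ent σ l < r)) :
    hgt r σ (l + 1) = hgt r σ l := by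
  have h1 : (decide (l < r) || decide (ent σ l < r)) = false := by simpa using h
  rw [hgt_succ, h1]
  rfl

theorem hgt_le (r σ l : ℕ) : hgt r σ l ≤ l := by
  induction l with
  | zero => exact Nat.zero_le _
  | succ l ih =>
    by_cases h : l < r ∨ ent σ l < r
    · rw [hgt_pos h]
    · rw [hgt_neg h]
      omega

theorem lt_hgt {r σ l a : ℕ} (ha : a < l) (h : a < r ∨ ent σ a < r) : a < hgt r σ l := by
  induction l with
  | zero => exact absurd ha (Nat.not_lt_zero a)
  | succ l ih =>
    by_cases h1 : l < r ∨ ent σ l < r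
    · rw [hgt_pos h1]
      exact ha
    · rw [hgt_neg h1]
      rcases Nat.lt_succ_iff_lt_or_eq.1 ha with h2 | h2
      · exact ih h2
      · exact absurd (h2 ▸ h) h1

theorem hgt_le_of {r σ l h : ℕ} (hl : ∀ a < l, (a < r ∨ ent σ a < r) → a < h) :
    hgt r σ l ≤ h := by
  induction l with
  | zero => exact Nat.zero_le _
  | succ l ih =>
    by_cases h1 : l < r ∨ ent σ l < r
    · rw [hgt_pos h1]
      exact hl l (Nat.lt_succ_self l) h1
    · rw [hgt_neg h1]
      exact ih fun a ha => hl a (by omega)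

theorem hgt_mono {r r' σ l : ℕ} (h : r ≤ r') : hgt r σ l ≤ hgt r' σ l := by
  refine hgt_le_of fun a ha h1 => lt_hgt ha ?_
  rcases h1 with h1 | h1
  · exact Or.inl (by omega)
  · exact Or.inr (by omega)

theorem hgt_top (σ l : ℕ) : hgt l σ l = l := by
  refine le_antisymm (hgt_le _ _ _) ?_
  cases l with
  | zero => exact Nat.zero_le _
  | succ l => exact lt_hgt (Nat.lt_succ_self l) (Or.inl (Nat.lt_succ_self l))

end Pool.Agent.DP
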