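import Pool.Agent.DP.Eng

set_option autoImplicit false

/-!
# Numbers of formulas: semantics

The truth of the formulas with the numbers `cimp a b`, `call i a`, `ceq i j`, ..., the free variables of the formula
with number `n`, surjectivity of the numberings, invariance under isomorphism.
-/

open FirstOrder FirstOrder.Language

namespace Pool.Agent.DP

variable {L : FirstOrder.Language.{0, 0}}

private theorem term_congr {A : Type} (S : L.Structure A) (t : L.Term ℕ) (w w' : ℕ → A)
    (h : ∀ i ∈ t.varFinset, w i = w' i) : t.realize w = t.realize w' := by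
  induction t with
  | var i =>
    simp only [Term.realize_var]
    exact h i (by simp [Term.varFinset])
  | func f ts ih =>
    simp only [Term.realize_func]
    congr 1
    funext i
    refine ih i (fun j hj => h j ?_)
    simp only [Term.varFinset, Finset.mem_biUnion]
    exact ⟨i, Finset.mem_univ _, hj⟩

theorem sat_congr {A : Type} (S : L.Structure A) (φ : Fm L) (w w' : ℕ → A)
    (h : ∀ i ∈ φ.fv, w i = w' i) : Sat S φ w ↔ Sat S φ w' := by
  induction φ generalizing w w' with
  | bot => exact Iff.rfl
  | eq t u =>
    simp only [Sat]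
    rw [term_congr S t w w' (fun i hi => h i (Or.inl hi)),
      term_congr S u w w' (fun i hi => h i (Or.inr hi))]
  | rel R ts =>
    simp only [Sat]
    have e : (fun i => (ts i).realize w) = fun i => (ts i).realize w' := by
      funext i
      exact term_congr S (ts i) w w' (fun j hj => h j (Set.mem_iUnion.2 ⟨i, hj⟩))
    rw [e]
  | imp φ ψ ih1 ih2 =>
    simp only [Sat]
    rw [ih1 w w' (fun i hi => h i (Or.inl hi)), ih2 w w' (fun i hi => h i (Or.inr hi))]
  | all i φ ih =>
    simp only [Sat]
    refine forall_congr' (fun a => ih _ _ (fun j hj => ?_))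
    by_cases hji : j = i
    · subst hji
      rw [Function.update_self, Function.update_self]
    · rw [Function.update_of_ne hji, Function.update_of_ne hji]
      exact h j ⟨hj, hji⟩

theorem sat_iso {A B : Type} {S : L.Structure A} {T : L.Structure B} {g : A → B}
    (h : IsIso S T g) (φ : Fm L) (w : ℕ → A) : Sat S φ w ↔ Sat T φ fun i => g (w i) := by
  obtain ⟨e, he⟩ := h
  have hg : g = fun a => e a := funext fun a => (he a).symm
  subst hg
  have ht : ∀ (t : L.Term ℕ) (w : ℕ → A), t.realize (fun i => e (w i)) = e (t.realize w) :=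
    fun t w => HomClass.realize_term e
  induction φ generalizing w with
  | bot => exact Iff.rfl
  | eq t u =>
    simp only [Sat]
    rw [ht, ht]
    exact e.injective.eq_iff.symm
  | rel R ts =>
    simp only [Sat]
    have e1 : (fun i => (ts i).realize (fun i => e (w i))) = e ∘ fun i => (ts i).realize w := by
      funext i
      exact ht _ _
    rw [e1]
    exact (e.map_rel R _).symm
  | imp φ ψ ih1 ih2 =>
    exact imp_congr (ih1 w) (ih2 w)
  | all i φ ih =>
    simp only [Sat]
    have e1 : ∀ a, (fun k => e (Function.update w i a k)) =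
        Function.update (fun k => e (w k)) i (e a) := by
      intro a
      funext k
      by_cases hk : k = i
      · subst hk
        rw [Function.update_self, Function.update_self]
      · rw [Function.update_of_ne hk, Function.update_of_ne hk]
    constructor
    · intro h b
      obtain ⟨a, rfl⟩ := e.surjective b
      have h1 : Sat T φ (fun k => e (Function.update w i a k)) := (ih _).1 (h a)
      rw [e1] at h1
      exact h1
    · intro h a
      refine (ih _).2 ?_
      show Sat T φ (fun k => e (Function.update w i a k))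
      rw [e1]
      exact h (e a)

variable [Encodable (Σ n, L.Functions n)] [Encodable (Σ n, L.Relations n)]

theorem tr_zero {A : Type} (S : L.Structure A) (w : ℕ → A) : ¬ Tr S 0 w := by
  unfold Tr
  rw [fm]
  exact id

theorem tr_imp {A : Type} (S : L.Structure A) (a b : ℕ) (w : ℕ → A) :
    Tr S (cimp a b) w ↔ (Tr S a w → Tr S b w) := by
  unfold Tr cimp
  rw [fm]
  simp only [Nat.unpair_pair]
  exact Iff.rfl

theorem tr_all {A : Type} (S : L.Structure A) (i a : ℕ) (w : ℕ → A) :
    Tr S (call i a) w ↔ ∀ x, Tr S a (Function.update w i x) := by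
  unfold Tr call
  rw [fm]
  simp only [Nat.unpair_pair]
  exact Iff.rfl

omit [Encodable (Σ n, L.Relations n)] in
private theorem tm_var (i : ℕ) : (tm (Nat.pair 0 i + 1) : L.Term ℕ) = .var i := by
  rw [tm]
  simp only [Nat.unpair_pair]

theorem tr_eq {A : Type} (S : L.Structure A) (i j : ℕ) (w : ℕ → A) :
    Tr S (ceq i j) w ↔ w i = w j := by
  unfold Tr ceq
  rw [fm]
  simp only [Nat.unpair_pair, tm_var]
  exact Iff.rfl

theorem tr_neg {A : Type} (S : L.Structure A) (a : ℕ) (w : ℕ → A) :
    Tr S (cneg a) w ↔ ¬ Tr S a w := by
  unfold cneg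
  rw [tr_imp]
  exact ⟨fun h h1 => tr_zero S w (h h1), fun h h1 => absurd h1 h⟩

theorem tr_and {A : Type} (S : L.Structure A) (a b : ℕ) (w : ℕ → A) :
    Tr S (cand a b) w ↔ Tr S a w ∧ Tr S b w := by
  unfold cand
  rw [tr_neg, tr_imp, tr_neg]
  tauto

theorem tr_ex {A : Type} (S : L.Structure A) (i a : ℕ) (w : ℕ → A) :
    Tr S (cex i a) w ↔ ∃ x, Tr S a (Function.update w i x) := by
  unfold cex
  rw [tr_neg, tr_all]
  simp only [tr_neg, not_forall, not_not]

omit [Encodable (Σ n, L.Relations n)] in
private theorem var_tm (n : ℕ) : ∀ i ∈ (tm n : L.Term ℕ).varFinset, i ≤ n := by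
  induction n using Nat.strong_induction_on with
  | _ n ih =>
    intro i hi
    cases n with
    | zero =>
      rw [tm] at hi
      simp [Term.varFinset] at hi
      omega
    | succ n =>
      rw [tm] at hi
      split at hi
      · simp only [Term.varFinset, Finset.mem_singleton] at hi
        have := Nat.unpair_right_le n
        omega
      · split at hi
        · simp [Term.varFinset] at hi
          omega
        · simp only [Term.varFinset, Finset.mem_biUnion, Finset.mem_univ, true_and] at hi
          obtain ⟨j, hj⟩ := hi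
          have h1 := ent_le n.unpair.2 j
          have h2 := Nat.unpair_right_le n
          have h3 := ih _ (by omega) i hj
          omega

theorem fv_fm (n : ℕ) : (fm n : Fm L).fv ⊆ Set.Iic n := by
  induction n using Nat.strong_induction_on with
  | _ n ih =>
    intro i hi
    rw [Set.mem_Iic]
    cases n with
    | zero =>
      rw [fm] at hi
      exact absurd hi (by simp [Fm.fv])
    | succ n =>
      have h1 := Nat.unpair_right_le n
      have h2 := Nat.unpair_left_le n.unpair.2
      have h3 := Nat.unpair_right_le n.unpair.2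
      rw [fm] at hi
      split at hi
      · simp only [Fm.fv, Set.mem_union, Finset.mem_coe] at hi
        rcases hi with hi | hi
        · have := var_tm _ i hi
          omega
        · have := var_tm _ i hi
          omega
      · simp only [Fm.fv, Set.mem_union] at hi
        rcases hi with hi | hi
        · have := ih _ (by omega) hi
          rw [Set.mem_Iic] at this
          omega
        · have := ih _ (by omega) hi
          rw [Set.mem_Iic] at this
          omega
      · simp only [Fm.fv] at hi
        have := ih _ (by omega) hi.1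
        rw [Set.mem_Iic] at this
        omega
      · split at hi
        · exact absurd hi (by simp [Fm.fv])
        · simp only [Fm.fv, Set.mem_iUnion, Finset.mem_coe] at hi
          obtain ⟨j, hj⟩ := hi
          have h4 := ent_le n.unpair.2 j
          have h5 := var_tm _ i hj
          omega

theorem fv_cex (i a : ℕ) : (fm (cex i a) : Fm L).fv = (fm a : Fm L).fv \ {i} := by
  have himp : ∀ a b, (fm (cimp a b) : Fm L) = .imp (fm a) (fm b) := by
    intro a b
    unfold cimp
    rw [fm]
    simp only [Nat.unpair_pair]
  have hall : ∀ i a, (fm (call i a) : Fm L) = .all i (fm a) := by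
    intro i a
    unfold call
    rw [fm]
    simp only [Nat.unpair_pair]
  have h0 : (fm 0 : Fm L) = .bot := by rw [fm]
  unfold cex cneg
  rw [himp, hall, himp, h0]
  simp only [Fm.fv, Set.union_empty]

theorem tr_congr {A : Type} (S : L.Structure A) (n : ℕ) (w w' : ℕ → A)
    (h : ∀ i ≤ n, w i = w' i) : Tr S n w ↔ Tr S n w' :=
  sat_congr S _ w w' fun i hi => h i (fv_fm n hi)

private theorem seq_code (l : ℕ) (a : ℕ → ℕ) : ∃ c, ∀ i < l, ent c i = a i := by
  induction l generalizing a with
  | zero => exact ⟨0, fun i hi => absurd hi (Nat.not_lt_zero i)⟩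
  | succ l ih =>
    obtain ⟨c, hc⟩ := ih (fun i => a (i + 1))
    refine ⟨Nat.pair (a 0) c, fun i hi => ?_⟩
    cases i with
    | zero => simp [ent]
    | succ i =>
      simp only [ent, Nat.unpair_pair]
      exact hc i (by omega)

private theorem seq_code' {l : ℕ} (a : Fin l → ℕ) : ∃ c, ∀ i : Fin l, ent c i = a i := by
  obtain ⟨c, hc⟩ := seq_code l (fun i => if h : i < l then a ⟨i, h⟩ else 0)
  refine ⟨c, fun i => ?_⟩
  rw [hc i i.2, dif_pos i.2]

theorem tm_surj : Function.Surjective (tm : ℕ → L.Term ℕ) := by
  intro t
  induction t with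
  | var i => exact ⟨_, tm_var i⟩
  | func f ts ih =>
    choose a ha using ih
    obtain ⟨c, hc⟩ := seq_code' a
    refine ⟨Nat.pair (Encodable.encode (⟨_, f⟩ : Σ n, L.Functions n) + 1) c + 1, ?_⟩
    rw [tm]
    simp only [Nat.unpair_pair, Encodable.encodek]
    congr 1
    funext i
    rw [hc i, ha i]

theorem fm_surj : Function.Surjective (fm : ℕ → Fm L) := by
  intro φ
  induction φ with
  | bot => exact ⟨0, by rw [fm]⟩
  | eq t u =>
    obtain ⟨a, ha⟩ := tm_surj t
    obtain ⟨b, hb⟩ := tm_surj u
    refine ⟨Nat.pair 0 (Nat.pair a b) + 1, ?_⟩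
    rw [fm]
    simp only [Nat.unpair_pair]
    rw [ha, hb]
  | rel R ts =>
    choose a ha using fun i => tm_surj (ts i)
    obtain ⟨c, hc⟩ := seq_code' a
    refine ⟨Nat.pair (Encodable.encode (⟨_, R⟩ : Σ n, L.Relations n) + 3) c + 1, ?_⟩
    rw [fm]
    simp only [Nat.unpair_pair, Encodable.encodek]
    congr 1
    funext i
    rw [hc i, ha i]
  | imp φ ψ ih1 ih2 =>
    obtain ⟨a, ha⟩ := ih1
    obtain ⟨b, hb⟩ := ih2
    refine ⟨Nat.pair 1 (Nat.pair a b) + 1, ?_⟩
    rw [fm]
    simp only [Nat.unpair_pair]
    rw [ha, hb]
  | all i φ ih =>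
    obtain ⟨a, ha⟩ := ih
    refine ⟨Nat.pair 2 (Nat.pair i a) + 1, ?_⟩
    rw [fm]
    simp only [Nat.unpair_pair]
    rw [ha]

end Pool.Agent.DP
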