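import Pool.Agent.DP.Eng
import Pool.Agent.DP.Comp

set_option autoImplicit false

/-!
# The functions of the construction are computable
-/

namespace Pool.Agent.DP

private theorem rec_shift (c i : ℕ) :
    (Nat.rec (motive := fun _ => ℕ) c.unpair.2 (fun _ x => x.unpair.2) i : ℕ) =
      (Nat.rec (motive := fun _ => ℕ) c (fun _ x => x.unpair.2) i : ℕ).unpair.2 := by
  induction i with
  | zero => rfl
  | succ i ih =>
    show (Nat.rec (motive := fun _ => ℕ) c.unpair.2 (fun _ x => x.unpair.2) i : ℕ).unpair.2 = _
    rw [ih]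

private theorem ent_rec (c i : ℕ) :
    ent c i = (Nat.rec (motive := fun _ => ℕ) c (fun _ x => x.unpair.2) i : ℕ).unpair.1 := by
  induction i generalizing c with
  | zero => rfl
  | succ i ih =>
    show ent c.unpair.2 i = _
    rw [ih, rec_shift]

theorem ent_prim : Primrec₂ ent := by
  have h : Primrec fun p : ℕ × ℕ =>
      (Nat.rec (motive := fun _ => ℕ) p.1 (fun _ x => x.unpair.2) p.2 : ℕ) :=
    Primrec.nat_rec' (f := fun p : ℕ × ℕ => p.2) (g := fun p : ℕ × ℕ => p.1)
      (h := fun _ (q : ℕ × ℕ) => q.2.unpair.2) Primrec.snd Primrec.fst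
      ((Primrec.snd.comp (Primrec.unpair.comp (Primrec.snd.comp Primrec.snd))).to₂)
  refine Primrec₂.mk ((Primrec.fst.comp (Primrec.unpair.comp h)).of_eq fun p => ?_)
  rw [ent_rec]

section

variable {α : Type} [Primcodable α]

@[fun_prop]
theorem Cp.ent {f g : α → ℕ} (hf : Computable f) (hg : Computable g) :
    Computable fun x => ent (f x) (g x) :=
  ent_prim.to_comp.comp hf hg

@[fun_prop]
theorem Cp.cimp {f g : α → ℕ} (hf : Computable f) (hg : Computable g) :
    Computable fun x => cimp (f x) (g x) := by
  unfold DP.cimp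
  fun_prop

@[fun_prop]
theorem Cp.call {f g : α → ℕ} (hf : Computable f) (hg : Computable g) :
    Computable fun x => call (f x) (g x) := by
  unfold DP.call
  fun_prop

@[fun_prop]
theorem Cp.ceq {f g : α → ℕ} (hf : Computable f) (hg : Computable g) :
    Computable fun x => ceq (f x) (g x) := by
  unfold DP.ceq
  fun_prop

@[fun_prop]
theorem Cp.cneg {f : α → ℕ} (hf : Computable f) : Computable fun x => cneg (f x) := by
  unfold DP.cneg
  fun_prop

@[fun_prop]
theorem Cp.cand {f g : α → ℕ} (hf : Computable f) (hg : Computable g) :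
    Computable fun x => cand (f x) (g x) := by
  unfold DP.cand
  fun_prop

@[fun_prop]
theorem Cp.cex {f g : α → ℕ} (hf : Computable f) (hg : Computable g) :
    Computable fun x => cex (f x) (g x) := by
  unfold DP.cex
  fun_prop

private theorem Cp.dle {f g : α → ℕ} (hf : Computable f) (hg : Computable g) :
    Computable fun x => decide (f x ≤ g x) :=
  (PrimrecRel.decide Primrec.nat_le).to_comp.comp hf hg

private theorem Cp.dlt {f g : α → ℕ} (hf : Computable f) (hg : Computable g) :
    Computable fun x => decide (f x < g x) :=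
  (PrimrecRel.decide Primrec.nat_lt).to_comp.comp hf hg

@[fun_prop]
theorem Cp.exB {f g h : α → ℕ} (hf : Computable f) (hg : Computable g) (hh : Computable h) :
    Computable fun x => exB (f x) (g x) (h x) := by
  have h1 : Computable fun p : α × (ℕ × ℕ) =>
      bif decide (f p.1 ≤ p.2.1) then DP.cex p.2.1 p.2.2 else p.2.2 :=
    Computable.cond (Cp.dle (by fun_prop) (by fun_prop)) (by fun_prop) (by fun_prop)
  exact Computable.nat_rec (f := g) (g := h) hg hh h1.to₂

@[fun_prop]
theorem Cp.trunc {f g : α → ℕ} (hf : Computable f) (hg : Computable g) :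
    Computable fun x => trunc (f x) (g x) := by
  unfold DP.trunc
  fun_prop

private theorem Cp.evn {f g h : α → ℕ} (hf : Computable f) (hg : Computable g)
    (hh : Computable h) : Computable fun x =>
      Nat.Partrec.Code.evaln (g x) (Denumerable.ofNat Nat.Partrec.Code (f x)) (h x) :=
  Nat.Partrec.Code.primrec_evaln.to_comp.comp
    (Computable.pair (Computable.pair hg ((Computable.ofNat Nat.Partrec.Code).comp hf)) hh)

@[fun_prop]
theorem Cp.cvg {f g h : α → ℕ} (hf : Computable f) (hg : Computable g) (hh : Computable h) :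
    Computable fun x => cvg (f x) (g x) (h x) :=
  Primrec.option_isSome.to_comp.comp (Cp.evn hf hg hh)

@[fun_prop]
theorem Cp.bd {f g h : α → ℕ} (hf : Computable f) (hg : Computable g) (hh : Computable h) :
    Computable fun x => bd (f x) (g x) (h x) :=
  Computable.option_getD (Cp.evn hf hg hh) (Computable.const 0)

@[fun_prop]
theorem Cp.bsum {f g h : α → ℕ} (hf : Computable f) (hg : Computable g) (hh : Computable h) :
    Computable fun x => bsum (f x) (g x) (h x) := by
  have h1 : Computable fun p : α × (ℕ × ℕ) => p.2.2 + DP.bd (f p.1) (g p.1) p.2.1 := by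
    fun_prop
  exact Computable.nat_rec (f := h) (g := fun _ => 0) hh (Computable.const 0) h1.to₂

@[fun_prop]
theorem Cp.Gb {f g : α → ℕ} (hf : Computable f) (hg : Computable g) :
    Computable fun x => Gb (f x) (g x) := by
  have h1 : Computable fun p : α × (ℕ × ℕ) => Nat.pair (f p.1) p.2.2 := by fun_prop
  exact Computable.nat_rec (f := g) (g := fun _ => 0) hg (Computable.const 0) h1.to₂

@[fun_prop]
theorem Cp.Bx {f g h : α → ℕ} (hf : Computable f) (hg : Computable g) (hh : Computable h) :
    Computable fun x => Bx (f x) (g x) (h x) := by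
  unfold DP.Bx
  fun_prop

@[fun_prop]
theorem Cp.hgt {f g h : α → ℕ} (hf : Computable f) (hg : Computable g) (hh : Computable h) :
    Computable fun x => hgt (f x) (g x) (h x) := by
  have h2 : Computable fun p : α × (ℕ × ℕ) =>
      (decide (p.2.1 < f p.1) || decide (DP.ent (g p.1) p.2.1 < f p.1)) :=
    Primrec.or.to_comp.comp (Cp.dlt (by fun_prop) (by fun_prop)) (Cp.dlt (by fun_prop) (by fun_prop))
  have h1 : Computable fun p : α × (ℕ × ℕ) =>
      bif decide (p.2.1 < f p.1) || decide (DP.ent (g p.1) p.2.1 < f p.1) then p.2.1 + 1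
        else p.2.2 :=
    Computable.cond h2 (by fun_prop) (by fun_prop)
  exact Computable.nat_rec (f := h) (g := fun _ => 0) hh (Computable.const 0) h1.to₂

@[fun_prop]
theorem Cp.nx {f g h : α → ℕ} (hf : Computable f) (hg : Computable g) (hh : Computable h) :
    Computable fun x => nx (f x) (g x) (h x) := by
  unfold DP.nx
  fun_prop

end

end Pool.Agent.DP
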