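import Mathlib

set_option autoImplicit false

/-!
# First-order formulas, their numbering, decidable structures

The variables are `v_0, v_1, ...`; the terms are those of Mathlib.
-/

open FirstOrder FirstOrder.Language

namespace Pool.Agent.DP

/-- first-order formulas with variables `v_0, v_1, ...` -/
inductive Fm (L : FirstOrder.Language.{0, 0}) : Type
  | bot : Fm L
  | eq (t u : L.Term ℕ) : Fm L
  | rel {n : ℕ} (R : L.Relations n) (ts : Fin n → L.Term ℕ) : Fm L
  | imp (φ ψ : Fm L) : Fm L
  | all (i : ℕ) (φ : Fm L) : Fm L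

variable {L : FirstOrder.Language.{0, 0}}

/-- `Sat S φ w`: the formula `φ` is true in the structure `S` when `v_i` has the value `w i` -/
def Sat {A : Type} (S : L.Structure A) : Fm L → (ℕ → A) → Prop
  | .bot, _ => False
  | .eq t u, w => t.realize w = u.realize w
  | .rel R ts, w => Structure.RelMap R fun i => (ts i).realize w
  | .imp φ ψ, w => Sat S φ w → Sat S ψ w
  | .all i φ, w => ∀ a : A, Sat S φ (Function.update w i a)

/-- the set of the numbers of the free variables -/
def Fm.fv : Fm L → Set ℕ
  | .bot => ∅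
  | .eq t u => ↑t.varFinset ∪ ↑u.varFinset
  | .rel _ ts => ⋃ i, ↑(ts i).varFinset
  | .imp φ ψ => φ.fv ∪ ψ.fv
  | .all i φ => φ.fv \ {i}

/-- the `i`-th entry of the sequence with code `c` -/
def ent : ℕ → ℕ → ℕ
  | c, 0 => c.unpair.1
  | c, i + 1 => ent c.unpair.2 i

theorem ent_le (c i : ℕ) : ent c i ≤ c := by
  induction i generalizing c with
  | zero => exact Nat.unpair_left_le c
  | succ i ih => exact (ih _).trans (Nat.unpair_right_le c)

section

variable [Encodable (Σ n, L.Functions n)] [Encodable (Σ n, L.Relations n)]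

/-- the term with number `n` -/
def tm : ℕ → L.Term ℕ
  | 0 => .var 0
  | n + 1 =>
    match n.unpair.1 with
    | 0 => .var n.unpair.2
    | k + 1 =>
      match Encodable.decode (α := Σ n, L.Functions n) k with
      | none => .var 0
      | some ⟨_, f⟩ => .func f fun i => tm (ent n.unpair.2 i)
termination_by n => n
decreasing_by exact Nat.lt_succ_of_le ((ent_le _ _).trans (Nat.unpair_right_le n))

/-- the formula with number `n` -/
def fm : ℕ → Fm L
  | 0 => .bot
  | n + 1 =>
    match n.unpair.1 with
    | 0 => .eq (tm n.unpair.2.unpair.1) (tm n.unpair.2.unpair.2)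
    | 1 => .imp (fm n.unpair.2.unpair.1) (fm n.unpair.2.unpair.2)
    | 2 => .all n.unpair.2.unpair.1 (fm n.unpair.2.unpair.2)
    | k + 3 =>
      match Encodable.decode (α := Σ n, L.Relations n) k with
      | none => .bot
      | some ⟨_, R⟩ => .rel R fun i => tm (ent n.unpair.2 i)
termination_by n => n
decreasing_by
  all_goals
    have h1 := Nat.unpair_right_le n
    have h2 := Nat.unpair_left_le n.unpair.2
    have h3 := Nat.unpair_right_le n.unpair.2
    omega

/-- `S` is a decidable structure: it is decidable whether the formula with number `n` is true in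
`S` at a given finite tuple of numbers (the other variables have the value `0`) -/
def Decid (S : L.Structure ℕ) : Prop :=
  ComputablePred fun p : ℕ × List ℕ => Sat S (fm p.1) fun i => p.2.getD i 0

/-- the structures `M 0, M 1, ...` are decidable, uniformly -/
def UDecid (M : ℕ → L.Structure ℕ) : Prop :=
  ComputablePred fun p : ℕ × ℕ × List ℕ => Sat (M p.1) (fm p.2.1) fun i => p.2.2.getD i 0

end

/-- `g` is an isomorphism -/
def IsIso {A B : Type} (S : L.Structure A) (T : L.Structure B) (g : A → B) : Prop :=
  ∃ e : A ≃[L] B, ∀ a, e a = g a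

/-- the structures are isomorphic -/
def Iso {A B : Type} (S : L.Structure A) (T : L.Structure B) : Prop := ∃ g, IsIso S T g

/-- `g` is an elementary embedding -/
def Elem {A B : Type} (S : L.Structure A) (T : L.Structure B) (g : A → B) : Prop :=
  ∀ (φ : Fm L) (w : ℕ → A), Sat S φ w ↔ Sat T φ fun i => g (w i)

/-- the same sentences are true in `S` and in `T` -/
def ElemEquiv {A B : Type} (S : L.Structure A) (T : L.Structure B) : Prop :=
  ∀ φ : Fm L, φ.fv = ∅ → ((∀ w : ℕ → A, Sat S φ w) ↔ ∀ u : ℕ → B, Sat T φ u)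

/-- `S` is atomic over the tuple `(w 0, ..., w (k - 1))`: the type of every finite tuple which
extends it is isolated over it -/
def AtomicOver {A : Type} (S : L.Structure A) (k : ℕ) (w : ℕ → A) : Prop :=
  ∀ (m : ℕ) (u : ℕ → A), (∀ i < k, u i = w i) → ∃ χ : Fm L, χ.fv ⊆ Set.Iio m ∧ Sat S χ u ∧
    ∀ φ : Fm L, φ.fv ⊆ Set.Iio m → Sat S φ u →
      ∀ u' : ℕ → A, (∀ i < k, u' i = w i) → Sat S χ u' → Sat S φ u'

/-- `S` realizes all `1`-types over finite tuples: every finitely satisfiable set of formulas in
the variable `v_k`, with parameters `w 0, ..., w (k - 1)`, is satisfiable -/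
def Saturated {A : Type} (S : L.Structure A) : Prop :=
  ∀ (k : ℕ) (w : ℕ → A) (Φ : Set (Fm L)), (∀ φ ∈ Φ, φ.fv ⊆ Set.Iic k) →
    (∀ F : Set (Fm L), F.Finite → F ⊆ Φ → ∃ a, ∀ φ ∈ F, Sat S φ (Function.update w k a)) →
    ∃ a, ∀ φ ∈ Φ, Sat S φ (Function.update w k a)

end Pool.Agent.DP
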