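import Pool.Agent.DP.ExB
import Pool.Agent.DP.CodesC

set_option autoImplicit false

/-!
# Renaming of variables

The formula `n` with the variables `v_i` replaced by `v_(a_i)` is written with two blocks of existential quantifiers: new
variables `v_(m+i)` take the values of `v_(a_i)`, then the variables `v_i` take the values of `v_(m+i)`.
-/

open FirstOrder FirstOrder.Language

namespace Pool.Agent.DP

/-- a number larger than `n` and all entries of `a` -/
private def rm (n : ℕ) (a : List ℕ) : ℕ := n + 1 + Encodable.encode a + 1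

private def rc1 (n : ℕ) (a : List ℕ) (k : ℕ) : ℕ :=
  Nat.rec (motive := fun _ => ℕ) (cneg 0) (fun i x => cand (ceq (rm n a + i) (a.getD i 0)) x) k

private def rc2 (m k : ℕ) : ℕ :=
  Nat.rec (motive := fun _ => ℕ) (cneg 0) (fun i x => cand (ceq i (m + i)) x) k

private def rnn (n : ℕ) (a : List ℕ) : ℕ :=
  exB (rm n a) (rm n a + (n + 1)) (cand (rc1 n a (n + 1))
    (exB 0 (n + 1) (cand (rc2 (rm n a) (n + 1)) n)))

private theorem le_encode (a : List ℕ) (i : ℕ) : a.getD i 0 ≤ Encodable.encode a := by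
  induction a generalizing i with
  | nil => simp
  | cons x a ih =>
    have h1 : Encodable.encode (x :: a) = Nat.succ (Nat.pair x (Encodable.encode a)) := rfl
    rw [h1]
    cases i with
    | zero =>
      rw [List.getD_cons_zero]
      exact (Nat.left_le_pair _ _).trans (Nat.le_succ _)
    | succ i =>
      rw [List.getD_cons_succ]
      exact (ih i).trans ((Nat.right_le_pair _ _).trans (Nat.le_succ _))

private theorem rm_cp : Computable fun p : ℕ × List ℕ => rm p.1 p.2 := by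
  have h : Computable fun p : ℕ × List ℕ => Encodable.encode p.2 :=
    Computable.encode.comp Computable.snd
  unfold rm
  exact Cp.add (Cp.add (Cp.add (Cp.fst Cp.id) (Cp.const 1)) h) (Cp.const 1)

private theorem rc1_cp' : Computable fun q : (ℕ × List ℕ) × ℕ => rc1 q.1.1 q.1.2 q.2 := by
  have hp : Computable fun p : ((ℕ × List ℕ) × ℕ) × (ℕ × ℕ) => p.1.1 :=
    Computable.fst.comp Computable.fst
  have hi : Computable fun p : ((ℕ × List ℕ) × ℕ) × (ℕ × ℕ) => p.2.1 :=
    Computable.fst.comp Computable.snd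
  have hx : Computable fun p : ((ℕ × List ℕ) × ℕ) × (ℕ × ℕ) => p.2.2 :=
    Computable.snd.comp Computable.snd
  have hm : Computable fun p : ((ℕ × List ℕ) × ℕ) × (ℕ × ℕ) => rm p.1.1.1 p.1.1.2 :=
    rm_cp.comp hp
  have hg : Computable fun p : ((ℕ × List ℕ) × ℕ) × (ℕ × ℕ) => p.1.1.2.getD p.2.1 0 :=
    (Primrec.list_getD 0).to_comp.comp (Computable.snd.comp hp) hi
  have h1 : Computable fun p : ((ℕ × List ℕ) × ℕ) × (ℕ × ℕ) =>
      cand (ceq (rm p.1.1.1 p.1.1.2 + p.2.1) (p.1.1.2.getD p.2.1 0)) p.2.2 :=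
    Cp.cand (Cp.ceq (Cp.add hm hi) hg) hx
  have h2 := Computable.nat_rec (f := fun q : (ℕ × List ℕ) × ℕ => q.2) (g := fun _ => cneg 0)
    (h := fun (q : (ℕ × List ℕ) × ℕ) (p : ℕ × ℕ) =>
      cand (ceq (rm q.1.1 q.1.2 + p.1) (q.1.2.getD p.1 0)) p.2)
    Computable.snd (Computable.const (cneg 0)) h1.to₂
  refine h2.of_eq fun q => ?_
  rw [rc1]

private theorem rc2_cp' : Computable fun q : ℕ × ℕ => rc2 q.1 q.2 := by
  have hm : Computable fun p : (ℕ × ℕ) × (ℕ × ℕ) => p.1.1 := Computable.fst.comp Computable.fst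
  have hi : Computable fun p : (ℕ × ℕ) × (ℕ × ℕ) => p.2.1 := Computable.fst.comp Computable.snd
  have hx : Computable fun p : (ℕ × ℕ) × (ℕ × ℕ) => p.2.2 := Computable.snd.comp Computable.snd
  have h1 : Computable fun p : (ℕ × ℕ) × (ℕ × ℕ) => cand (ceq p.2.1 (p.1.1 + p.2.1)) p.2.2 :=
    Cp.cand (Cp.ceq hi (Cp.add hm hi)) hx
  have h2 := Computable.nat_rec (f := fun q : ℕ × ℕ => q.2) (g := fun _ => cneg 0)
    (h := fun (q : ℕ × ℕ) (p : ℕ × ℕ) => cand (ceq p.1 (q.1 + p.1)) p.2)
    Computable.snd (Computable.const (cneg 0)) h1.to₂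
  refine h2.of_eq fun q => ?_
  rw [rc2]

private theorem rnn_cp : Computable fun p : ℕ × List ℕ => rnn p.1 p.2 := by
  have h1 : Computable fun p : ℕ × List ℕ => p.1 := Computable.fst
  have h2 : Computable fun p : ℕ × List ℕ => p.1 + 1 := Cp.add h1 (Cp.const 1)
  have h3 : Computable fun p : ℕ × List ℕ => rc1 p.1 p.2 (p.1 + 1) :=
    Computable.comp (f := fun q : (ℕ × List ℕ) × ℕ => rc1 q.1.1 q.1.2 q.2)
      (g := fun p : ℕ × List ℕ => (p, p.1 + 1)) rc1_cp' (Computable.pair Computable.id h2)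
  have h4 : Computable fun p : ℕ × List ℕ => rc2 (rm p.1 p.2) (p.1 + 1) :=
    Computable.comp (f := fun q : ℕ × ℕ => rc2 q.1 q.2)
      (g := fun p : ℕ × List ℕ => (rm p.1 p.2, p.1 + 1)) rc2_cp' (Computable.pair rm_cp h2)
  have h5 : Computable fun p : ℕ × List ℕ => exB 0 (p.1 + 1)
      (cand (rc2 (rm p.1 p.2) (p.1 + 1)) p.1) :=
    Cp.exB (f := fun _ => 0) (g := fun p : ℕ × List ℕ => p.1 + 1)
      (h := fun p : ℕ × List ℕ => cand (rc2 (rm p.1 p.2) (p.1 + 1)) p.1)
      (Computable.const 0) h2 (Cp.cand h4 h1)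
  have h6 : Computable fun p : ℕ × List ℕ => cand (rc1 p.1 p.2 (p.1 + 1))
      (exB 0 (p.1 + 1) (cand (rc2 (rm p.1 p.2) (p.1 + 1)) p.1)) := Cp.cand h3 h5
  exact Cp.exB (f := fun p : ℕ × List ℕ => rm p.1 p.2)
    (g := fun p : ℕ × List ℕ => rm p.1 p.2 + (p.1 + 1))
    (h := fun p : ℕ × List ℕ => cand (rc1 p.1 p.2 (p.1 + 1))
      (exB 0 (p.1 + 1) (cand (rc2 (rm p.1 p.2) (p.1 + 1)) p.1))) rm_cp (Cp.add rm_cp h2) h6

section

variable {L : FirstOrder.Language.{0, 0}} [Encodable (Σ n, L.Functions n)]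
  [Encodable (Σ n, L.Relations n)]

private theorem tr_rc1 {A : Type} (S : L.Structure A) (n : ℕ) (a : List ℕ) (k : ℕ) (w : ℕ → A) :
    Tr S (rc1 n a k) w ↔ ∀ i < k, w (rm n a + i) = w (a.getD i 0) := by
  induction k with
  | zero =>
    refine ⟨fun _ i hi => absurd hi (Nat.not_lt_zero i), fun _ => ?_⟩
    show Tr S (cneg 0) w
    rw [tr_neg]
    exact tr_zero S w
  | succ k ih =>
    have e : rc1 n a (k + 1) = cand (ceq (rm n a + k) (a.getD k 0)) (rc1 n a k) := rfl
    rw [e, tr_and, tr_eq, ih]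
    constructor
    · rintro ⟨h1, h2⟩ i hi
      rcases Nat.lt_succ_iff_lt_or_eq.1 hi with h3 | rfl
      · exact h2 i h3
      · exact h1
    · intro h
      exact ⟨h k (Nat.lt_succ_self k), fun i hi => h i (Nat.lt_succ_of_lt hi)⟩

private theorem tr_rc2 {A : Type} (S : L.Structure A) (m k : ℕ) (w : ℕ → A) :
    Tr S (rc2 m k) w ↔ ∀ i < k, w i = w (m + i) := by
  induction k with
  | zero =>
    refine ⟨fun _ i hi => absurd hi (Nat.not_lt_zero i), fun _ => ?_⟩
    show Tr S (cneg 0) w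
    rw [tr_neg]
    exact tr_zero S w
  | succ k ih =>
    have e : rc2 m (k + 1) = cand (ceq k (m + k)) (rc2 m k) := rfl
    rw [e, tr_and, tr_eq, ih]
    constructor
    · rintro ⟨h1, h2⟩ i hi
      rcases Nat.lt_succ_iff_lt_or_eq.1 hi with h3 | rfl
      · exact h2 i h3
      · exact h1
    · intro h
      exact ⟨h k (Nat.lt_succ_self k), fun i hi => h i (Nat.lt_succ_of_lt hi)⟩

private theorem tr_rnn {A : Type} (S : L.Structure A) (n : ℕ) (a : List ℕ) (w : ℕ → A) :
    Tr S (rnn n a) w ↔ Tr S n fun i => w (a.getD i 0) := by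
  have hm : n + 1 < rm n a := by
    unfold rm
    omega
  have ha : ∀ i, a.getD i 0 < rm n a := by
    intro i
    have := le_encode a i
    unfold rm
    omega
  unfold rnn
  generalize hM : rm n a = m at hm ha
  rw [tr_exB]
  constructor
  · rintro ⟨w1, h1, h2⟩
    rw [tr_and, tr_rc1, tr_exB, hM] at h2
    obtain ⟨h2, w2, h3, h4⟩ := h2
    rw [tr_and, tr_rc2] at h4
    obtain ⟨h4, h5⟩ := h4
    refine (tr_congr S n _ _ fun i hi => ?_).1 h5
    rw [h4 i (by omega), h3 (m + i) (by omega), h2 i (by omega), h1 _ ?_]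
    have := ha i
    omega
  · intro h
    refine ⟨fun j => if m ≤ j ∧ j < m + (n + 1) then w (a.getD (j - m) 0) else w j, ?_, ?_⟩
    · intro i hi
      simp only [hi, if_false]
    · have hold : ∀ j, j < m → (if m ≤ j ∧ j < m + (n + 1) then w (a.getD (j - m) 0) else w j) =
          w j := fun j hj => if_neg (by omega)
      have hnew : ∀ i, i < n + 1 → (if m ≤ m + i ∧ m + i < m + (n + 1) then
          w (a.getD (m + i - m) 0) else w (m + i)) = w (a.getD i 0) := by
        intro i hi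
        rw [if_pos (by omega), Nat.add_sub_cancel_left]
      rw [tr_and, tr_rc1, tr_exB, hM]
      refine ⟨fun i hi => ?_, fun i => if i < n + 1 then w (a.getD i 0) else
        (if m ≤ i ∧ i < m + (n + 1) then w (a.getD (i - m) 0) else w i), ?_, ?_⟩
      · show (if m ≤ m + i ∧ m + i < m + (n + 1) then w (a.getD (m + i - m) 0) else w (m + i)) =
          (if m ≤ a.getD i 0 ∧ a.getD i 0 < m + (n + 1) then w (a.getD (a.getD i 0 - m) 0)
            else w (a.getD i 0))
        rw [hnew i hi, hold _ (ha i)]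
      · intro i hi
        show (if i < n + 1 then w (a.getD i 0) else
          (if m ≤ i ∧ i < m + (n + 1) then w (a.getD (i - m) 0) else w i)) = _
        rw [if_neg (by omega)]
      · rw [tr_and, tr_rc2]
        refine ⟨fun i hi => ?_, ?_⟩
        · show (if i < n + 1 then w (a.getD i 0) else
            (if m ≤ i ∧ i < m + (n + 1) then w (a.getD (i - m) 0) else w i)) =
            (if m + i < n + 1 then w (a.getD (m + i) 0) else
            (if m ≤ m + i ∧ m + i < m + (n + 1) then w (a.getD (m + i - m) 0) else w (m + i)))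
          rw [if_pos hi, if_neg (by omega), hnew i hi]
        · refine (tr_congr S n _ _ fun i hi => ?_).1 h
          exact (if_pos (by omega)).symm

end

/-- a number of the formula `n` with the variable `v_i` replaced by `v_(a_i)` -/
theorem exists_rn : ∃ rn : ℕ → List ℕ → ℕ, (Computable fun p : ℕ × List ℕ => rn p.1 p.2) ∧
    ∀ (L : FirstOrder.Language.{0, 0}) [Encodable (Σ n, L.Functions n)]
      [Encodable (Σ n, L.Relations n)] (A : Type) (S : L.Structure A) (n : ℕ) (a : List ℕ)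
      (w : ℕ → A), Tr S (rn n a) w ↔ Tr S n fun i => w (a.getD i 0) :=
  ⟨rnn, rnn_cp, fun _ _ _ _ S n a w => tr_rnn S n a w⟩

variable {L : FirstOrder.Language.{0, 0}}
variable [Encodable (Σ n, L.Functions n)] [Encodable (Σ n, L.Relations n)]

/-- renaming, semantic form -/
theorem exists_ren (n : ℕ) (p : ℕ → ℕ) : ∃ n' : ℕ, ∀ (A : Type) (S : L.Structure A) (w : ℕ → A),
    Tr S n' w ↔ Tr S n fun i => w (p i) := by
  refine ⟨rnn n ((List.range (n + 1)).map p), fun A S w => ?_⟩
  rw [tr_rnn]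
  refine tr_congr S n _ _ fun i hi => ?_
  congr 1
  rw [List.getD_eq_getElem?_getD, List.getElem?_map, List.getElem?_range (by omega)]
  rfl

private def rl (n c : ℕ) : List ℕ := (List.range (n + 1)).map (ent c)

private theorem rl_cp : Computable fun p : ℕ × ℕ => rl p.1 p.2 := by
  have h1 : Primrec fun p : ℕ × ℕ => List.range (p.1 + 1) :=
    Primrec.list_range.comp (Primrec.succ.comp Primrec.fst)
  have h2 : Primrec₂ fun (p : ℕ × ℕ) (i : ℕ) => ent p.2 i :=
    ent_prim.comp₂ (Primrec.snd.comp Primrec.fst).to₂ Primrec.snd.to₂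
  exact (Primrec.list_map h1 h2).to_comp

private theorem tr_rl {A : Type} (S : L.Structure A) (n c : ℕ) (f : ℕ → A) :
    Tr S n (fun i => f ((rl n c).getD i 0)) ↔ Tr S n fun i => f (ent c i) := by
  refine tr_congr S n _ _ fun i hi => ?_
  congr 1
  rw [rl, List.getD_eq_getElem?_getD, List.getElem?_map, List.getElem?_range (by omega)]
  rfl

theorem decid_tr {S : L.Structure ℕ} (h : Decid S) :
    ComputablePred fun p : ℕ × ℕ => Tr S p.1 (ent p.2) := by
  obtain ⟨f, hf, h1⟩ := cp_iff.1 h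
  refine cp_iff.2 ⟨fun p => f (p.1, rl p.1 p.2), hf.comp (Computable.pair Computable.fst rl_cp),
    fun p => ?_⟩
  rw [← h1 (p.1, rl p.1 p.2)]
  exact (tr_rl S p.1 p.2 fun x => x).symm

theorem udecid_tr {M : ℕ → L.Structure ℕ} (h : UDecid M) :
    ComputablePred fun p : ℕ × ℕ × ℕ => Tr (M p.1) p.2.1 (ent p.2.2) := by
  obtain ⟨f, hf, h1⟩ := cp_iff.1 h
  refine cp_iff.2 ⟨fun p => f (p.1, p.2.1, rl p.2.1 p.2.2), hf.comp (Computable.pair Computable.fst
    (Computable.pair (Computable.fst.comp Computable.snd) (rl_cp.comp Computable.snd))), fun p => ?_⟩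
  rw [← h1 (p.1, p.2.1, rl p.2.1 p.2.2)]
  exact (tr_rl (M p.1) p.2.1 p.2.2 fun x => x).symm

theorem decid_of_id {S : L.Structure ℕ} (h : ComputablePred fun n : ℕ => Tr S n fun i => i) :
    Decid S := by
  obtain ⟨f, hf, h1⟩ := cp_iff.1 h
  refine cp_iff.2 ⟨fun p => f (rnn p.1 p.2), hf.comp rnn_cp, fun p => ?_⟩
  rw [← h1 (rnn p.1 p.2), tr_rnn]
  exact Iff.rfl

end Pool.Agent.DP
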