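import Pool.Agent.DP.Los
import Pool.Agent.DP.Ren

set_option autoImplicit false

/-!
# A structure with a given elementary diagram

Plan. exists_limit with `w s` from hfin (`s`) gives `S'` on `C'` and `e : ℕ → C'` with
`Tr S' n e ↔ D n` for all `n` (use cneg for the direction from left to right). `e` is injective by
hinj and tr_eq. For a function symbol `f` and a tuple `x` of numbers there is `j` with
`e j = f(e (x 0), ...)`: apply hex to a number of the formula `v_k = f(v_(x 0), ...)` with `k`
larger than all `x i` (fm_surj), which is true at `Function.update e k _`, so `D (cex k n)` (tr_ex).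
Define `N` on ℕ: `funMap f x` = this `j`, `RelMap R x` iff `RelMap R (e ∘ x)` in `S'`. Then
`e (t.realize x) = t.realize (e ∘ x)` for terms, and by induction on `φ`:
`Sat N φ w ↔ Sat S' φ (fun i => e (w i))`, for all `w : ℕ → ℕ`. Case `all i φ`, direction from left to right: if
`φ` fails at `Function.update (e ∘ w) i m` for some `m : C'`, let `n` be a number of `¬ φ`, `n1` a number of
`n` renamed by `w` except that `v_i` is renamed to a fresh variable `v_k` (exists_ren; `k` larger
than all relevant `w i`), so `Tr S' (cex k n1) e`, `D (cex k n1)`, and hex gives `j` such that `φ`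
fails at `Function.update (e ∘ w) i (e j)`.
-/

open FirstOrder FirstOrder.Language

namespace Pool.Agent.DP

variable {L : FirstOrder.Language.{0, 0}}
variable [Encodable (Σ n, L.Functions n)] [Encodable (Σ n, L.Relations n)]

/-- a number of the formula `n` with the variable `v_i` replaced by `v_j` -/
def sb (i j n : ℕ) : ℕ := bif decide (i = j) then n else cex i (cand (ceq i j) n)

theorem tr_sb {A : Type} (S : L.Structure A) (i j n : ℕ) (w : ℕ → A) :
    Tr S (sb i j n) w ↔ Tr S n (Function.update w i (w j)) := by
  unfold sb
  by_cases hij : i = j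
  · subst hij
    rw [decide_eq_true rfl, cond_true, Function.update_eq_self]
  · rw [decide_eq_false hij, cond_false, tr_ex]
    constructor
    · rintro ⟨x, hx⟩
      rw [tr_and, tr_eq, Function.update_self, Function.update_of_ne (fun h => hij h.symm)] at hx
      obtain ⟨rfl, h⟩ := hx
      exact h
    · intro h
      refine ⟨w j, ?_⟩
      rw [tr_and, tr_eq, Function.update_self, Function.update_of_ne (fun h => hij h.symm)]
      exact ⟨rfl, h⟩

omit [Encodable (Σ n, L.Functions n)] [Encodable (Σ n, L.Relations n)] in
/-- a substructure given by an injective enumeration is elementary if it passes the test -/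
private theorem sat_sub {C' : Type} (S' : L.Structure C') (e : ℕ → C') (he : Function.Injective e)
    (N : L.Structure ℕ)
    (hfun : ∀ (m : ℕ) (f : L.Functions m) (x : Fin m → ℕ),
      e (N.funMap f x) = S'.funMap f fun i => e (x i))
    (hrel : ∀ (m : ℕ) (R : L.Relations m) (x : Fin m → ℕ),
      N.RelMap R x ↔ S'.RelMap R fun i => e (x i))
    (hex : ∀ (i : ℕ) (φ : Fm L) (w : ℕ → ℕ) (x : C'),
      Sat S' φ (Function.update (fun k => e (w k)) i x) →
      ∃ j, Sat S' φ (Function.update (fun k => e (w k)) i (e j)))
    (φ : Fm L) (w : ℕ → ℕ) : Sat N φ w ↔ Sat S' φ fun i => e (w i) := by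
  have ht : ∀ (t : L.Term ℕ) (w : ℕ → ℕ), e (t.realize w) = t.realize fun i => e (w i) := by
    intro t w
    induction t with
    | var i => rfl
    | func f ts ih =>
      simp only [Term.realize_func]
      refine (hfun _ f _).trans ?_
      have h1 : (fun i => e ((ts i).realize w)) = fun i => (ts i).realize fun i => e (w i) :=
        funext fun i => ih i
      rw [h1]
  induction φ generalizing w with
  | bot => exact Iff.rfl
  | eq t u =>
    simp only [Sat]
    rw [← ht, ← ht]
    exact he.eq_iff.symm
  | rel R ts =>
    simp only [Sat]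
    refine (hrel _ R _).trans ?_
    have h1 : (fun i => e ((ts i).realize w)) = fun i => (ts i).realize fun i => e (w i) :=
      funext fun i => ht (ts i) w
    rw [h1]
  | imp φ ψ ih1 ih2 => exact imp_congr (ih1 w) (ih2 w)
  | all i φ ih =>
    simp only [Sat]
    have e1 : ∀ a, (fun k => e (Function.update w i a k)) =
        Function.update (fun k => e (w k)) i (e a) := by
      intro a
      funext k
      by_cases hk : k = i
      · subst hk
        rw [Function.update_self, Function.update_self]
      · rw [Function.update_of_ne hk, Function.update_of_ne hk]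
    constructor
    · intro h x
      by_contra hx
      obtain ⟨j, hj⟩ := hex i (φ.imp .bot) w x (fun h1 => absurd h1 hx)
      refine hj ?_
      have h2 := (ih (Function.update w i j)).1 (h j)
      rw [e1] at h2
      exact h2
    · intro h a
      refine (ih _).2 ?_
      rw [e1]
      exact h (e a)

private theorem ex_bound (n : ℕ) (w : ℕ → ℕ) : ∃ k, ∀ l ≤ n, w l < k := by
  induction n with
  | zero =>
    exact ⟨w 0 + 1, fun l hl => by
      have : l = 0 := by omega
      rw [this]
      exact Nat.lt_succ_self _⟩
  | succ n ih =>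
    obtain ⟨k, hk⟩ := ih
    refine ⟨max k (w (n + 1) + 1), fun l hl => ?_⟩
    rcases Nat.lt_or_ge n l with h | h
    · have : l = n + 1 := by omega
      rw [this]
      exact lt_of_lt_of_le (Nat.lt_succ_self _) (le_max_right _ _)
    · exact lt_of_lt_of_le (hk l h) (le_max_left _ _)

/-- a finitely satisfiable complete diagram with witnesses is the diagram of a structure on `ℕ` -/
theorem model_of_diagram {C : Type} (S : L.Structure C) (D : ℕ → Prop)
    (hfin : ∀ s, ∃ w : ℕ → C, ∀ n < s, (Tr S n w ↔ D n)) (hinj : ∀ i j, D (ceq i j) → i = j)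
    (hex : ∀ i n, D (cex i n) → ∃ j, D (sb i j n)) :
    ∃ N : L.Structure ℕ, ∀ n, Tr N n (fun i => i) ↔ D n := by
  classical
  choose w hw using hfin
  obtain ⟨C', S', -, e, -, hlim, -⟩ := exists_limit S w
  have hD : ∀ n, Tr S' n e ↔ D n := by
    intro n
    constructor
    · intro h
      by_contra hn
      have h1 : ∀ᶠ s in Filter.atTop, Sat S (fm (cneg n)) (w s) := by
        refine Filter.eventually_atTop.2 ⟨n + 1, fun s hs => ?_⟩
        refine (tr_neg S n (w s)).2 fun h2 => hn ((hw s n hs).1 h2)
      exact (tr_neg S' n e).1 (hlim _ h1) h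
    · intro h
      refine hlim _ (Filter.eventually_atTop.2 ⟨n + 1, fun s hs => ?_⟩)
      exact (hw s n hs).2 h
  have he : Function.Injective e := fun i j hij =>
    hinj i j ((hD _).1 ((tr_eq S' i j e).2 hij))
  have hj : ∀ i n, Tr S' (cex i n) e → ∃ j, Tr S' n (Function.update e i (e j)) := by
    intro i n h
    obtain ⟨j, hj⟩ := hex i n ((hD _).1 h)
    exact ⟨j, (tr_sb S' i j n e).1 ((hD _).2 hj)⟩
  have hfun : ∀ (m : ℕ) (f : L.Functions m) (x : Fin m → ℕ),
      ∃ j, e j = S'.funMap f fun i => e (x i) := by
    intro m f x
    obtain ⟨k, hk⟩ : ∃ k, ∀ i, x i < k := by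
      obtain ⟨k, hk⟩ := (Set.finite_range x).bddAbove
      exact ⟨k + 1, fun i => Nat.lt_succ_of_le (hk ⟨i, rfl⟩)⟩
    obtain ⟨n, hn⟩ := fm_surj (L := L) (.eq (.var k) (.func f fun i => .var (x i)))
    have key : ∀ y : C', Tr S' n (Function.update e k y) ↔
        y = S'.funMap f fun i => e (x i) := by
      intro y
      unfold Tr
      rw [hn]
      simp only [Sat, Term.realize_var, Term.realize_func, Function.update_self]
      have h1 : (fun i => Function.update e k y (x i)) = fun i => e (x i) := by
        funext i
        exact Function.update_of_ne (Nat.ne_of_lt (hk i)) _ _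
      rw [h1]
    obtain ⟨j, h⟩ := hj k n ((tr_ex S' k n e).2 ⟨_, (key _).2 rfl⟩)
    exact ⟨j, (key _).1 h⟩
  choose F hF using hfun
  refine ⟨{ funMap := fun {m} f x => F m f x
            RelMap := fun {m} R x => S'.RelMap R fun i => e (x i) }, fun n => ?_⟩
  refine Iff.trans ?_ (hD n)
  refine sat_sub S' e he _ (fun m f x => hF m f x) (fun m R x => Iff.rfl) ?_ (fm n) fun i => i
  intro i φ v x hx
  obtain ⟨a, rfl⟩ := fm_surj φ
  obtain ⟨k, hk⟩ := ex_bound a v
  obtain ⟨a', ha'⟩ := exists_ren (L := L) a fun l => if l = i then k else v l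
  have key : ∀ y : C', Tr S' a' (Function.update e k y) ↔
      Tr S' a (Function.update (fun l => e (v l)) i y) := by
    intro y
    rw [ha']
    refine tr_congr S' a _ _ fun l hl => ?_
    by_cases hli : l = i
    · subst hli
      rw [if_pos rfl, Function.update_self, Function.update_self]
    · rw [if_neg hli, Function.update_of_ne (Nat.ne_of_lt (hk l hl)), Function.update_of_ne hli]
  obtain ⟨j, h⟩ := hj k a' ((tr_ex S' k a' e).2 ⟨x, (key x).2 hx⟩)
  exact ⟨j, (key _).1 h⟩

end Pool.Agent.DP
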