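import Pool.Agent.DP.Defs

set_option autoImplicit false

/-!
# Definitions for the construction
-/

open FirstOrder FirstOrder.Language

namespace Pool.Agent.DP

/-! ## Numbers of formulas -/

/-- the number of `φ → ψ` -/
def cimp (a b : ℕ) : ℕ := Nat.pair 1 (Nat.pair a b) + 1

/-- the number of `∀ v_i φ` -/
def call (i a : ℕ) : ℕ := Nat.pair 2 (Nat.pair i a) + 1

/-- the number of `v_i = v_j` -/
def ceq (i j : ℕ) : ℕ := Nat.pair 0 (Nat.pair (Nat.pair 0 i + 1) (Nat.pair 0 j + 1)) + 1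

def cneg (a : ℕ) : ℕ := cimp a 0

def cand (a b : ℕ) : ℕ := cneg (cimp a (cneg b))

def cex (i a : ℕ) : ℕ := cneg (call i (cneg a))

/-- quantify existentially all `v_i` with `b ≤ i < l` -/
def exB (b l a : ℕ) : ℕ :=
  Nat.rec (motive := fun _ => ℕ) a (fun i x => bif decide (b ≤ i) then cex i x else x) l

/-- quantify existentially all variables of `a` from `v_l` on -/
def trunc (l a : ℕ) : ℕ := exB l (a + 1) a

/-! ## Bounded tuples -/

/-- the computation of the program `e` at `i` stops within `s` steps -/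
def cvg (e s i : ℕ) : Bool :=
  (Nat.Partrec.Code.evaln s (Denumerable.ofNat Nat.Partrec.Code e) i).isSome

/-- the result of this computation -/
def bd (e s i : ℕ) : ℕ :=
  (Nat.Partrec.Code.evaln s (Denumerable.ofNat Nat.Partrec.Code e) i).getD 0

def bsum (e s b : ℕ) : ℕ := Nat.rec (motive := fun _ => ℕ) 0 (fun i x => x + bd e s i) b

def Gb (m b : ℕ) : ℕ := Nat.rec (motive := fun _ => ℕ) 0 (fun _ x => Nat.pair m x) b

/-- a bound for the codes of bounded tuples -/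
def Bx (e s b : ℕ) : ℕ := Gb (bsum e s b) b + 1

/-- the length of the part of `σ` which is preserved by the requirement `r` -/
def hgt (r σ l : ℕ) : ℕ :=
  Nat.rec (motive := fun _ => ℕ) 0
    (fun a x => bif decide (a < r) || decide (ent σ a < r) then a + 1 else x) l

def Blk (e s r σ b : ℕ) : Prop :=
  b < s + 2 ∧ (∀ i < b, cvg e s i = true) ∧ hgt r σ (s + 1) ≤ b

def Box (e s b y : ℕ) : Prop := ∀ i < b, ent y i ≤ bd e s i

def Agr (h y t : ℕ) : Prop := ∀ i < h, ent y i = ent t i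

section

variable {L : FirstOrder.Language.{0, 0}}
variable [Encodable (Σ n, L.Functions n)] [Encodable (Σ n, L.Relations n)]

/-- the formula with number `n` is true in `S` at `w` -/
def Tr {A : Type} (S : L.Structure A) (n : ℕ) (w : ℕ → A) : Prop := Sat S (fm n) w

/-- the formula with number `n` depends only on the variables `v_i`, `i < l` -/
def Dep (L : FirstOrder.Language.{0, 0}) [Encodable (Σ n, L.Functions n)]
    [Encodable (Σ n, L.Relations n)] (l n : ℕ) : Prop :=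
  ∀ (S : L.Structure ℕ) (w w' : ℕ → ℕ), (∀ i < l, w i = w' i) → (Tr S n w ↔ Tr S n w')

variable (M : L.Structure ℕ) (Q : ℕ → L.Structure ℕ)

/-- no bounded tuple which agrees with `t` satisfies `∃ v_b ... d` in `Q j` -/
def Dead (e j s h b t l d : ℕ) : Prop :=
  ∀ y < Bx e s b, Box e s b y → Agr h y t → ¬ Tr (Q j) (exB b l d) (ent y)

def Killed (e j s r σ t d : ℕ) : Prop :=
  ∃ b < s + 2, Blk e s r σ b ∧ Dead Q e j s (hgt r σ (s + 1)) b t (s + 1) d

/-- the requirement `r` objects to the formula `d'` -/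
def Obj (s d σ d' r : ℕ) : Prop :=
  ∃ b < s + 2, Blk r.unpair.1 s r σ b ∧ ∃ t < Bx r.unpair.1 s b, Box r.unpair.1 s b t ∧
    ¬ Killed Q r.unpair.1 r.unpair.2 s r σ t d ∧
    (∀ y < Bx r.unpair.1 s b, Box r.unpair.1 s b y → Agr (hgt r σ (s + 1)) y t →
      Tr (Q r.unpair.2) (exB b (s + 1) d) (ent y) →
        Tr (Q r.unpair.2) (exB b (s + 2) d') (ent y)) ∧
    Tr M (exB (hgt r σ (s + 1)) (s + 1) (cand d (cneg (exB b (s + 2) d')))) (ent σ)

/-- the requirement `r` makes progress -/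
def Kill (s d σ d' r : ℕ) : Prop :=
  ∃ b < s + 2, Blk r.unpair.1 s r σ b ∧ ∃ t < Bx r.unpair.1 s b, Box r.unpair.1 s b t ∧
    ¬ Killed Q r.unpair.1 r.unpair.2 s r σ t d ∧
    Dead Q r.unpair.1 r.unpair.2 s (hgt r σ (s + 1)) b t (s + 2) d'

/-- the new formula -/
def nx (s d α : ℕ) : ℕ := cand d (trunc (s + 2) α)

/-- one step of the construction -/
def Step (s d σ α σ' ρ : ℕ) : Prop :=
  ρ < s + 2 ∧ Tr M (nx s d α) (ent σ') ∧
  (∀ j < s + 2, ∀ i < j, ¬ Tr M (exB 0 (s + 2) (cand (nx s d α) (ceq i j))) (ent 0)) ∧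
  (¬ Tr M (exB 0 (s + 2) (cand (nx s d α) s)) (ent 0) ∨
    ¬ Tr M (exB 0 (s + 2) (cand (nx s d α) (cneg s))) (ent 0)) ∧
  (∀ i < hgt ρ σ (s + 1), ent σ' i = ent σ i) ∧
  (∀ y < ent σ' (s + 1), ∃ i < s + 1, ent σ' i = y) ∧
  (∀ r < ρ, ¬ Obj M Q s d σ (nx s d α) r) ∧
  (ρ = s + 1 ∨ Kill Q s d σ (nx s d α) ρ)

/-- a state at stage `s` -/
def Valid (s d σ : ℕ) : Prop :=
  Tr M d (ent σ) ∧ ∀ j < s + 1, ∀ i < j, ¬ Tr M (exB 0 (s + 1) (cand d (ceq i j))) (ent 0)

/-- a run of the construction -/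
structure Run (δ σ α ρ : ℕ → ℕ) : Prop where
  comp : Computable σ
  dep : ∀ s, Dep L (s + 1) (δ s)
  valid : ∀ s, Valid M s (δ s) (σ s)
  step : ∀ s, Step M Q s (δ s) (σ s) (α s) (σ (s + 1)) (ρ s)
  nxt : ∀ (s : ℕ) (S : L.Structure ℕ) (w : ℕ → ℕ), Tr S (δ (s + 1)) w ↔ Tr S (nx s (δ s) (α s)) w

end

end Pool.Agent.DP
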