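import Pool.Agent.DP.Codes

set_option autoImplicit false

/-!
# Isomorphisms
-/

open FirstOrder FirstOrder.Language

namespace Pool.Agent.DP

variable {L : FirstOrder.Language.{0, 0}}

theorem iso_refl {A : Type} (S : L.Structure A) : Iso S S :=
  ⟨id, FirstOrder.Language.Equiv.refl L A, fun _ => rfl⟩

theorem isIso_symm {A B : Type} {S : L.Structure A} {T : L.Structure B} {g : A → B}
    (h : IsIso S T g) : ∃ g' : B → A, IsIso T S g' ∧ (∀ b, g (g' b) = b) ∧ ∀ a, g' (g a) = a := by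
  obtain ⟨e, he⟩ := h
  refine ⟨e.symm, ⟨e.symm, fun _ => rfl⟩, fun b => ?_, fun a => ?_⟩
  · rw [← he]
    exact e.apply_symm_apply b
  · rw [← he]
    exact e.symm_apply_apply a

theorem iso_symm {A B : Type} {S : L.Structure A} {T : L.Structure B} (h : Iso S T) :
    Iso T S := by
  obtain ⟨g, h⟩ := h
  obtain ⟨g', h', _⟩ := isIso_symm h
  exact ⟨g', h'⟩

theorem iso_trans {A B C : Type} {S : L.Structure A} {T : L.Structure B} {U : L.Structure C}
    (h : Iso S T) (h' : Iso T U) : Iso S U := by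
  obtain ⟨g, e, he⟩ := h
  obtain ⟨g', e', he'⟩ := h'
  exact ⟨e'.comp e, e'.comp e, fun _ => rfl⟩

theorem atomicOver_iso {A B : Type} {S : L.Structure A} {T : L.Structure B}
    (h : Iso S T) {k : ℕ} {w : ℕ → B} (hw : AtomicOver T k w) :
    ∃ u : ℕ → A, AtomicOver S k u := by
  obtain ⟨g, hg⟩ := h
  obtain ⟨g', hg', h1, h2⟩ := isIso_symm hg
  refine ⟨fun i => g' (w i), fun m u hu => ?_⟩
  have key : ∀ v : ℕ → A, (∀ i < k, v i = g' (w i)) → ∀ i < k, g (v i) = w i := by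
    intro v hv i hi
    rw [hv i hi, h1]
  obtain ⟨χ, hχ, hs, hall⟩ := hw m (fun i => g (u i)) (key u hu)
  refine ⟨χ, hχ, (sat_iso hg χ u).2 hs, fun φ hφ hsφ u' hu' hs' => ?_⟩
  exact (sat_iso hg φ u').2 (hall φ hφ ((sat_iso hg φ u).1 hsφ) _ (key u' hu')
    ((sat_iso hg χ u').1 hs'))

theorem elem_of_isIso {A B : Type} {S : L.Structure A} {T : L.Structure B} {g : A → B}
    (h : IsIso S T g) : Elem S T g := fun φ w => sat_iso h φ w

/-- the structure `N` for which `f : N → M` is an isomorphism -/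
theorem exists_pull (M : L.Structure ℕ) (f : ℕ ≃ ℕ) : ∃ N : L.Structure ℕ, Iso M N ∧
    ∀ (φ : Fm L) (w : ℕ → ℕ), Sat N φ w ↔ Sat M φ fun i => f (w i) := by
  let N : L.Structure ℕ := @Equiv.inducedStructure L ℕ ℕ M f.symm
  have h1 : IsIso M N f.symm :=
    ⟨@Equiv.inducedStructureEquiv L ℕ ℕ M f.symm, fun _ => rfl⟩
  obtain ⟨g', hg', h2, h3⟩ := isIso_symm h1
  have h4 : g' = f := by
    funext a
    have := h3 (f a)
    rwa [Equiv.symm_apply_apply] at this
  subst h4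
  exact ⟨N, ⟨_, h1⟩, fun φ w => sat_iso hg' φ w⟩

end Pool.Agent.DP
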