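import Pool.Agent.DP.Ren

set_option autoImplicit false

/-!
# Non-isolated types of blocks

Plan: `hna` gives `m`, `u` with `u i = f i` for `i < h` such that no `χ` works; `m ≤ h` is impossible (then a true formula works, sat_congr). Choose `p : ℕ → ℕ` with
`f (p i) = u i` and `p i = i` for `i < h`; `b` larger than `h` and all `p i`, `i < m`. Suppose `c` (Dep b, true at `f`) is such that every `n` with Dep b, true at `f`,
is true at every `u'` which satisfies `c` and agrees with `f` below `h`. Let `χ` say of `v_0 ... v_(m-1)`: there are `x_0 ... x_(b-1)` with `c(x)` and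
`x_(p i) = v_i` for `i < m` (use variables `x_i = v_(m+i)`, exists_ren, exB m (m+b), a finite conjunction of `ceq i (m + p i)`), made syntactic with exists_fm. Then `χ`
is true at `u`; if `φ` (fv in `Iio m`) is true at `u` then `φ*` = `φ` renamed by `p` (exists_ren, fm_surj) is true at `f` and Dep b, so it is true at each `x` that satisfies
`c` and agrees with `f` below `h`; hence `φ` is true at each `u'` with `χ`. Contradiction.
-/

open FirstOrder FirstOrder.Language

namespace Pool.Agent.DP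

variable {L : FirstOrder.Language.{0, 0}}
variable [Encodable (Σ n, L.Functions n)] [Encodable (Σ n, L.Relations n)]

private theorem exists_conj (a b : ℕ → ℕ) (j : ℕ) : ∃ k : ℕ, ∀ (S : L.Structure ℕ) (w : ℕ → ℕ),
    Tr S k w ↔ ∀ i < j, w (a i) = w (b i) := by
  induction j with
  | zero =>
    refine ⟨cneg 0, fun S w => ?_⟩
    rw [tr_neg]
    exact ⟨fun _ i hi => absurd hi (Nat.not_lt_zero i), fun _ => tr_zero S w⟩
  | succ j ih =>
    obtain ⟨k, hk⟩ := ih
    refine ⟨cand k (ceq (a j) (b j)), fun S w => ?_⟩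
    rw [tr_and, hk, tr_eq]
    constructor
    · rintro ⟨h1, h2⟩ i hi
      rcases Nat.lt_succ_iff_lt_or_eq.1 hi with h | rfl
      · exact h1 i h
      · exact h2
    · intro h
      exact ⟨fun i hi => h i (Nat.lt_succ_of_lt hi), h j (Nat.lt_succ_self j)⟩

private theorem exists_chi {b m c : ℕ} (p : ℕ → ℕ) (hp : ∀ i < m, p i < b) (hc : Dep L b c) :
    ∃ k : ℕ, ∀ (S : L.Structure ℕ) (w : ℕ → ℕ),
      Tr S k w ↔ ∃ x : ℕ → ℕ, Tr S c x ∧ ∀ i < m, x (p i) = w i := by
  obtain ⟨c', hc'⟩ := exists_ren (L := L) c (fun i => m + i)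
  obtain ⟨q, hq⟩ := exists_conj (L := L) (fun i => i) (fun i => m + p i) m
  refine ⟨exB m (m + b) (cand c' q), fun S w => ?_⟩
  rw [tr_exB]
  constructor
  · rintro ⟨w1, h1, h2⟩
    rw [tr_and, hc', hq] at h2
    refine ⟨fun i => w1 (m + i), h2.1, fun i hi => ?_⟩
    have h3 := h2.2 i hi
    have h4 := h1 i (fun h => absurd hi (not_lt.2 h.1))
    exact h3.symm.trans h4
  · rintro ⟨x, h1, h2⟩
    refine ⟨fun i => if m ≤ i ∧ i < m + b then x (i - m) else w i, fun i hi => if_neg hi, ?_⟩
    rw [tr_and, hc', hq]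
    constructor
    · refine (hc S _ _ fun i hi => ?_).1 h1
      have h3 : m ≤ m + i ∧ m + i < m + b := ⟨Nat.le_add_right m i, by omega⟩
      simp only [if_pos h3]
      rw [Nat.add_sub_cancel_left]
    · intro i hi
      have h3 : m ≤ m + p i ∧ m + p i < m + b := ⟨Nat.le_add_right m _, by have := hp i hi; omega⟩
      have h4 : ¬ (m ≤ i ∧ i < m + b) := fun h => absurd hi (not_lt.2 h.1)
      simp only [if_pos h3, if_neg h4]
      rw [Nat.add_sub_cancel_left]
      exact (h2 i hi).symm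

theorem exists_block {M : L.Structure ℕ} {f : ℕ → ℕ} (hf : Function.Surjective f) {h : ℕ}
    (hna : ¬ AtomicOver M h f) : ∃ b ≥ h, ∀ c, Dep L b c → Tr M c f →
      ∃ n, Dep L b n ∧ Tr M n f ∧ ∃ u : ℕ → ℕ, (∀ i < h, u i = f i) ∧ Tr M c u ∧ ¬ Tr M n u := by
  by_contra hcon
  apply hna
  intro m u hu
  by_contra hiso
  -- the case of a short tuple
  have hm : h ≤ m := by
    by_contra hlt
    have hlt' : m < h := not_le.1 hlt
    apply hiso
    refine ⟨.imp .bot .bot, ?_, fun h => h, ?_⟩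
    · intro i hi
      simp [Fm.fv] at hi
    · intro φ hφ h1 u' hu' _
      refine (sat_congr M φ u u' fun i hi => ?_).1 h1
      have h2 : i < m := hφ hi
      rw [hu i (h2.trans hlt'), hu' i (h2.trans hlt')]
  choose g hg using hf
  let p : ℕ → ℕ := fun i => if i < h then i else g (u i)
  have hp1 : ∀ i < h, p i = i := fun i hi => if_pos hi
  have hp2 : ∀ i, f (p i) = u i := by
    intro i
    by_cases hi : i < h
    · rw [hp1 i hi, hu i hi]
    · have h1 : p i = g (u i) := if_neg hi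
      rw [h1, hg]
  obtain ⟨b, hb, hpb⟩ : ∃ b ≥ h, ∀ i < m, p i < b := by
    refine ⟨h + ∑ i ∈ Finset.range m, (p i + 1), Nat.le_add_right _ _, fun i hi => ?_⟩
    have h1 : p i + 1 ≤ ∑ i ∈ Finset.range m, (p i + 1) :=
      Finset.single_le_sum (f := fun i => p i + 1) (fun _ _ => Nat.zero_le _) (Finset.mem_range.2 hi)
    omega
  push Not at hcon
  obtain ⟨c, hc1, hc2, hc3⟩ := hcon b hb
  obtain ⟨k, hk⟩ := exists_chi (L := L) p hpb hc1
  obtain ⟨χ, hχ1, hχ2⟩ := exists_fm M m k (by
    intro w w' hw h1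
    rw [hk] at h1 ⊢
    obtain ⟨x, hx1, hx2⟩ := h1
    exact ⟨x, hx1, fun i hi => (hx2 i hi).trans (hw i hi)⟩)
  apply hiso
  refine ⟨χ, hχ1, ?_, ?_⟩
  · rw [hχ2, hk]
    exact ⟨f, hc2, fun i _ => hp2 i⟩
  · intro φ hφ h1 u' hu' h2
    rw [hχ2, hk] at h2
    obtain ⟨x, hx1, hx2⟩ := h2
    obtain ⟨n0, hn0⟩ := fm_surj φ
    obtain ⟨n1, hn1⟩ := exists_ren (L := L) n0 p
    have hd : Dep L b n1 := by
      intro S w w' hw
      rw [hn1, hn1]
      unfold Tr
      rw [hn0]
      exact sat_congr S φ _ _ fun i hi => hw _ (hpb i (hφ hi))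
    have ht : Tr M n1 f := by
      rw [hn1]
      unfold Tr
      rw [hn0]
      have h3 : (fun i => f (p i)) = u := funext hp2
      rw [h3]
      exact h1
    have hxf : ∀ i < h, x i = f i := by
      intro i hi
      have h3 := hx2 i (lt_of_lt_of_le hi hm)
      rw [hp1 i hi] at h3
      rw [h3, hu' i hi]
    have h4 := hc3 n1 hd ht x hxf hx1
    rw [hn1] at h4
    unfold Tr at h4
    rw [hn0] at h4
    exact (sat_congr M φ _ _ fun i hi => hx2 i (hφ hi)).1 h4

end Pool.Agent.DP
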