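import Pool.Agent.DP.Ren

set_option autoImplicit false

/-!
# The step relation is decidable

The relations Blk, Box, Agr, Dead, Killed, Obj, Kill, Step, Valid with parameters given by computable functions are
decidable, by the closure properties of computable predicates.
-/

open FirstOrder FirstOrder.Language

namespace Pool.Agent.DP

variable {L : FirstOrder.Language.{0, 0}}
variable [Encodable (Σ n, L.Functions n)] [Encodable (Σ n, L.Relations n)]

section

variable {α : Type} [Primcodable α]

private theorem tr1 {S : L.Structure ℕ} (hS : Decid S) {f g : α → ℕ} (hf : Computable f)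
    (hg : Computable g) : ComputablePred fun x => Tr S (f x) (ent (g x)) :=
  CP.comp (decid_tr hS) (f := fun x => (f x, g x)) (Cp.pair hf hg)

private theorem tr2 {Q : ℕ → L.Structure ℕ} (hQ : UDecid Q) {f g h : α → ℕ} (hf : Computable f)
    (hg : Computable g) (hh : Computable h) :
    ComputablePred fun x => Tr (Q (f x)) (g x) (ent (h x)) :=
  CP.comp (udecid_tr hQ) (f := fun x => (f x, g x, h x)) (Cp.pair hf (Cp.pair hg hh))

private theorem blk {e s r σ b : α → ℕ} (he : Computable e) (hs : Computable s)
    (hr : Computable r) (hσ : Computable σ) (hb : Computable b) :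
    ComputablePred fun x => Blk (e x) (s x) (r x) (σ x) (b x) := by
  unfold Blk
  refine CP.and (CP.lt hb (by fun_prop)) (CP.and (CP.all hb (CP.bool (by fun_prop)))
    (CP.le (by fun_prop) hb))

private theorem box {e s b y : α → ℕ} (he : Computable e) (hs : Computable s)
    (hb : Computable b) (hy : Computable y) :
    ComputablePred fun x => Box (e x) (s x) (b x) (y x) := by
  unfold Box
  exact CP.all hb (CP.le (by fun_prop) (by fun_prop))

private theorem agr {h y t : α → ℕ} (hh : Computable h) (hy : Computable y)
    (ht : Computable t) : ComputablePred fun x => Agr (h x) (y x) (t x) := by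
  unfold Agr
  exact CP.all hh (CP.eq (by fun_prop) (by fun_prop))

private theorem dead {Q : ℕ → L.Structure ℕ} (hQ : UDecid Q) {e j s h b t l d : α → ℕ}
    (he : Computable e) (hj : Computable j) (hs : Computable s) (hh : Computable h)
    (hb : Computable b) (ht : Computable t) (hl : Computable l) (hd : Computable d) :
    ComputablePred fun x => Dead Q (e x) (j x) (s x) (h x) (b x) (t x) (l x) (d x) := by
  unfold Dead
  refine CP.all (by fun_prop) (CP.imp (box (by fun_prop) (by fun_prop) (by fun_prop)
    (by fun_prop)) (CP.imp (agr (by fun_prop) (by fun_prop) (by fun_prop))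
    (CP.not (tr2 hQ (by fun_prop) (by fun_prop) (by fun_prop)))))

private theorem killed {Q : ℕ → L.Structure ℕ} (hQ : UDecid Q) {e j s r σ t d : α → ℕ}
    (he : Computable e) (hj : Computable j) (hs : Computable s) (hr : Computable r)
    (hσ : Computable σ) (ht : Computable t) (hd : Computable d) :
    ComputablePred fun x => Killed Q (e x) (j x) (s x) (r x) (σ x) (t x) (d x) := by
  unfold Killed
  refine CP.ex (by fun_prop) (CP.and (blk (by fun_prop) (by fun_prop) (by fun_prop)
    (by fun_prop) (by fun_prop)) (dead hQ (by fun_prop) (by fun_prop) (by fun_prop)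
    (by fun_prop) (by fun_prop) (by fun_prop) (by fun_prop) (by fun_prop)))

private theorem obj {M : L.Structure ℕ} (hM : Decid M) {Q : ℕ → L.Structure ℕ} (hQ : UDecid Q)
    {s d σ d' r : α → ℕ} (hs : Computable s) (hd : Computable d) (hσ : Computable σ)
    (hd' : Computable d') (hr : Computable r) :
    ComputablePred fun x => Obj M Q (s x) (d x) (σ x) (d' x) (r x) := by
  unfold Obj
  refine CP.ex (by fun_prop) (CP.and (blk (by fun_prop) (by fun_prop) (by fun_prop)
    (by fun_prop) (by fun_prop)) (CP.ex (by fun_prop) (CP.and (box (by fun_prop) (by fun_prop)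
    (by fun_prop) (by fun_prop)) (CP.and (CP.not (killed hQ (by fun_prop) (by fun_prop)
    (by fun_prop) (by fun_prop) (by fun_prop) (by fun_prop) (by fun_prop))) (CP.and
    (CP.all (by fun_prop) (CP.imp (box (by fun_prop) (by fun_prop) (by fun_prop) (by fun_prop))
      (CP.imp (agr (by fun_prop) (by fun_prop) (by fun_prop))
      (CP.imp (tr2 hQ (by fun_prop) (by fun_prop) (by fun_prop))
        (tr2 hQ (by fun_prop) (by fun_prop) (by fun_prop))))))
    (tr1 hM (by fun_prop) (by fun_prop)))))))

private theorem kill {Q : ℕ → L.Structure ℕ} (hQ : UDecid Q)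
    {s d σ d' r : α → ℕ} (hs : Computable s) (hd : Computable d) (hσ : Computable σ)
    (hd' : Computable d') (hr : Computable r) :
    ComputablePred fun x => Kill Q (s x) (d x) (σ x) (d' x) (r x) := by
  unfold Kill
  refine CP.ex (by fun_prop) (CP.and (blk (by fun_prop) (by fun_prop) (by fun_prop)
    (by fun_prop) (by fun_prop)) (CP.ex (by fun_prop) (CP.and (box (by fun_prop) (by fun_prop)
    (by fun_prop) (by fun_prop)) (CP.and (CP.not (killed hQ (by fun_prop) (by fun_prop)
    (by fun_prop) (by fun_prop) (by fun_prop) (by fun_prop) (by fun_prop)))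
    (dead hQ (by fun_prop) (by fun_prop) (by fun_prop)
    (by fun_prop) (by fun_prop) (by fun_prop) (by fun_prop) (by fun_prop))))))

end

theorem valid_comp {M : L.Structure ℕ} (hM : Decid M) :
    ComputablePred fun p : ℕ × ℕ × ℕ => Valid M p.1 p.2.1 p.2.2 := by
  unfold Valid
  refine CP.and (tr1 hM (by fun_prop) (by fun_prop)) (CP.all (by fun_prop) (CP.all (by fun_prop)
    (CP.not (tr1 hM (by fun_prop) (by fun_prop)))))

theorem step_comp {M : L.Structure ℕ} (hM : Decid M) {Q : ℕ → L.Structure ℕ} (hQ : UDecid Q) :
    ComputablePred fun p : (ℕ × ℕ × ℕ) × (ℕ × ℕ × ℕ) =>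
      Step M Q p.1.1 p.1.2.1 p.1.2.2 p.2.1 p.2.2.1 p.2.2.2 := by
  unfold Step
  refine CP.and (CP.lt (by fun_prop) (by fun_prop)) (CP.and (tr1 hM (by fun_prop) (by fun_prop))
    (CP.and (CP.all (by fun_prop) (CP.all (by fun_prop)
      (CP.not (tr1 hM (by fun_prop) (by fun_prop)))))
    (CP.and (CP.or (CP.not (tr1 hM (by fun_prop) (by fun_prop)))
      (CP.not (tr1 hM (by fun_prop) (by fun_prop))))
    (CP.and (CP.all (by fun_prop) (CP.eq (by fun_prop) (by fun_prop)))
    (CP.and (CP.all (by fun_prop) (CP.ex (by fun_prop) (CP.eq (by fun_prop) (by fun_prop))))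
    (CP.and (CP.all (by fun_prop) (CP.not (obj hM hQ (by fun_prop) (by fun_prop) (by fun_prop)
      (by fun_prop) (by fun_prop))))
    (CP.or (CP.eq (by fun_prop) (by fun_prop)) (kill hQ (by fun_prop) (by fun_prop) (by fun_prop)
      (by fun_prop) (by fun_prop)))))))))

end Pool.Agent.DP
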