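import Pool.Agent.DP.Exst
import Pool.Agent.DP.StepC

set_option autoImplicit false

/-!
# Existence of a computable run

The relation between a state and the data of a step is decidable (`valid_comp`, `step_comp`) and total
(`exists_step`), so `CP.choose` gives a computable step function, which is iterated.
-/

open FirstOrder FirstOrder.Language

namespace Pool.Agent.DP

variable {L : FirstOrder.Language.{0, 0}}
variable [Encodable (Σ n, L.Functions n)] [Encodable (Σ n, L.Relations n)]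

/-- semantically equal formulas can be exchanged in `Valid` -/
theorem valid_next {M : L.Structure ℕ} {Q : ℕ → L.Structure ℕ} {s d σ α σ' ρ d₁ : ℕ}
    (h : Step M Q s d σ α σ' ρ)
    (hd₁ : ∀ w : ℕ → ℕ, Tr M d₁ w ↔ Tr M (nx s d α) w) : Valid M (s + 1) d₁ σ' := by
  obtain ⟨_, h2, h3, _⟩ := h
  refine ⟨(hd₁ _).2 h2, fun j hj i hi hcon => ?_⟩
  rw [tr_exB] at hcon
  obtain ⟨w', hw, hw'⟩ := hcon
  rw [tr_and] at hw'
  refine h3 j hj i hi ?_
  rw [tr_exB]
  exact ⟨w', hw, (tr_and _ _ _ _).2 ⟨(hd₁ w').1 hw'.1, hw'.2⟩⟩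

theorem exists_run {M : L.Structure ℕ} (hM : Decid M) {Q : ℕ → L.Structure ℕ} (hQ : UDecid Q) :
    ∃ δ σ α ρ, Run M Q δ σ α ρ := by
  obtain ⟨F, hF, hFp⟩ := CP.choose (α := ℕ × ℕ × ℕ) (β := ℕ × ℕ × ℕ)
    (p := fun x y => Valid M x.1 (trunc (x.1 + 1) x.2.1) x.2.2 →
      Step M Q x.1 (trunc (x.1 + 1) x.2.1) x.2.2 y.1 y.2.1 y.2.2)
    (CP.imp
      (CP.comp (valid_comp hM) (f := fun x : (ℕ × ℕ × ℕ) × (ℕ × ℕ × ℕ) =>
        (x.1.1, trunc (x.1.1 + 1) x.1.2.1, x.1.2.2)) (by fun_prop))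
      (CP.comp (step_comp hM hQ) (f := fun x : (ℕ × ℕ × ℕ) × (ℕ × ℕ × ℕ) =>
        ((x.1.1, trunc (x.1.1 + 1) x.1.2.1, x.1.2.2), (x.2.1, x.2.2.1, x.2.2.2)))
        (by fun_prop)))
    (by
      intro x
      by_cases hv : Valid M x.1 (trunc (x.1 + 1) x.2.1) x.2.2
      · obtain ⟨a, b, c, h⟩ := exists_step (M := M) (Q := Q) (dep_trunc (x.1 + 1) x.2.1) hv
        exact ⟨(a, b, c), fun _ => h⟩
      · exact ⟨(0, 0, 0), fun h => absurd h hv⟩)
  obtain ⟨st, hst0, hst, hstc⟩ : ∃ st : ℕ → ℕ × ℕ, st 0 = (cneg 0, 0) ∧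
      (∀ s, st (s + 1) = (nx s (trunc (s + 1) (st s).1) (F (s, st s)).1, (F (s, st s)).2.1)) ∧
      Computable st := by
    refine ⟨fun n => Nat.rec (motive := fun _ => ℕ × ℕ) (cneg 0, 0) (fun y IH =>
      (nx y (trunc (y + 1) IH.1) (F (y, IH)).1, (F (y, IH)).2.1)) n, rfl, fun s => rfl, ?_⟩
    exact Computable.nat_rec (f := fun n : ℕ => n) (g := fun _ => ((cneg 0, 0) : ℕ × ℕ))
      (h := fun _ p => (nx p.1 (trunc (p.1 + 1) p.2.1) (F (p.1, p.2)).1, (F (p.1, p.2)).2.1))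
      Computable.id (Computable.const _) (by
        show Computable fun q : ℕ × (ℕ × (ℕ × ℕ)) => (nx q.2.1 (trunc (q.2.1 + 1) q.2.2.1)
          (F (q.2.1, q.2.2)).1, (F (q.2.1, q.2.2)).2.1)
        fun_prop)
  have hnx : ∀ (s : ℕ) (S : L.Structure ℕ) (w : ℕ → ℕ), Tr S (trunc (s + 1 + 1) (st (s + 1)).1) w ↔
      Tr S (nx s (trunc (s + 1) (st s).1) (F (s, st s)).1) w := by
    intro s S w
    rw [hst s]
    exact trunc_iff (dep_nx _ (dep_trunc _ _)) S w
  have hval : ∀ s, Valid M s (trunc (s + 1) (st s).1) (st s).2 := by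
    intro s
    induction s with
    | zero =>
      rw [hst0]
      refine ⟨?_, fun j hj i hi => ?_⟩
      · rw [tr_trunc]
        exact ⟨ent 0, fun _ _ => rfl, (tr_neg _ _ _).2 (tr_zero _ _)⟩
      · omega
    | succ s ih =>
      have h := hFp (s, st s) ih
      have h2 := valid_next (d₁ := trunc (s + 1 + 1) (st (s + 1)).1) h (hnx s M)
      have e : (st (s + 1)).2 = (F (s, st s)).2.1 := by rw [hst s]
      rw [e]
      exact h2
  refine ⟨fun s => trunc (s + 1) (st s).1, fun s => (st s).2, fun s => (F (s, st s)).1,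
    fun s => (F (s, st s)).2.2, ⟨?_, fun s => dep_trunc _ _, hval, fun s => ?_, hnx⟩⟩
  · fun_prop
  · have h := hFp (s, st s) (hval s)
    have e : (st (s + 1)).2 = (F (s, st s)).2.1 := by rw [hst s]
    show Step M Q s (trunc (s + 1) (st s).1) (st s).2 (F (s, st s)).1 (st (s + 1)).2 (F (s, st s)).2.2
    rw [e]
    exact h

end Pool.Agent.DP
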