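import Pool.Agent.DP.SuccA

set_option autoImplicit false

/-!
# The requirements are satisfied

If `g` were dominated by a computable function, the formula `exB b (s + 1) (δ s)` would isolate, over
the preserved part, the type of the first `b` entries of the limit, against the hypothesis `hna`.
-/

open FirstOrder FirstOrder.Language

namespace Pool.Agent.DP

variable {L : FirstOrder.Language.{0, 0}}
variable [Encodable (Σ n, L.Functions n)] [Encodable (Σ n, L.Relations n)]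
variable {M : L.Structure ℕ} {Q : ℕ → L.Structure ℕ} {δ σ α ρ : ℕ → ℕ}

theorem Run.success (h : Run M Q δ σ α ρ) {f : ℕ ≃ ℕ}
    (hf : ∀ l, ∃ s1, ∀ s ≥ s1, ∀ i < l, ent (σ s) i = f i)
    (hna : ∀ k, ∃ b ≥ k, ∀ c, Dep L b c → Tr M c f →
      ∃ n, Dep L b n ∧ Tr M n f ∧ ∃ u : ℕ → ℕ, (∀ i < k, u i = f i) ∧ Tr M c u ∧ ¬ Tr M n u)
    {j : ℕ} {g : ℕ → ℕ} (hg : ∀ n, Tr M n f → Tr (Q j) n g) (H : ℕ → ℕ) (hH : Computable H) :
    ∃ x, H x < g x := by
  by_contra hcon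
  push Not at hcon
  obtain ⟨e, hcv, hbd⟩ := exists_prog H hH
  have hle : ∀ s i, cvg e s i = true → g i ≤ bd e s i := by
    intro s i hs
    rw [hbd s i hs]
    exact hcon i
  obtain ⟨s0, hs0⟩ := h.finact (Nat.pair e j + 1)
  obtain ⟨s1, hs1, -, -, hst⟩ := h.stab (Nat.pair e j) s0
    (fun s hs => (Nat.le_succ _).trans (hs0 s hs))
  have hfk : ∀ s ≥ s1, ∀ i < hgt (Nat.pair e j) (σ s1) (s1 + 1), ent (σ s) i = f i := by
    intro s hs i hi
    obtain ⟨s', hs'⟩ := hf (hgt (Nat.pair e j) (σ s1) (s1 + 1))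
    rw [(hst s hs).2 i hi, ← (hst (max s' s1) (le_max_right _ _)).2 i hi]
    exact hs' _ (le_max_left _ _) i hi
  obtain ⟨b, hkb, hb⟩ := hna (hgt (Nat.pair e j) (σ s1) (s1 + 1))
  obtain ⟨s2, hs2⟩ := h.no_split hf hg hcv hle (s1 := s1)
    (k := hgt (Nat.pair e j) (σ s1) (s1 + 1)) (b := b)
    (fun s hs => Nat.lt_of_succ_le (hs0 s (hs1.trans hs))) (fun s hs => (hst s hs).1) hfk hkb
  obtain ⟨n, hn1, hn2, u, hu1, hu2, hu3⟩ := hb (exB b (s2 + 1) (δ s2))
    (dep_exB (h.dep s2)) ((exB_iff (h.dep s2) M f).2 ⟨f, fun _ _ => rfl, h.tr_limit f hf s2⟩)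
  have key : ∀ s, s2 ≤ s → Tr M (exB b (s + 1) (δ s)) u := by
    intro s hs
    induction s, hs using Nat.le_induction with
    | base => exact hu2
    | succ s hs ih =>
      obtain ⟨w, hw1, hw2⟩ := (exB_iff (h.dep s) M u).1 ih
      have hwk : ∀ i < hgt (Nat.pair e j) (σ s1) (s1 + 1), w i = f i := by
        intro i hi
        rw [hw1 i (lt_of_lt_of_le hi hkb), hu1 i hi]
      obtain ⟨w', hw3, hw4⟩ := (exB_iff (dep_nx (α s) (h.dep s)) M w).1 (hs2 s hs w hwk hw2)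
      refine (exB_iff (h.dep (s + 1)) M u).2 ⟨w', ?_, (h.nxt s M w').2 hw4⟩
      intro i hi
      rw [hw3 i hi, hw1 i hi]
  obtain ⟨w, hw1, hw2⟩ := (exB_iff (h.dep (max s2 (n + 1))) M u).1
    (key (max s2 (n + 1)) (le_max_left _ _))
  have hw3 := h.imp (le_max_right s2 (n + 1)) M w hw2
  rcases h.decides n with hd | hd
  · exact hd f (h.tr_limit f hf (n + 1)) hn2
  · exact hu3 ((hn1 M w u hw1).1 (hd w hw3))

end Pool.Agent.DP
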