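import Pool.Agent.DP.EngA
import Pool.Agent.DP.RunEx
import Pool.Agent.DP.NA
import Pool.Agent.DP.SuccB

set_option autoImplicit false

/-!
# The construction, for a sequence of target structures

The limit `f` of a computable run gives the decidable presentation `N` (the pull back of `M` along `f`).
-/

open FirstOrder FirstOrder.Language

namespace Pool.Agent.DP

variable {L : FirstOrder.Language.{0, 0}}
variable [Encodable (Σ n, L.Functions n)] [Encodable (Σ n, L.Relations n)]

theorem engine {M : L.Structure ℕ} (hM : Decid M) (hna : ∀ k w, ¬ AtomicOver M k w)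
    {Q : ℕ → L.Structure ℕ} (hQ : UDecid Q) : ∃ N : L.Structure ℕ, Decid N ∧ Iso M N ∧
      ∀ (j : ℕ) (g : ℕ → ℕ), Elem N (Q j) g → ∀ H : ℕ → ℕ, Computable H → ∃ x, H x < g x := by
  obtain ⟨δ, σ, α, ρ, hr⟩ := exists_run hM hQ
  obtain ⟨f, hf⟩ := hr.limit
  obtain ⟨N, hiso, hN⟩ := exists_pull M f
  have key : ∀ n, Tr N n (fun i => i) ↔ Tr M n f := fun n => hN (fm n) fun i => i
  refine ⟨N, ?_, hiso, ?_⟩
  · apply decid_of_id
    refine CP.of_eq (p := fun n => Tr M n (ent (σ (n + 1)))) ?_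
      fun n => (key n).trans (hr.tr_limit_iff f hf n)
    exact CP.comp (f := fun n : ℕ => (n, σ (n + 1))) (decid_tr hM)
      (Cp.pair Cp.id (hr.comp.comp (Cp.add Cp.id (Cp.const 1))))
  · intro j g hg H hH
    have hna' : ∀ k, ∃ b ≥ k, ∀ c, Dep L b c → Tr M c f →
        ∃ n, Dep L b n ∧ Tr M n f ∧ ∃ u : ℕ → ℕ, (∀ i < k, u i = f i) ∧ Tr M c u ∧
          ¬ Tr M n u := fun k => exists_block f.surjective (hna k f)
    exact hr.success hf hna' (fun n hn => (hg (fm n) fun i => i).1 ((key n).2 hn)) H hH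

end Pool.Agent.DP
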