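import Pool.Agent.DP.EngB

set_option autoImplicit false

/-!
# An infinite sequence of decidable presentations

Finitely many decidable structures are uniformly decidable (induction on their number), so the
construction can be applied to the presentations which are already there.
-/

open FirstOrder FirstOrder.Language

namespace Pool.Agent.DP

variable {L : FirstOrder.Language.{0, 0}}
variable [Encodable (Σ n, L.Functions n)] [Encodable (Σ n, L.Relations n)]

/-- finitely many decidable structures are uniformly decidable -/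
theorem udecid_fin (N : ℕ → L.Structure ℕ) (k : ℕ) (h : ∀ i ≤ k, Decid (N i)) :
    UDecid fun i => N (min i k) := by
  induction k with
  | zero =>
    refine CP.of_eq (CP.comp (h 0 le_rfl) (f := fun p : ℕ × ℕ × List ℕ => p.2)
      Computable.snd) ?_
    rintro ⟨i, n, a⟩
    change Sat (N (min i 0)) (fm n) (fun i => a.getD i 0) ↔ Sat (N 0) (fm n) (fun i => a.getD i 0)
    rw [Nat.min_zero]
  | succ k ih =>
    have ih' := ih fun i hi => h i (Nat.le_succ_of_le hi)
    refine CP.of_eq (CP.or
      (CP.and (CP.le (f := fun p : ℕ × ℕ × List ℕ => p.1) (g := fun _ => k) Computable.fst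
        (Computable.const k)) ih')
      (CP.and (CP.le (f := fun _ : ℕ × ℕ × List ℕ => k + 1) (g := fun p => p.1)
        (Computable.const (k + 1)) Computable.fst)
        (CP.comp (h (k + 1) le_rfl) (f := fun p : ℕ × ℕ × List ℕ => p.2)
          Computable.snd))) ?_
    rintro ⟨i, n, a⟩
    change Sat (N (min i (k + 1))) (fm n) (fun i => a.getD i 0) ↔
      (i ≤ k ∧ Sat (N (min i k)) (fm n) (fun i => a.getD i 0)) ∨
        (k + 1 ≤ i ∧ Sat (N (k + 1)) (fm n) (fun i => a.getD i 0))
    rcases Nat.lt_or_ge k i with hi | hi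
    · have hi' : k + 1 ≤ i := hi
      rw [Nat.min_eq_right hi']
      constructor
      · intro h1
        exact Or.inr ⟨hi', h1⟩
      · rintro (⟨h1, -⟩ | ⟨-, h1⟩)
        · omega
        · exact h1
    · have hi' : i ≤ k + 1 := Nat.le_succ_of_le hi
      rw [Nat.min_eq_left hi', Nat.min_eq_left hi]
      constructor
      · intro h1
        exact Or.inl ⟨hi, h1⟩
      · rintro (⟨-, h1⟩ | ⟨h1, -⟩)
        · exact h1
        · omega

/-- an infinite sequence of decidable presentations -/
theorem exists_seq {M : L.Structure ℕ} (hM : Decid M) (hna : ∀ k w, ¬ AtomicOver M k w) :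
    ∃ N : ℕ → L.Structure ℕ, (∀ i, Decid (N i) ∧ Iso M (N i)) ∧
      ∀ i j, j < i → ∀ g : ℕ → ℕ, Elem (N i) (N j) g → ∀ H : ℕ → ℕ, Computable H →
        ∃ x, H x < g x := by
  obtain ⟨N, h1, h2⟩ := exists_seq_of_forall_finset_exists
    (fun S : L.Structure ℕ => Decid S ∧ Iso M S)
    (fun S' S : L.Structure ℕ => ∀ g : ℕ → ℕ, Elem S S' g → ∀ H : ℕ → ℕ, Computable H →
      ∃ x, H x < g x) (by
      intro s hs
      have hl : ∀ i, Decid (s.toList.getD i M) := by
        intro i
        rcases Nat.lt_or_ge i s.toList.length with hi | hi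
        · rw [List.getD_eq_getElem _ _ hi]
          exact (hs _ (Finset.mem_toList.1 (List.getElem_mem hi))).1
        · rw [List.getD_eq_default _ _ hi]
          exact hM
      obtain ⟨N, hN, hMN, hQ⟩ := engine hM hna
        (udecid_fin (fun i => s.toList.getD i M) s.toList.length fun i _ => hl i)
      refine ⟨N, ⟨hN, hMN⟩, ?_⟩
      intro S hS g hg H hH
      obtain ⟨i, hi, hiS⟩ := List.getElem_of_mem (Finset.mem_toList.2 hS)
      refine hQ i g ?_ H hH
      have e1 : s.toList.getD (min i s.toList.length) M = S := by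
        rw [Nat.min_eq_left hi.le, List.getD_eq_getElem _ _ hi, hiS]
      change Elem N (s.toList.getD (min i s.toList.length) M) g
      rw [e1]
      exact hg)
  exact ⟨N, h1, fun i j hij => h2 j i hij⟩

/-- the members of such a sequence are not computably isomorphic -/
theorem no_comp_iso {N : ℕ → L.Structure ℕ}
    (h : ∀ i j, j < i → ∀ g : ℕ → ℕ, Elem (N i) (N j) g → ∀ H : ℕ → ℕ, Computable H →
        ∃ x, H x < g x) {i j : ℕ} (hij : i ≠ j) {g : ℕ → ℕ} (hg : IsIso (N i) (N j) g) :
    ¬ Computable g := by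
  intro hc
  rcases Nat.lt_or_gt_of_ne hij with hlt | hlt
  · obtain ⟨g', hg', h1, h2⟩ := isIso_symm hg
    have hc' : Computable g' := computable_symm ⟨g, g', h2, h1⟩ hc
    obtain ⟨x, hx⟩ := h j i hlt g' (elem_of_isIso hg') g' hc'
    exact lt_irrefl _ hx
  · obtain ⟨x, hx⟩ := h i j hlt g (elem_of_isIso hg) g hc
    exact lt_irrefl _ hx

end Pool.Agent.DP
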