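import Pool.Agent.DP.Codes

set_option autoImplicit false

/-!
# Blocks of existential quantifiers

Plan: tr_exB by induction on `l` (Nat.rec unfolds by rfl) from tr_ex. fv_exB by induction from fv_cex. fv_trunc from fv_exB and fv_fm. tr_trunc from tr_exB
and tr_congr (the variables of `a` are at most `a`). The Dep lemmas from these. exists_fm: `φ := fm (trunc m n)`.
-/

open FirstOrder FirstOrder.Language

namespace Pool.Agent.DP

variable {L : FirstOrder.Language.{0, 0}}
variable [Encodable (Σ n, L.Functions n)] [Encodable (Σ n, L.Relations n)]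

private theorem exb_succ (b l a : ℕ) :
    exB b (l + 1) a = bif decide (b ≤ l) then cex l (exB b l a) else exB b l a := rfl

private theorem exb_succ_pos {b l : ℕ} (a : ℕ) (h : b ≤ l) :
    exB b (l + 1) a = cex l (exB b l a) := by
  rw [exb_succ, decide_eq_true h]
  rfl

private theorem exb_succ_neg {b l : ℕ} (a : ℕ) (h : ¬ b ≤ l) :
    exB b (l + 1) a = exB b l a := by
  rw [exb_succ, decide_eq_false h]
  rfl

theorem tr_exB {A : Type} (S : L.Structure A) (b l a : ℕ) (w : ℕ → A) :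
    Tr S (exB b l a) w ↔ ∃ w' : ℕ → A, (∀ i, ¬ (b ≤ i ∧ i < l) → w' i = w i) ∧ Tr S a w' := by
  induction l generalizing w with
  | zero =>
    constructor
    · intro h
      exact ⟨w, fun i _ => rfl, h⟩
    · rintro ⟨w', h1, h2⟩
      have : w' = w := funext fun i => h1 i (by omega)
      rw [this] at h2
      exact h2
  | succ l ih =>
    by_cases hb : b ≤ l
    · rw [exb_succ_pos a hb, tr_ex]
      constructor
      · rintro ⟨x, hx⟩
        obtain ⟨w', h1, h2⟩ := (ih _).1 hx
        refine ⟨w', fun i hi => ?_, h2⟩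
        have hil : i ≠ l := by
          rintro rfl
          exact hi ⟨hb, by omega⟩
        have := h1 i (by omega)
        rwa [Function.update_of_ne hil] at this
      · rintro ⟨w', h1, h2⟩
        refine ⟨w' l, (ih _).2 ⟨w', fun i hi => ?_, h2⟩⟩
        by_cases hil : i = l
        · rw [hil, Function.update_self]
        · rw [Function.update_of_ne hil]
          exact h1 i (by omega)
    · rw [exb_succ_neg a hb, ih]
      constructor
      · rintro ⟨w', h1, h2⟩
        exact ⟨w', fun i _ => h1 i (by omega), h2⟩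
      · rintro ⟨w', h1, h2⟩
        exact ⟨w', fun i _ => h1 i (by omega), h2⟩

theorem fv_exB (b l a : ℕ) :
    (fm (exB b l a) : Fm L).fv ⊆ (fm a : Fm L).fv \ {i | b ≤ i ∧ i < l} := by
  induction l with
  | zero =>
    intro i hi
    refine ⟨hi, fun h => ?_⟩
    have h2 : i < 0 := h.2
    omega
  | succ l ih =>
    intro i hi
    by_cases hb : b ≤ l
    · rw [exb_succ_pos a hb, fv_cex] at hi
      obtain ⟨h1, h2⟩ := hi
      obtain ⟨h3, h4⟩ := ih h1
      refine ⟨h3, fun h => h4 ?_⟩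
      have hne : i ≠ l := h2
      have h5 : b ≤ i := h.1
      have h6 : i < l + 1 := h.2
      exact ⟨h5, by omega⟩
    · rw [exb_succ_neg a hb] at hi
      obtain ⟨h3, h4⟩ := ih hi
      refine ⟨h3, fun h => h4 ?_⟩
      have h5 : b ≤ i := h.1
      have h6 : i < l + 1 := h.2
      exact ⟨h5, by omega⟩

theorem fv_trunc (l a : ℕ) : (fm (trunc l a) : Fm L).fv ⊆ Set.Iio l := by
  intro i hi
  obtain ⟨h1, h2⟩ := fv_exB l (a + 1) a hi
  have h3 : i ≤ a := fv_fm a h1
  by_contra h4
  have h5 : ¬ i < l := h4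
  exact h2 ⟨by omega, by omega⟩

/-- quantifying all variables from `v_l` on -/
theorem tr_trunc {A : Type} (S : L.Structure A) (l a : ℕ) (w : ℕ → A) :
    Tr S (trunc l a) w ↔ ∃ w' : ℕ → A, (∀ i < l, w' i = w i) ∧ Tr S a w' := by
  rw [trunc, tr_exB]
  constructor
  · rintro ⟨w', h1, h2⟩
    exact ⟨w', fun i hi => h1 i (by omega), h2⟩
  · rintro ⟨w', h1, h2⟩
    refine ⟨fun i => if i < a + 1 then w' i else w i, fun i hi => ?_, ?_⟩
    · by_cases h3 : i < a + 1
      · simp only [h3, if_true]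
        exact h1 i (by omega)
      · simp only [h3, if_false]
    · refine (tr_congr S a _ _ fun i hi => ?_).1 h2
      have h3 : i < a + 1 := by omega
      simp only [h3, if_true]

theorem dep_mono {l l' n : ℕ} (h : Dep L l n) (hl : l ≤ l') : Dep L l' n :=
  fun S w w' hw => h S w w' fun i hi => hw i (lt_of_lt_of_le hi hl)

theorem dep_self (n : ℕ) : Dep L (n + 1) n :=
  fun S w w' hw => tr_congr S n w w' fun i hi => hw i (Nat.lt_succ_of_le hi)

theorem dep_neg {l a : ℕ} (h : Dep L l a) : Dep L l (cneg a) := by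
  intro S w w' hw
  rw [tr_neg, tr_neg, h S w w' hw]

theorem dep_and {l a b : ℕ} (ha : Dep L l a) (hb : Dep L l b) : Dep L l (cand a b) := by
  intro S w w' hw
  rw [tr_and, tr_and, ha S w w' hw, hb S w w' hw]

theorem dep_eq {l i j : ℕ} (hi : i < l) (hj : j < l) : Dep L l (ceq i j) := by
  intro S w w' hw
  rw [tr_eq, tr_eq, hw i hi, hw j hj]

theorem dep_trunc (l a : ℕ) : Dep L l (trunc l a) := by
  intro S w w' hw
  rw [tr_trunc, tr_trunc]
  constructor
  · rintro ⟨u, h1, h2⟩
    exact ⟨u, fun i hi => (h1 i hi).trans (hw i hi), h2⟩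
  · rintro ⟨u, h1, h2⟩
    exact ⟨u, fun i hi => (h1 i hi).trans (hw i hi).symm, h2⟩

theorem trunc_iff {l a : ℕ} (h : Dep L l a) (S : L.Structure ℕ) (w : ℕ → ℕ) :
    Tr S (trunc l a) w ↔ Tr S a w := by
  rw [tr_trunc]
  constructor
  · rintro ⟨u, h1, h2⟩
    exact (h S u w h1).1 h2
  · intro h1
    exact ⟨w, fun i _ => rfl, h1⟩

theorem exB_iff {b l a : ℕ} (h : Dep L l a) (S : L.Structure ℕ) (w : ℕ → ℕ) :
    Tr S (exB b l a) w ↔ ∃ w' : ℕ → ℕ, (∀ i < b, w' i = w i) ∧ Tr S a w' := by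
  rw [tr_exB]
  constructor
  · rintro ⟨w', h1, h2⟩
    exact ⟨w', fun i hi => h1 i (by omega), h2⟩
  · rintro ⟨w', h1, h2⟩
    refine ⟨fun i => if i < l then w' i else w i, fun i hi => ?_, ?_⟩
    · by_cases h3 : i < l
      · simp only [h3, if_true]
        exact h1 i (by omega)
      · simp only [h3, if_false]
    · refine (h S _ _ fun i hi => ?_).1 h2
      simp only [hi, if_true]

theorem dep_exB {b l a : ℕ} (h : Dep L l a) : Dep L b (exB b l a) := by
  intro S w w' hw
  rw [exB_iff h, exB_iff h]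
  constructor
  · rintro ⟨u, h1, h2⟩
    exact ⟨u, fun i hi => (h1 i hi).trans (hw i hi), h2⟩
  · rintro ⟨u, h1, h2⟩
    exact ⟨u, fun i hi => (h1 i hi).trans (hw i hi).symm, h2⟩

theorem tr_nx {s d α : ℕ} (S : L.Structure ℕ) (w : ℕ → ℕ) :
    Tr S (nx s d α) w ↔ Tr S d w ∧ Tr S (trunc (s + 2) α) w := by
  rw [nx, tr_and]

theorem dep_nx {s d : ℕ} (α : ℕ) (h : Dep L (s + 1) d) : Dep L (s + 2) (nx s d α) :=
  dep_and (dep_mono h (Nat.le_succ _)) (dep_trunc _ _)

/-- formulas with finitely many variables are numbered, syntactic form -/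
theorem exists_fm {A : Type} (S : L.Structure A) (m n : ℕ)
    (h : ∀ w w' : ℕ → A, (∀ i < m, w i = w' i) → Tr S n w → Tr S n w') :
    ∃ φ : Fm L, φ.fv ⊆ Set.Iio m ∧ ∀ w, Sat S φ w ↔ Tr S n w := by
  refine ⟨fm (trunc m n), fv_trunc m n, fun w => ?_⟩
  have h1 : Sat S (fm (trunc m n)) w ↔ Tr S (trunc m n) w := Iff.rfl
  rw [h1, tr_trunc]
  constructor
  · rintro ⟨u, h2, h3⟩
    exact h u w h2 h3
  · intro h2
    exact ⟨w, fun i _ => rfl, h2⟩

end Pool.Agent.DP
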