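import Pool.Agent.DP.ExB
import Pool.Agent.DP.BoxL

set_option autoImplicit false

/-!
# Existence of a step

`exists_ext` extends a tuple by the least missing number and decides the next formula; `exists_kill` uses the witness given by an objection; `exists_step` takes the
least requirement which can make progress.
-/

open FirstOrder FirstOrder.Language

namespace Pool.Agent.DP

variable {L : FirstOrder.Language.{0, 0}}
variable [Encodable (Σ n, L.Functions n)] [Encodable (Σ n, L.Relations n)]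

private theorem dep_top (l : ℕ) : Dep L l (cneg 0) := by
  intro S w w' _
  rw [tr_neg, tr_neg]
  exact ⟨fun _ => tr_zero S w', fun _ => tr_zero S w⟩

private theorem exists_dist_aux (l k : ℕ) (hk : k ≤ l) : ∃ c : ℕ, Dep L (l + 1) c ∧
    ∀ (S : L.Structure ℕ) (w : ℕ → ℕ), Tr S c w ↔ ∀ i < k, w i ≠ w l := by
  induction k with
  | zero =>
    refine ⟨cneg 0, dep_top _, fun S w => ?_⟩
    rw [tr_neg]
    exact ⟨fun _ i hi => absurd hi (Nat.not_lt_zero i), fun _ => tr_zero S w⟩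
  | succ k ih =>
    obtain ⟨c, hc, h⟩ := ih (by omega)
    refine ⟨cand c (cneg (ceq k l)), dep_and hc (dep_neg (dep_eq (by omega) (by omega))),
      fun S w => ?_⟩
    rw [tr_and, h, tr_neg, tr_eq]
    constructor
    · rintro ⟨h1, h2⟩ i hi
      rcases Nat.lt_succ_iff_lt_or_eq.1 hi with h3 | h3
      · exact h1 i h3
      · rw [h3]
        exact h2
    · intro h1
      exact ⟨fun i hi => h1 i (by omega), h1 k (by omega)⟩

/-- a formula which says that the values of `v_i`, `i < l`, are distinct -/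
theorem exists_dist (l : ℕ) : ∃ c : ℕ, Dep L l c ∧ ∀ (S : L.Structure ℕ) (w : ℕ → ℕ),
    Tr S c w ↔ ∀ j < l, ∀ i < j, w i ≠ w j := by
  induction l with
  | zero =>
    refine ⟨cneg 0, dep_top _, fun S w => ?_⟩
    rw [tr_neg]
    exact ⟨fun _ i hi => absurd hi (Nat.not_lt_zero i), fun _ => tr_zero S w⟩
  | succ l ih =>
    obtain ⟨c, hc, h⟩ := ih
    obtain ⟨e, he, h'⟩ := exists_dist_aux (L := L) l l le_rfl
    refine ⟨cand c e, dep_and (dep_mono hc (by omega)) he, fun S w => ?_⟩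
    rw [tr_and, h, h']
    constructor
    · rintro ⟨h1, h2⟩ j hj i hi
      rcases Nat.lt_succ_iff_lt_or_eq.1 hj with h3 | h3
      · exact h1 j h3 i hi
      · rw [h3] at hi ⊢
        exact h2 i hi
    · intro h1
      exact ⟨fun j hj i hi => h1 j (by omega) i hi, fun i hi => h1 l (by omega) i hi⟩

/-- the distinctness condition of `Valid` -/
theorem inj_iff {M : L.Structure ℕ} {l d : ℕ} (hd : Dep L l d) :
    (∀ j < l, ∀ i < j, ¬ Tr M (exB 0 l (cand d (ceq i j))) (ent 0)) ↔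
      ∀ w, Tr M d w → ∀ j < l, ∀ i < j, w i ≠ w j := by
  have key : ∀ j < l, ∀ i < j, (Tr M (exB 0 l (cand d (ceq i j))) (ent 0) ↔
      ∃ w, Tr M d w ∧ w i = w j) := by
    intro j hj i hi
    rw [exB_iff (dep_and hd (dep_eq (by omega) hj))]
    constructor
    · rintro ⟨w, _, hw⟩
      rw [tr_and, tr_eq] at hw
      exact ⟨w, hw⟩
    · rintro ⟨w, hw⟩
      refine ⟨w, fun i hi => absurd hi (Nat.not_lt_zero i), ?_⟩
      rw [tr_and, tr_eq]
      exact hw
  constructor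
  · intro h w hw j hj i hi heq
    exact h j hj i hi ((key j hj i hi).2 ⟨w, hw, heq⟩)
  · intro h j hj i hi hcon
    obtain ⟨w, hw, heq⟩ := (key j hj i hi).1 hcon
    exact h w hw j hj i hi heq

/-- the decision condition of `Step` -/
theorem dec_iff {M : L.Structure ℕ} {l d n : ℕ} (hd : Dep L l d) (hn : Dep L l n) :
    ¬ Tr M (exB 0 l (cand d n)) (ent 0) ↔ ∀ w, Tr M d w → ¬ Tr M n w := by
  rw [exB_iff (dep_and hd hn)]
  constructor
  · intro h w hw hn'
    refine h ⟨w, fun i hi => absurd hi (Nat.not_lt_zero i), ?_⟩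
    rw [tr_and]
    exact ⟨hw, hn'⟩
  · rintro h ⟨w, _, hw⟩
    rw [tr_and] at hw
    exact h w hw.1 hw.2

/-- extension of a tuple which satisfies `d` and `β` by the least missing number -/
theorem exists_ext {M : L.Structure ℕ} {s d β : ℕ} (hd : Dep L (s + 1) d)
    (hβ : Dep L (s + 1) β) (hinj : ∀ w, Tr M d w → ∀ j < s + 1, ∀ i < j, w i ≠ w j)
    (x : ℕ → ℕ) (hx : Tr M d x) (hxβ : Tr M β x) :
    ∃ α σ', Tr M (nx s d α) (ent σ') ∧
      (∀ j < s + 2, ∀ i < j, ¬ Tr M (exB 0 (s + 2) (cand (nx s d α) (ceq i j))) (ent 0)) ∧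
      (¬ Tr M (exB 0 (s + 2) (cand (nx s d α) s)) (ent 0) ∨
        ¬ Tr M (exB 0 (s + 2) (cand (nx s d α) (cneg s))) (ent 0)) ∧
      (∀ i < s + 1, ent σ' i = x i) ∧
      (∀ y < ent σ' (s + 1), ∃ i < s + 1, ent σ' i = y) ∧
      ∀ (S : L.Structure ℕ) (w : ℕ → ℕ), Tr S (nx s d α) w → Tr S β w := by
  classical
  have hex : ∃ y : ℕ, ∀ i < s + 1, x i ≠ y := by
    obtain ⟨y, hy⟩ := Infinite.exists_notMem_finset ((Finset.range (s + 1)).image x)
    refine ⟨y, fun i hi heq => hy ?_⟩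
    exact Finset.mem_image.2 ⟨i, Finset.mem_range.2 hi, heq⟩
  set y := Nat.find hex with hydef
  have hy : ∀ i < s + 1, x i ≠ y := Nat.find_spec hex
  have hmin : ∀ z < y, ∃ i < s + 1, x i = z := by
    intro z hz
    have h := Nat.find_min hex hz
    push Not at h
    exact h
  obtain ⟨σ', hσ⟩ := exists_code (fun i => if i < s + 1 then x i else y) (s + 2)
  have h1 : ∀ i < s + 1, ent σ' i = x i := by
    intro i hi
    rw [hσ i (by omega)]
    exact if_pos hi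
  have h2 : ent σ' (s + 1) = y := by
    rw [hσ (s + 1) (by omega)]
    exact if_neg (lt_irrefl _)
  obtain ⟨D, hD, hDt⟩ := exists_dist (L := L) (s + 2)
  have hdist : Tr M D (ent σ') := by
    rw [hDt]
    intro j hj i hi
    rcases Nat.lt_succ_iff_lt_or_eq.1 hj with h3 | h3
    · rw [h1 i (by omega), h1 j h3]
      exact hinj x hx j h3 i hi
    · rw [h3] at hi ⊢
      rw [h1 i hi, h2]
      exact hy i hi
  have hs : Dep L (s + 2) s := dep_mono (dep_self s) (by omega)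
  -- the formula which decides `s`
  obtain ⟨θ, hθ, hθt, hθd⟩ : ∃ θ, Dep L (s + 2) θ ∧ Tr M θ (ent σ') ∧
      ((∀ w, Tr M θ w → ¬ Tr M s w) ∨ (∀ w, Tr M θ w → ¬ Tr M (cneg s) w)) := by
    by_cases h : Tr M s (ent σ')
    · refine ⟨s, hs, h, Or.inr fun w hw => ?_⟩
      rw [tr_neg]
      exact not_not.2 hw
    · refine ⟨cneg s, dep_neg hs, (tr_neg M s _).2 h, Or.inl fun w hw => ?_⟩
      exact (tr_neg M s w).1 hw
  set α := cand β (cand θ D) with hα
  have hαD : Dep L (s + 2) α := dep_and (dep_mono hβ (by omega)) (dep_and hθ hD)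
  have hnx : ∀ (S : L.Structure ℕ) (w : ℕ → ℕ), Tr S (nx s d α) w ↔
      Tr S d w ∧ Tr S β w ∧ Tr S θ w ∧ Tr S D w := by
    intro S w
    rw [tr_nx, trunc_iff hαD, hα, tr_and, tr_and]
  refine ⟨α, σ', ?_, ?_, ?_, h1, ?_, fun S w hw => ((hnx S w).1 hw).2.1⟩
  · rw [hnx]
    refine ⟨?_, ?_, hθt, hdist⟩
    · exact (hd M x (ent σ') fun i hi => (h1 i hi).symm).1 hx
    · exact (hβ M x (ent σ') fun i hi => (h1 i hi).symm).1 hxβ
  · refine (inj_iff (dep_nx α hd)).2 fun w hw => ?_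
    exact (hDt M w).1 ((hnx M w).1 hw).2.2.2
  · rcases hθd with h | h
    · left
      exact (dec_iff (dep_nx α hd) hs).2 fun w hw => h w ((hnx M w).1 hw).2.2.1
    · right
      exact (dec_iff (dep_nx α hd) (dep_neg hs)).2 fun w hw => h w ((hnx M w).1 hw).2.2.1
  · intro z hz
    rw [h2] at hz
    obtain ⟨i, hi, heq⟩ := hmin z hz
    exact ⟨i, hi, by rw [h1 i hi, heq]⟩

/-- if the requirement `r` objects, it can make progress -/
theorem exists_kill {M : L.Structure ℕ} {Q : ℕ → L.Structure ℕ} {s d σ d' r : ℕ}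
    (hd : Dep L (s + 1) d) (hd' : Dep L (s + 2) d') (hv : Valid M s d σ)
    (h : Obj M Q s d σ d' r) :
    ∃ α σ', Tr M (nx s d α) (ent σ') ∧
      (∀ j < s + 2, ∀ i < j, ¬ Tr M (exB 0 (s + 2) (cand (nx s d α) (ceq i j))) (ent 0)) ∧
      (¬ Tr M (exB 0 (s + 2) (cand (nx s d α) s)) (ent 0) ∨
        ¬ Tr M (exB 0 (s + 2) (cand (nx s d α) (cneg s))) (ent 0)) ∧
      (∀ i < hgt r σ (s + 1), ent σ' i = ent σ i) ∧
      (∀ y < ent σ' (s + 1), ∃ i < s + 1, ent σ' i = y) ∧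
      Kill Q s d σ (nx s d α) r := by
  obtain ⟨b, hb, hblk, t, ht, hbox, hnk, h3, h4⟩ := h
  have hE : Dep L b (exB b (s + 2) d') := dep_exB hd'
  have hβ : Dep L (s + 1) (cneg (exB b (s + 2) d')) := dep_neg (dep_mono hE (by omega))
  rw [exB_iff (dep_and hd hβ)] at h4
  obtain ⟨w', hw', hw⟩ := h4
  rw [tr_and] at hw
  have hinj := (inj_iff hd).1 hv.2
  obtain ⟨α, σ', c1, c2, c3, c4, c5, c6⟩ := exists_ext hd hβ hinj w' hw.1 hw.2
  refine ⟨α, σ', c1, c2, c3, ?_, c5, b, hb, hblk, t, ht, hbox, hnk, ?_⟩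
  · intro i hi
    rw [c4 i (lt_of_lt_of_le hi (hgt_le _ _ _)), hw' i hi]
  · intro y hy hybox hyagr hcon
    rw [exB_iff (dep_nx α hd)] at hcon
    obtain ⟨w'', hw1, hw2⟩ := hcon
    have e1 := c6 _ _ hw2
    rw [tr_neg] at e1
    have e2 := ((tr_nx _ _).1 hw2).1
    have e3 : Tr (Q r.unpair.2) (exB b (s + 1) d) (ent y) :=
      (exB_iff hd _ _).2 ⟨w'', hw1, e2⟩
    have e4 := h3 y hy hybox hyagr e3
    exact e1 ((hE _ (ent y) w'' fun i hi => (hw1 i hi).symm).1 e4)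

theorem exists_step {M : L.Structure ℕ} {Q : ℕ → L.Structure ℕ} {s d σ : ℕ}
    (hd : Dep L (s + 1) d) (hv : Valid M s d σ) : ∃ α σ' ρ, Step M Q s d σ α σ' ρ := by
  classical
  have hinj := (inj_iff hd).1 hv.2
  have hG : ∃ ρ : ℕ, ρ < s + 2 ∧ ∃ α σ', Tr M (nx s d α) (ent σ') ∧
      (∀ j < s + 2, ∀ i < j, ¬ Tr M (exB 0 (s + 2) (cand (nx s d α) (ceq i j))) (ent 0)) ∧
      (¬ Tr M (exB 0 (s + 2) (cand (nx s d α) s)) (ent 0) ∨
        ¬ Tr M (exB 0 (s + 2) (cand (nx s d α) (cneg s))) (ent 0)) ∧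
      (∀ i < hgt ρ σ (s + 1), ent σ' i = ent σ i) ∧
      (∀ y < ent σ' (s + 1), ∃ i < s + 1, ent σ' i = y) ∧
      (ρ = s + 1 ∨ Kill Q s d σ (nx s d α) ρ) := by
    obtain ⟨α, σ', c1, c2, c3, c4, c5, -⟩ := exists_ext hd (dep_top (s + 1)) hinj (ent σ) hv.1
      ((tr_neg M 0 _).2 (tr_zero M _))
    refine ⟨s + 1, by omega, α, σ', c1, c2, c3, ?_, c5, Or.inl rfl⟩
    intro i hi
    rw [hgt_top] at hi
    exact c4 i hi
  obtain ⟨hρ, α, σ', c1, c2, c3, c4, c5, c6⟩ := Nat.find_spec hG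
  refine ⟨α, σ', Nat.find hG, hρ, c1, c2, c3, c4, c5, ?_, c6⟩
  intro r hr hobj
  obtain ⟨α', σ'', e1, e2, e3, e4, e5, e6⟩ := exists_kill hd (dep_nx α hd) hv hobj
  exact Nat.find_min hG hr ⟨by omega, α', σ'', e1, e2, e3, e4, e5, Or.inr e6⟩

end Pool.Agent.DP
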