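import Pool.Agent.DP.Ren

set_option autoImplicit false

/-!
# Back and forth

Two elementarily equivalent countable structures are isomorphic if for every `n` finitely many
formulas isolate the types of all `n`-tuples.
-/

open FirstOrder FirstOrder.Language

namespace Pool.Agent.DP

variable {L : FirstOrder.Language.{0, 0}}
variable [Encodable (Σ n, L.Functions n)] [Encodable (Σ n, L.Relations n)]

private def bfNeg (φ : Fm L) : Fm L := .imp φ .bot

private def bfEx (i : ℕ) (φ : Fm L) : Fm L := bfNeg (.all i (bfNeg φ))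

private def bfAllB : ℕ → Fm L → Fm L
  | 0, φ => φ
  | n + 1, φ => .all n (bfAllB n φ)

private def BfSame {A B : Type} (S : L.Structure A) (T : L.Structure B) (n : ℕ) (u : ℕ → A)
    (v : ℕ → B) : Prop :=
  ∀ φ : Fm L, φ.fv ⊆ Set.Iio n → (Sat S φ u ↔ Sat T φ v)

omit [Encodable (Σ n, L.Functions n)] [Encodable (Σ n, L.Relations n)] in
private theorem bf_fv_neg (φ : Fm L) : (bfNeg φ).fv = φ.fv := by
  simp only [bfNeg, Fm.fv, Set.union_empty]

omit [Encodable (Σ n, L.Functions n)] [Encodable (Σ n, L.Relations n)] in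
private theorem bf_fv_ex (n : ℕ) (φ : Fm L) (h : φ.fv ⊆ Set.Iio (n + 1)) :
    (bfEx n φ).fv ⊆ Set.Iio n := by
  rw [bfEx, bf_fv_neg]
  simp only [Fm.fv, bf_fv_neg]
  intro i hi
  have h1 : i < n + 1 := h hi.1
  have h2 : i ≠ n := hi.2
  exact (by omega : i < n)

omit [Encodable (Σ n, L.Functions n)] [Encodable (Σ n, L.Relations n)] in
private theorem bf_sat_ex {A : Type} (S : L.Structure A) (n : ℕ) (φ : Fm L) (w : ℕ → A) :
    Sat S (bfEx n φ) w ↔ ∃ a, Sat S φ (Function.update w n a) := by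
  simp only [bfEx, bfNeg, Sat]
  constructor
  · intro h
    by_contra h1
    exact h fun a ha => h1 ⟨a, ha⟩
  · rintro ⟨a, ha⟩ h
    exact h a ha

omit [Encodable (Σ n, L.Functions n)] [Encodable (Σ n, L.Relations n)] in
private theorem bf_sat_allB {A : Type} (S : L.Structure A) (n : ℕ) (φ : Fm L) :
    (∀ w : ℕ → A, Sat S (bfAllB n φ) w) ↔ ∀ w : ℕ → A, Sat S φ w := by
  induction n with
  | zero => exact Iff.rfl
  | succ n ih =>
    rw [← ih]
    constructor
    · intro h w
      have h1 := h w (w n)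
      rwa [Function.update_eq_self] at h1
    · intro h w a
      exact h _

omit [Encodable (Σ n, L.Functions n)] [Encodable (Σ n, L.Relations n)] in
private theorem bf_fv_allB' (n : ℕ) (φ : Fm L) : (bfAllB n φ).fv ⊆ φ.fv \ Set.Iio n := by
  induction n with
  | zero =>
    intro i hi
    exact ⟨hi, fun h => absurd h (Nat.not_lt_zero i)⟩
  | succ n ih =>
    intro i hi
    have h1 := ih hi.1
    have h2 : i ≠ n := hi.2
    refine ⟨h1.1, fun h3 => h1.2 ?_⟩
    have h4 : i < n + 1 := h3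
    exact (by omega : i < n)

omit [Encodable (Σ n, L.Functions n)] [Encodable (Σ n, L.Relations n)] in
private theorem bf_fv_allB (n : ℕ) (φ : Fm L) (h : φ.fv ⊆ Set.Iio n) :
    (bfAllB n φ).fv = ∅ :=
  Set.subset_empty_iff.1 fun _ hi => (bf_fv_allB' n φ hi).2 (h (bf_fv_allB' n φ hi).1)

omit [Encodable (Σ n, L.Functions n)] [Encodable (Σ n, L.Relations n)] in
private theorem bf_disj {A B : Type} (S : L.Structure A) (T : L.Structure B) (n : ℕ)
    {F : Set (Fm L)} (hF : F.Finite) (hfv : ∀ χ ∈ F, χ.fv ⊆ Set.Iio n) :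
    ∃ D : Fm L, D.fv ⊆ Set.Iio n ∧ (∀ u, Sat S D u ↔ ∃ χ ∈ F, Sat S χ u) ∧
      ∀ v, Sat T D v ↔ ∃ χ ∈ F, Sat T χ v := by
  induction F, hF using Set.Finite.induction_on with
  | empty =>
    refine ⟨.bot, ?_, ?_, ?_⟩
    · simp only [Fm.fv]
      exact Set.empty_subset _
    · intro u
      simp [Sat]
    · intro u
      simp [Sat]
  | insert hχ hF ih =>
    rename_i χ F
    obtain ⟨D, h1, h2, h3⟩ := ih fun χ' h' => hfv χ' (Set.mem_insert_of_mem _ h')
    refine ⟨.imp (bfNeg χ) D, ?_, ?_, ?_⟩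
    · simp only [Fm.fv, bf_fv_neg]
      exact Set.union_subset (hfv χ (Set.mem_insert _ _)) h1
    · intro u
      simp only [Sat, bfNeg, Set.mem_insert_iff, exists_eq_or_imp, h2]
      tauto
    · intro u
      simp only [Sat, bfNeg, Set.mem_insert_iff, exists_eq_or_imp, h3]
      tauto

/-- back and forth -/
theorem iso_of_types {A B : Type} [Countable A] [Countable B] {S : L.Structure A}
    {T : L.Structure B} [Nonempty A] [Nonempty B]
    (hE : ElemEquiv S T) (hF : ∀ n, ∃ F : Set (Fm L), F.Finite ∧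
      (∀ χ ∈ F, χ.fv ⊆ Set.Iio n) ∧
      (∀ χ ∈ F, ∀ u u' : ℕ → A, Sat S χ u → Sat S χ u' →
        ∀ φ : Fm L, φ.fv ⊆ Set.Iio n → (Sat S φ u ↔ Sat S φ u')) ∧
      ∀ u : ℕ → A, ∃ χ ∈ F, Sat S χ u) : Iso S T := by
  classical
  -- closed formulas
  have hU : ∀ (n : ℕ) (φ : Fm L), φ.fv ⊆ Set.Iio n →
      ((∀ u : ℕ → A, Sat S φ u) ↔ ∀ v : ℕ → B, Sat T φ v) := by
    intro n φ hφ
    rw [← bf_sat_allB S n φ, ← bf_sat_allB T n φ]
    exact hE _ (bf_fv_allB n φ hφ)
  have hdec : ∀ (n : ℕ) (F : Set (Fm L)), (∀ χ ∈ F, χ.fv ⊆ Set.Iio n) →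
      (∀ χ ∈ F, ∀ u u' : ℕ → A, Sat S χ u → Sat S χ u' →
        ∀ φ : Fm L, φ.fv ⊆ Set.Iio n → (Sat S φ u ↔ Sat S φ u')) →
      ∀ χ ∈ F, ∀ (u : ℕ → A) (v : ℕ → B), Sat S χ u → Sat T χ v → BfSame S T n u v := by
    intro n F h1 h2 χ hχ u v hu hv φ hφ
    constructor
    · intro h
      have h3 : ∀ u' : ℕ → A, Sat S (.imp χ φ) u' := fun u' hu' =>
        (h2 χ hχ u u' hu hu' φ hφ).1 h
      exact (hU n (.imp χ φ) (Set.union_subset (h1 χ hχ) hφ)).1 h3 v hv
    · intro h
      by_contra h4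
      have h3 : ∀ u' : ℕ → A, Sat S (.imp χ (bfNeg φ)) u' := fun u' hu' h5 =>
        h4 ((h2 χ hχ u u' hu hu' φ hφ).2 h5)
      have hfv : (Fm.imp χ (bfNeg φ)).fv ⊆ Set.Iio n := by
        refine Set.union_subset (h1 χ hχ) ?_
        rw [bf_fv_neg]
        exact hφ
      exact (hU n _ hfv).1 h3 v hv h
  -- one step
  have hforth : ∀ (n : ℕ) (u : ℕ → A) (v : ℕ → B), BfSame S T n u v → ∀ a : A, ∃ b : B,
      BfSame S T (n + 1) (Function.update u n a) (Function.update v n b) := by
    intro n u v huv a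
    obtain ⟨F, hFf, h1, h2, h3⟩ := hF (n + 1)
    obtain ⟨χ, hχ, hu⟩ := h3 (Function.update u n a)
    have h4 : Sat S (bfEx n χ) u := (bf_sat_ex S n χ u).2 ⟨a, hu⟩
    have h5 : Sat T (bfEx n χ) v := (huv _ (bf_fv_ex n χ (h1 χ hχ))).1 h4
    obtain ⟨b, hb⟩ := (bf_sat_ex T n χ v).1 h5
    exact ⟨b, hdec (n + 1) F h1 h2 χ hχ _ _ hu hb⟩
  have hback : ∀ (n : ℕ) (u : ℕ → A) (v : ℕ → B), BfSame S T n u v → ∀ b : B, ∃ a : A,
      BfSame S T (n + 1) (Function.update u n a) (Function.update v n b) := by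
    intro n u v huv b
    obtain ⟨F, hFf, h1, h2, h3⟩ := hF (n + 1)
    obtain ⟨D, hD1, hD2, hD3⟩ := bf_disj S T (n + 1) hFf h1
    have h6 : ∀ v' : ℕ → B, Sat T D v' := (hU (n + 1) D hD1).1 fun u' => (hD2 u').2 (h3 u')
    obtain ⟨χ, hχ, hv⟩ := (hD3 _).1 (h6 (Function.update v n b))
    have h4 : Sat T (bfEx n χ) v := (bf_sat_ex T n χ v).2 ⟨b, hv⟩
    have h5 : Sat S (bfEx n χ) u := (huv _ (bf_fv_ex n χ (h1 χ hχ))).2 h4
    obtain ⟨a, ha⟩ := (bf_sat_ex S n χ u).1 h5
    exact ⟨a, hdec (n + 1) F h1 h2 χ hχ _ _ ha hv⟩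
  obtain ⟨α, hα⟩ := exists_surjective_nat A
  obtain ⟨β, hβ⟩ := exists_surjective_nat B
  have hstep : ∀ (n : ℕ) (p : {p : (ℕ → A) × (ℕ → B) // BfSame S T n p.1 p.2}),
      ∃ q : {p : (ℕ → A) × (ℕ → B) // BfSame S T (n + 1) p.1 p.2},
        (∀ i < n, q.1.1 i = p.1.1 i) ∧ (∀ i < n, q.1.2 i = p.1.2 i) ∧
        (∀ k, n = 2 * k → q.1.1 n = α k) ∧ (∀ k, n = 2 * k + 1 → q.1.2 n = β k) := by
    rintro n ⟨⟨u, v⟩, huv⟩
    rcases Nat.even_or_odd' n with ⟨k, hk | hk⟩
    · obtain ⟨b, hb⟩ := hforth n u v huv (α k)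
      refine ⟨⟨(Function.update u n (α k), Function.update v n b), hb⟩, ?_, ?_, ?_, ?_⟩
      · intro i hi
        exact Function.update_of_ne (by omega) _ _
      · intro i hi
        exact Function.update_of_ne (by omega) _ _
      · intro k' hk'
        have : k' = k := by omega
        rw [this]
        exact Function.update_self _ _ _
      · intro k' hk'
        omega
    · obtain ⟨a, ha⟩ := hback n u v huv (β k)
      refine ⟨⟨(Function.update u n a, Function.update v n (β k)), ha⟩, ?_, ?_, ?_, ?_⟩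
      · intro i hi
        exact Function.update_of_ne (by omega) _ _
      · intro i hi
        exact Function.update_of_ne (by omega) _ _
      · intro k' hk'
        omega
      · intro k' hk'
        have : k' = k := by omega
        rw [this]
        exact Function.update_self _ _ _
  choose next hn1 hn2 hn3 hn4 using hstep
  have hbase : BfSame S T 0 (fun _ => α 0) (fun _ => β 0) := by
    intro φ hφ
    have h1 : φ.fv = ∅ := Set.subset_empty_iff.1 (fun i hi => absurd (hφ hi) (Nat.not_lt_zero i))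
    have h2 := hE φ h1
    have h3 : ∀ i ∈ φ.fv, False := fun i hi => absurd (hφ hi) (Nat.not_lt_zero i)
    constructor
    · intro h
      exact h2.1 (fun w => (sat_congr S φ _ w (fun i hi => (h3 i hi).elim)).1 h) _
    · intro h
      exact h2.2 (fun w => (sat_congr T φ _ w (fun i hi => (h3 i hi).elim)).1 h) _
  let g : ∀ n : ℕ, {p : (ℕ → A) × (ℕ → B) // BfSame S T n p.1 p.2} := fun n =>
    Nat.rec (motive := fun n => {p : (ℕ → A) × (ℕ → B) // BfSame S T n p.1 p.2})
      ⟨(fun _ => α 0, fun _ => β 0), hbase⟩ (fun n p => next n p) n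
  let a : ℕ → A := fun n => (g (n + 1)).1.1 n
  let b : ℕ → B := fun n => (g (n + 1)).1.2 n
  have hga : ∀ m n, n < m → (g m).1.1 n = a n ∧ (g m).1.2 n = b n := by
    intro m
    induction m with
    | zero => intro n hn; exact absurd hn (Nat.not_lt_zero n)
    | succ m ih =>
      intro n hn
      rcases Nat.lt_or_ge n m with h | h
      · have e1 : (g (m + 1)).1.1 n = (g m).1.1 n := hn1 m (g m) n h
        have e2 : (g (m + 1)).1.2 n = (g m).1.2 n := hn2 m (g m) n h
        rw [e1, e2]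
        exact ih n h
      · have : n = m := by omega
        subst this
        exact ⟨rfl, rfl⟩
  have hsame : ∀ n, BfSame S T n a b := by
    intro n φ hφ
    rw [← sat_congr S φ (g n).1.1 a fun i hi => (hga n i (hφ hi)).1,
      ← sat_congr T φ (g n).1.2 b fun i hi => (hga n i (hφ hi)).2]
    exact (g n).2 φ hφ
  have ha_surj : Function.Surjective a := by
    intro x
    obtain ⟨k, rfl⟩ := hα x
    exact ⟨2 * k, hn3 (2 * k) (g (2 * k)) k rfl⟩
  have hb_surj : Function.Surjective b := by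
    intro x
    obtain ⟨k, rfl⟩ := hβ x
    exact ⟨2 * k + 1, hn4 (2 * k + 1) (g (2 * k + 1)) k rfl⟩
  have hallφ : ∀ φ : Fm L, φ.fv.Finite → (Sat S φ a ↔ Sat T φ b) := by
    intro φ hφ
    obtain ⟨n, hn⟩ := hφ.bddAbove
    exact hsame (n + 1) φ fun i hi => Nat.lt_succ_of_le (hn hi)
  have heq : ∀ i j, a i = a j ↔ b i = b j := by
    intro i j
    have h1 := hallφ (.eq (.var i) (.var j)) (by
      simp only [Fm.fv]
      exact (Finset.finite_toSet _).union (Finset.finite_toSet _))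
    simpa only [Sat, Term.realize_var] using h1
  choose idx hidx using ha_surj
  have hf : ∀ i, b (idx (a i)) = b i := fun i => (heq _ _).1 (hidx (a i))
  have hbij : Function.Bijective fun x => b (idx x) := by
    constructor
    · intro x y hxy
      have h1 := (heq _ _).2 hxy
      rwa [hidx, hidx] at h1
    · intro y
      obtain ⟨i, rfl⟩ := hb_surj y
      exact ⟨a i, hf i⟩
  refine ⟨fun x => b (idx x), ⟨⟨Equiv.ofBijective _ hbij, ?_, ?_⟩, fun x => rfl⟩⟩
  · intro n F xs
    have h1 := hallφ (.eq (.func F fun j => .var (idx (xs j)))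
      (.var (idx (Structure.funMap F xs)))) (by
        simp only [Fm.fv]
        exact (Finset.finite_toSet _).union (Finset.finite_toSet _))
    simp only [Sat, Term.realize_var, Term.realize_func] at h1
    have h2 : (fun i => a (idx (xs i))) = xs := funext fun i => hidx _
    rw [h2, hidx] at h1
    exact (h1.1 rfl).symm
  · intro n R xs
    have h1 := hallφ (.rel R fun j => .var (idx (xs j))) (by
        simp only [Fm.fv]
        exact Set.finite_iUnion fun i => Finset.finite_toSet _)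
    simp only [Sat, Term.realize_var] at h1
    have h2 : (fun i => a (idx (xs i))) = xs := funext fun i => hidx _
    rw [h2] at h1
    exact h1.symm


end Pool.Agent.DP
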