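import Pool.Agent.DP.SatB
import Pool.Agent.DP.SatC

set_option autoImplicit false

/-!
# Saturated structures which are atomic over a finite tuple
-/

open FirstOrder FirstOrder.Language

namespace Pool.Agent.DP

variable {L : FirstOrder.Language.{0, 0}}
variable [Encodable (Σ n, L.Functions n)] [Encodable (Σ n, L.Relations n)]

theorem saturated_nonatomic {A B : Type} [Countable A] [Countable B] {S : L.Structure A}
    {T : L.Structure B} (hS : Saturated S) (hE : ElemEquiv S T) (hn : ¬ Iso S T) (k : ℕ)
    (w : ℕ → A) : ¬ AtomicOver S k w := by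
  intro hat
  have hA : Nonempty A := ⟨w 0⟩
  have hB : Nonempty B := by
    by_contra hB
    have h1 : ∀ u : ℕ → B, Sat T (.bot : Fm L) u := fun u => absurd ⟨u 0⟩ hB
    exact (hE .bot rfl).2 h1 w
  exact hn (iso_of_types hE fun n => hS.finite_types hat n)

end Pool.Agent.DP
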