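import Pool.Agent.DP.EngC
import Pool.Agent.DP.SatD

set_option autoImplicit false

/-!
# The final statement
-/

open FirstOrder FirstOrder.Language

namespace Pool.Agent.DP

variable {L : FirstOrder.Language.{0, 0}}
variable [Encodable (Σ n, L.Functions n)] [Encodable (Σ n, L.Relations n)]

theorem final_main {A : Type} {S : L.Structure A} (hA : ∃ P : L.Structure ℕ, Decid P ∧ Iso S P)
    (hna : ∀ k w, ¬ AtomicOver S k w) :
    (∀ M : ℕ → L.Structure ℕ, UDecid M → ∃ N : L.Structure ℕ, Decid N ∧ Iso S N ∧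
      ∀ (j : ℕ) (g : ℕ → ℕ), Elem N (M j) g → ∀ H : ℕ → ℕ, Computable H → ∃ x, H x < g x) ∧
    ∃ N : ℕ → L.Structure ℕ, (∀ i, Decid (N i) ∧ Iso S (N i)) ∧
      (∀ i j, j < i → ∀ g : ℕ → ℕ, Elem (N i) (N j) g → ∀ H : ℕ → ℕ, Computable H →
        ∃ x, H x < g x) ∧
      ∀ i j, i ≠ j → ∀ g : ℕ → ℕ, IsIso (N i) (N j) g → ¬ Computable g := by
  obtain ⟨P, hP, hSP⟩ := hA
  have hnaP : ∀ k w, ¬ AtomicOver P k w := fun k w h => by
    obtain ⟨u, hu⟩ := atomicOver_iso hSP h
    exact hna k u hu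
  constructor
  · intro M hM
    obtain ⟨N, hN, hPN, h⟩ := engine hP hnaP hM
    exact ⟨N, hN, iso_trans hSP hPN, h⟩
  · obtain ⟨N, hN, h⟩ := exists_seq hP hnaP
    exact ⟨N, fun i => ⟨(hN i).1, iso_trans hSP (hN i).2⟩, h, fun i j hij g hg =>
      no_comp_iso h hij hg⟩

/-- a structure with a decidable presentation is countable -/
theorem countable_of_iso {A : Type} {S : L.Structure A} (hA : ∃ P : L.Structure ℕ, Decid P ∧ Iso S P) :
    Countable A := by
  obtain ⟨P, _, g, e, _⟩ := hA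
  exact e.toEquiv.injective.countable

end Pool.Agent.DP
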