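import Pool.Agent.DP.Diag
import Pool.Agent.DP.Exst

set_option autoImplicit false

/-!
# The effective Henkin construction: steps

`c : ℕ → C` is a sequence in the structure `S`. The variable `v_(2i)` stands for `c (2i)`, the
variable `v_(2j+1)` for the element `j` of the structure which is constructed.
-/

open FirstOrder FirstOrder.Language

namespace Pool.Agent.DP

/-- quantify existentially all odd variables `v_i`, `i ≤ a`, in the formula `a` -/
def exO (a : ℕ) : ℕ :=
  Nat.rec (motive := fun _ => ℕ) a (fun i x => bif decide (i % 2 = 1) then cex i x else x) (a + 1)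

variable {L : FirstOrder.Language.{0, 0}}
variable [Encodable (Σ n, L.Functions n)] [Encodable (Σ n, L.Relations n)]

/-- `a` depends only on the variables `v_i`, `i < l`, in `S` -/
def DepS {C : Type} (S : L.Structure C) (l a : ℕ) : Prop :=
  ∀ w w' : ℕ → C, (∀ i < l, w i = w' i) → (Tr S a w ↔ Tr S a w')

/-- `a` is consistent with the type of `c` -/
def Cons {C : Type} (S : L.Structure C) (c : ℕ → C) (a : ℕ) : Prop := Tr S (exO a) c

private def exOk (k a : ℕ) : ℕ :=
  Nat.rec (motive := fun _ => ℕ) a (fun i x => bif decide (i % 2 = 1) then cex i x else x) k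

private theorem tr_exOk {C : Type} (S : L.Structure C) (k a : ℕ) (w : ℕ → C) :
    Tr S (exOk k a) w ↔ ∃ w' : ℕ → C, (∀ i, ¬ (i % 2 = 1 ∧ i < k) → w' i = w i) ∧ Tr S a w' := by
  induction k generalizing w with
  | zero =>
    constructor
    · intro h
      exact ⟨w, fun i _ => rfl, h⟩
    · rintro ⟨w', h1, h2⟩
      have : w' = w := funext fun i => h1 i (by omega)
      rw [this] at h2
      exact h2
  | succ k ih =>
    have hstep : exOk (k + 1) a = bif decide (k % 2 = 1) then cex k (exOk k a) else exOk k a := rfl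
    by_cases hb : k % 2 = 1
    · rw [hstep, decide_eq_true hb, cond_true, tr_ex]
      constructor
      · rintro ⟨x, hx⟩
        obtain ⟨w', h1, h2⟩ := (ih _).1 hx
        refine ⟨w', fun i hi => ?_, h2⟩
        have hil : i ≠ k := by
          rintro rfl
          exact hi ⟨hb, by omega⟩
        have := h1 i (by omega)
        rwa [Function.update_of_ne hil] at this
      · rintro ⟨w', h1, h2⟩
        refine ⟨w' k, (ih _).2 ⟨w', fun i hi => ?_, h2⟩⟩
        by_cases hil : i = k
        · rw [hil, Function.update_self]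
        · rw [Function.update_of_ne hil]
          exact h1 i (by omega)
    · rw [hstep, decide_eq_false hb, cond_false, ih]
      constructor
      · rintro ⟨w', h1, h2⟩
        exact ⟨w', fun i _ => h1 i (by omega), h2⟩
      · rintro ⟨w', h1, h2⟩
        refine ⟨w', fun i hi => h1 i ?_, h2⟩
        rintro ⟨h3, h4⟩
        have h5 : i ≠ k := by
          rintro rfl
          exact hb h3
        exact hi ⟨h3, by omega⟩

theorem cons_iff {C : Type} (S : L.Structure C) (c : ℕ → C) (a : ℕ) :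
    Cons S c a ↔ ∃ w : ℕ → C, (∀ i, w (2 * i) = c (2 * i)) ∧ Tr S a w := by
  have h0 : Cons S c a ↔ Tr S (exOk (a + 1) a) c := Iff.rfl
  rw [h0, tr_exOk]
  constructor
  · rintro ⟨w, h1, h2⟩
    exact ⟨w, fun i => h1 (2 * i) (by omega), h2⟩
  · rintro ⟨w, h1, h2⟩
    refine ⟨fun i => if i < a + 1 then w i else c i, fun i hi => ?_, ?_⟩
    · by_cases h3 : i < a + 1
      · simp only [h3, if_true]
        have h4 : i = 2 * (i / 2) := by omega
        rw [h4]
        exact h1 _
      · simp only [h3, if_false]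
    · refine (tr_congr S a _ _ fun i hi => ?_).1 h2
      have h3 : i < a + 1 := by omega
      simp only [h3, if_true]

/-- the new formula -/
def hnx (s d α : ℕ) : ℕ := cand d (trunc (2 * s + 3) α)

def HStep {C : Type} (S : L.Structure C) (c : ℕ → C) (s d α : ℕ) : Prop :=
  Cons S c (hnx s d α) ∧
  (¬ Cons S c (cand (hnx s d α) s) ∨ ¬ Cons S c (cand (hnx s d α) (cneg s))) ∧
  (∀ j < s + 1, ∀ i < j, ¬ Cons S c (cand (hnx s d α) (ceq (2 * i + 1) (2 * j + 1)))) ∧
  (¬ Cons S c (cand (hnx s d α) (cex s.unpair.1 s.unpair.2)) ∨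
    ∃ j < s + 1, ¬ Cons S c (cand (hnx s d α) (cneg (sb s.unpair.1 (2 * j + 1) s.unpair.2))))

def HValid {C : Type} (S : L.Structure C) (c : ℕ → C) (s d : ℕ) : Prop :=
  Cons S c d ∧ ∀ j < s, ∀ i < j, ¬ Cons S c (cand d (ceq (2 * i + 1) (2 * j + 1)))

private theorem exists_conj {C : Type} (S : L.Structure C) (l k : ℕ) (f : ℕ → ℕ)
    (hf : ∀ i < k, DepS S l (f i)) :
    ∃ a, DepS S l a ∧ ∀ w, Tr S a w ↔ ∀ i < k, Tr S (f i) w := by
  induction k with
  | zero =>
    refine ⟨cneg 0, fun w w' _ => ?_, fun w => ?_⟩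
    · rw [tr_neg, tr_neg]
      exact ⟨fun _ => tr_zero S w', fun _ => tr_zero S w⟩
    · rw [tr_neg]
      exact ⟨fun _ i hi => absurd hi (Nat.not_lt_zero i), fun _ => tr_zero S w⟩
  | succ k ih =>
    obtain ⟨a, ha, h⟩ := ih fun i hi => hf i (by omega)
    refine ⟨cand a (f k), fun w w' hw => ?_, fun w => ?_⟩
    · rw [tr_and, tr_and, ha w w' hw, hf k (by omega) w w' hw]
    · rw [tr_and, h]
      constructor
      · rintro ⟨h1, h2⟩ i hi
        rcases Nat.lt_succ_iff_lt_or_eq.1 hi with h3 | h3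
        · exact h1 i h3
        · rw [h3]
          exact h2
      · intro h1
        exact ⟨fun i hi => h1 i (by omega), h1 k (by omega)⟩

private theorem exists_distO {C : Type} (S : L.Structure C) (s : ℕ) :
    ∃ a, DepS S (2 * s + 3) a ∧
      ∀ w, Tr S a w ↔ ∀ j < s + 1, ∀ i < j, w (2 * i + 1) ≠ w (2 * j + 1) := by
  have h1 : ∀ j < s + 1, ∃ a, DepS S (2 * s + 3) a ∧
      ∀ w, Tr S a w ↔ ∀ i < j, w (2 * i + 1) ≠ w (2 * j + 1) := by
    intro j hj
    obtain ⟨a, ha, h⟩ := exists_conj S (2 * s + 3) j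
      (fun i => cneg (ceq (2 * i + 1) (2 * j + 1))) (fun i hi w w' hw => by
        rw [tr_neg, tr_neg, tr_eq, tr_eq, hw (2 * i + 1) (by omega), hw (2 * j + 1) (by omega)])
    refine ⟨a, ha, fun w => (h w).trans ?_⟩
    refine forall_congr' fun i => forall_congr' fun _ => ?_
    rw [tr_neg, tr_eq]
  choose! g hg using h1
  obtain ⟨a, ha, h⟩ := exists_conj S (2 * s + 3) (s + 1) g (fun j hj => (hg j hj).1)
  refine ⟨a, ha, fun w => (h w).trans ?_⟩
  exact forall_congr' fun j => forall_congr' fun hj => (hg j hj).2 w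

theorem hstep_total {C : Type} [Infinite C] (S : L.Structure C) (c : ℕ → C) {s d : ℕ}
    (hd : DepS S (2 * s + 1) d) (hv : HValid S c s d) : ∃ α, HStep S c s d α := by
  classical
  obtain ⟨hv1, hv2⟩ := hv
  obtain ⟨w, hw, hwd⟩ := (cons_iff S c d).1 hv1
  have hdist : ∀ j < s, ∀ i < j, w (2 * i + 1) ≠ w (2 * j + 1) := by
    intro j hj i hi heq
    refine hv2 j hj i hi ((cons_iff S c _).2 ⟨w, hw, ?_⟩)
    rw [tr_and, tr_eq]
    exact ⟨hwd, heq⟩
  obtain ⟨i0, hi0⟩ : ∃ i0, i0 = s.unpair.1 := ⟨_, rfl⟩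
  obtain ⟨n, hn⟩ : ∃ n, n = s.unpair.2 := ⟨_, rfl⟩
  have hi0s : i0 ≤ s := by
    rw [hi0]
    exact Nat.unpair_left_le s
  have hns : n ≤ s := by
    rw [hn]
    exact Nat.unpair_right_le s
  -- a fresh element
  have hfresh : ∃ y : C, ∀ j < s, w (2 * j + 1) ≠ y := by
    obtain ⟨y, hy⟩ := Infinite.exists_notMem_finset
      ((Finset.range s).image fun j => w (2 * j + 1))
    exact ⟨y, fun j hj heq => hy (Finset.mem_image.2 ⟨j, Finset.mem_range.2 hj, heq⟩)⟩
  have hy : ∃ y : C, (∀ j < s, w (2 * j + 1) ≠ y) ∧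
      (Tr S (cex i0 n) w → ∃ x, Tr S n (Function.update w i0 x) ∧
        ∃ j < s + 1, Function.update w (2 * s + 1) y (2 * j + 1) = x) := by
    by_cases h : Tr S (cex i0 n) w
    · obtain ⟨x, hx⟩ := (tr_ex S i0 n w).1 h
      by_cases h2 : ∃ j < s, w (2 * j + 1) = x
      · obtain ⟨y, hy⟩ := hfresh
        obtain ⟨j, hj, hjx⟩ := h2
        refine ⟨y, hy, fun _ => ⟨x, hx, j, by omega, ?_⟩⟩
        rw [Function.update_of_ne (by omega)]
        exact hjx
      · refine ⟨x, fun j hj heq => h2 ⟨j, hj, heq⟩, fun _ => ⟨x, hx, s, by omega, ?_⟩⟩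
        rw [Function.update_self]
    · obtain ⟨y, hy⟩ := hfresh
      exact ⟨y, hy, fun h' => absurd h' h⟩
  obtain ⟨y, hy1, hy2⟩ := hy
  obtain ⟨w', hw'⟩ : ∃ w', w' = Function.update w (2 * s + 1) y := ⟨_, rfl⟩
  rw [← hw'] at hy2
  have hww : ∀ i, i ≠ 2 * s + 1 → w' i = w i := by
    intro i hi
    rw [hw', Function.update_of_ne hi]
  have hwself : w' (2 * s + 1) = y := by
    rw [hw', Function.update_self]
  have hw'd : Tr S d w' := (hd w w' fun i hi => (hww i (by omega)).symm).1 hwd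
  have hw'e : ∀ i, w' (2 * i) = c (2 * i) := fun i => (hww _ (by omega)).trans (hw i)
  obtain ⟨D, hD, hDt⟩ := exists_distO S s
  have hw'D : Tr S D w' := by
    rw [hDt]
    intro j hj i hi
    rcases Nat.lt_succ_iff_lt_or_eq.1 hj with h3 | h3
    · rw [hww _ (by omega), hww _ (by omega)]
      exact hdist j h3 i hi
    · rw [h3, hwself, hww _ (by omega)]
      exact hy1 i (by omega)
  have hsdep : ∀ v v' : ℕ → C, (∀ i < 2 * s + 3, v i = v' i) → (Tr S s v ↔ Tr S s v') :=
    fun v v' h => tr_congr S s v v' fun i hi => h i (by omega)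
  -- the formula which decides `s`
  obtain ⟨θ, hθ, hθt, hθd⟩ : ∃ θ, DepS S (2 * s + 3) θ ∧ Tr S θ w' ∧
      ((∀ v, Tr S θ v → ¬ Tr S s v) ∨ (∀ v, Tr S θ v → ¬ Tr S (cneg s) v)) := by
    by_cases h : Tr S s w'
    · refine ⟨s, hsdep, h, Or.inr fun v hv => ?_⟩
      rw [tr_neg]
      exact not_not.2 hv
    · refine ⟨cneg s, fun v v' h => ?_, (tr_neg S s _).2 h, Or.inl fun v hv => ?_⟩
      · rw [tr_neg, tr_neg, hsdep v v' h]
      · exact (tr_neg S s v).1 hv
  -- the formula which decides the existential formula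
  have hcex : ∀ v v' : ℕ → C, (∀ i ≤ s, v i = v' i) → (Tr S (cex i0 n) v ↔ Tr S (cex i0 n) v') := by
    intro v v' h
    rw [tr_ex, tr_ex]
    refine exists_congr fun x => tr_congr S n _ _ fun i hi => ?_
    by_cases h1 : i = i0
    · rw [h1, Function.update_self, Function.update_self]
    · rw [Function.update_of_ne h1, Function.update_of_ne h1]
      exact h i (by omega)
  obtain ⟨E, hE, hEt, hEd⟩ : ∃ E, DepS S (2 * s + 3) E ∧ Tr S E w' ∧
      ((∀ v, Tr S E v → ¬ Tr S (cex i0 n) v) ∨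
        ∃ j < s + 1, ∀ v, Tr S E v → ¬ Tr S (cneg (sb i0 (2 * j + 1) n)) v) := by
    by_cases h : Tr S (cex i0 n) w
    · obtain ⟨x, hx, j, hj, hjx⟩ := hy2 h
      refine ⟨sb i0 (2 * j + 1) n, fun v v' h' => ?_, ?_, Or.inr ⟨j, hj, fun v hv => ?_⟩⟩
      · rw [tr_sb, tr_sb]
        refine tr_congr S n _ _ fun i hi => ?_
        by_cases h1 : i = i0
        · rw [h1, Function.update_self, Function.update_self]
          exact h' _ (by omega)
        · rw [Function.update_of_ne h1, Function.update_of_ne h1]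
          exact h' i (by omega)
      · rw [tr_sb, hjx]
        refine (tr_congr S n _ _ fun i hi => ?_).1 hx
        by_cases h1 : i = i0
        · rw [h1, Function.update_self, Function.update_self]
        · rw [Function.update_of_ne h1, Function.update_of_ne h1]
          exact (hww i (by omega)).symm
      · rw [tr_neg]
        exact not_not.2 hv
    · refine ⟨cneg (cex i0 n), fun v v' h' => ?_, ?_, Or.inl fun v hv => ?_⟩
      · rw [tr_neg, tr_neg, hcex v v' fun i hi => h' i (by omega)]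
      · rw [tr_neg, hcex w' w fun i hi => hww i (by omega)]
        exact h
      · exact (tr_neg S _ v).1 hv
  obtain ⟨α, hα⟩ : ∃ α, α = cand θ (cand D E) := ⟨_, rfl⟩
  have hαdep : DepS S (2 * s + 3) α := by
    intro v v' h
    rw [hα, tr_and, tr_and, tr_and, tr_and, hθ v v' h, hD v v' h, hE v v' h]
  have hnxI : ∀ v, Tr S (hnx s d α) v ↔ Tr S d v ∧ Tr S θ v ∧ Tr S D v ∧ Tr S E v := by
    intro v
    rw [show hnx s d α = cand d (trunc (2 * s + 3) α) from rfl, tr_and, tr_trunc]
    have : (∃ v' : ℕ → C, (∀ i < 2 * s + 3, v' i = v i) ∧ Tr S α v') ↔ Tr S α v := by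
      constructor
      · rintro ⟨v', h1, h2⟩
        exact (hαdep v' v h1).1 h2
      · intro h
        exact ⟨v, fun i _ => rfl, h⟩
    rw [this, hα, tr_and, tr_and]
  have hnc : ∀ a, (∀ v, Tr S (hnx s d α) v → ¬ Tr S a v) → ¬ Cons S c (cand (hnx s d α) a) := by
    intro a h h'
    obtain ⟨v, _, hv⟩ := (cons_iff S c _).1 h'
    rw [tr_and] at hv
    exact h v hv.1 hv.2
  refine ⟨α, ?_, ?_, ?_, ?_⟩
  · exact (cons_iff S c _).2 ⟨w', hw'e, (hnxI w').2 ⟨hw'd, hθt, hw'D, hEt⟩⟩
  · rcases hθd with h | h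
    · exact Or.inl (hnc _ fun v hv => h v ((hnxI v).1 hv).2.1)
    · exact Or.inr (hnc _ fun v hv => h v ((hnxI v).1 hv).2.1)
  · intro j hj i hi
    refine hnc _ fun v hv => ?_
    rw [tr_eq]
    exact (hDt v).1 ((hnxI v).1 hv).2.2.1 j hj i hi
  · rw [← hi0, ← hn]
    rcases hEd with h | ⟨j, hj, h⟩
    · exact Or.inl (hnc _ fun v hv => h v ((hnxI v).1 hv).2.2.2)
    · exact Or.inr ⟨j, hj, hnc _ fun v hv => h v ((hnxI v).1 hv).2.2.2⟩

end Pool.Agent.DP
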