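import Pool.Agent.DP.HenkA

set_option autoImplicit false

/-!
# The effective Henkin construction: computability

The functions exO, sb, hnx are computable, and the relations Cons, HValid, HStep are decidable if
the type of `c` is.
-/

open FirstOrder FirstOrder.Language

namespace Pool.Agent.DP

variable {L : FirstOrder.Language.{0, 0}}
variable [Encodable (Σ n, L.Functions n)] [Encodable (Σ n, L.Relations n)]

section

variable {α : Type} [Primcodable α]

@[fun_prop]
private theorem Hp.mul {f g : α → ℕ} (hf : Computable f) (hg : Computable g) :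
    Computable fun x => f x * g x := (Primrec.nat_mul.to_comp).comp hf hg

private theorem Hp.mod {f g : α → ℕ} (hf : Computable f) (hg : Computable g) :
    Computable fun x => f x % g x := (Primrec.nat_mod.to_comp).comp hf hg

private theorem Hp.deq {f g : α → ℕ} (hf : Computable f) (hg : Computable g) :
    Computable fun x => decide (f x = g x) :=
  (PrimrecRel.decide (Primrec.eq (α := ℕ))).to_comp.comp hf hg

@[fun_prop]
private theorem Hp.exO {f : α → ℕ} (hf : Computable f) : Computable fun x => exO (f x) := by
  have h1 : Computable fun p : α × (ℕ × ℕ) =>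
      bif decide (p.2.1 % 2 = 1) then DP.cex p.2.1 p.2.2 else p.2.2 :=
    Computable.cond (Hp.deq (Hp.mod (by fun_prop) (Computable.const 2)) (Computable.const 1))
      (by fun_prop) (by fun_prop)
  exact Computable.nat_rec (f := fun x => f x + 1) (g := f) (by fun_prop) hf h1.to₂

@[fun_prop]
private theorem Hp.sb {f g h : α → ℕ} (hf : Computable f) (hg : Computable g)
    (hh : Computable h) : Computable fun x => sb (f x) (g x) (h x) := by
  unfold DP.sb
  exact Computable.cond (Hp.deq hf hg) hh (by fun_prop)

@[fun_prop]
private theorem Hp.hnx {f g h : α → ℕ} (hf : Computable f) (hg : Computable g)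
    (hh : Computable h) : Computable fun x => hnx (f x) (g x) (h x) := by
  unfold DP.hnx
  fun_prop

private theorem cons1 {C : Type} {S : L.Structure C} {c : ℕ → C}
    (hq : ComputablePred fun n : ℕ => Tr S n c) {f : α → ℕ} (hf : Computable f) :
    ComputablePred fun x => Cons S c (f x) :=
  CP.comp hq (f := fun x => exO (f x)) (by fun_prop)

end

theorem hstep_comp {C : Type} {S : L.Structure C} {c : ℕ → C}
    (hq : ComputablePred fun n : ℕ => Tr S n c) :
    ComputablePred fun p : (ℕ × ℕ) × ℕ => HStep S c p.1.1 p.1.2 p.2 := by
  unfold HStep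
  refine CP.and (cons1 hq (by fun_prop)) (CP.and
    (CP.or (CP.not (cons1 hq (by fun_prop))) (CP.not (cons1 hq (by fun_prop))))
    (CP.and (CP.all (by fun_prop) (CP.all (by fun_prop) (CP.not (cons1 hq (by fun_prop)))))
    (CP.or (CP.not (cons1 hq (by fun_prop)))
      (CP.ex (by fun_prop) (CP.not (cons1 hq (by fun_prop)))))))

theorem hvalid_comp {C : Type} {S : L.Structure C} {c : ℕ → C}
    (hq : ComputablePred fun n : ℕ => Tr S n c) :
    ComputablePred fun p : ℕ × ℕ => HValid S c p.1 p.2 := by
  unfold HValid
  exact CP.and (cons1 hq (by fun_prop)) (CP.all (by fun_prop) (CP.all (by fun_prop)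
    (CP.not (cons1 hq (by fun_prop)))))

theorem cons_comp {C : Type} {S : L.Structure C} {c : ℕ → C}
    (hq : ComputablePred fun n : ℕ => Tr S n c) : ComputablePred fun a : ℕ => Cons S c a :=
  cons1 hq Computable.id

end Pool.Agent.DP
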