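import Pool.Agent.DP.HenkB

set_option autoImplicit false

/-!
# The effective Henkin construction

exists_hrun: the relation between a state and the data of a step is decidable (hstep_comp, hvalid_comp) and total (hstep_total),
so CP.choose gives a computable step function, which is iterated.

eff_henkin: exists_hrun for the sequence `c' k = c (k / 2)`. Let `D0 n := ¬ Cons S c' (cand (δ (n+1)) (cneg n))`. If `u` agrees
with `c'` on the even numbers and satisfies `δ t`, then `Tr S n u ↔ D0 n` for `n < t`. The formulas in the odd variables form a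
complete diagram with witnesses (model_of_diagram), and for every `i` the element `c i` is the value of an odd variable.
-/

open FirstOrder FirstOrder.Language

namespace Pool.Agent.DP

variable {L : FirstOrder.Language.{0, 0}}
variable [Encodable (Σ n, L.Functions n)] [Encodable (Σ n, L.Relations n)]

private theorem cp_mul {α : Type} [Primcodable α] {f g : α → ℕ} (hf : Computable f)
    (hg : Computable g) : Computable fun x => f x * g x :=
  (Primrec.nat_mul.to_comp).comp hf hg

attribute [local fun_prop] cp_mul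

private theorem cp_hnx {α : Type} [Primcodable α] {f g h : α → ℕ} (hf : Computable f)
    (hg : Computable g) (hh : Computable h) : Computable fun x => hnx (f x) (g x) (h x) := by
  unfold hnx
  fun_prop

attribute [local fun_prop] cp_hnx

private theorem depS_trunc {C : Type} (S : L.Structure C) (l a : ℕ) : DepS S l (trunc l a) := by
  intro w w' hw
  rw [tr_trunc, tr_trunc]
  constructor
  · rintro ⟨u, h1, h2⟩
    exact ⟨u, fun i hi => (h1 i hi).trans (hw i hi), h2⟩
  · rintro ⟨u, h1, h2⟩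
    exact ⟨u, fun i hi => (h1 i hi).trans (hw i hi).symm, h2⟩

private theorem depS_hnx {C : Type} {S : L.Structure C} {s d : ℕ} (α : ℕ)
    (hd : DepS S (2 * s + 1) d) : DepS S (2 * s + 3) (hnx s d α) := by
  intro w w' hw
  unfold hnx
  rw [tr_and, tr_and, hd w w' (fun i hi => hw i (by omega)), depS_trunc S _ _ w w' hw]

private theorem truncS_iff {C : Type} {S : L.Structure C} {l a : ℕ} (h : DepS S l a)
    (w : ℕ → C) : Tr S (trunc l a) w ↔ Tr S a w := by
  rw [tr_trunc]
  constructor
  · rintro ⟨u, h1, h2⟩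
    exact (h u w h1).1 h2
  · intro h1
    exact ⟨w, fun _ _ => rfl, h1⟩

private theorem cons_mono {C : Type} {S : L.Structure C} {c : ℕ → C} {a b : ℕ}
    (h : ∀ w, Tr S a w → Tr S b w) (hc : Cons S c a) : Cons S c b := by
  rw [cons_iff] at hc ⊢
  obtain ⟨w, h1, h2⟩ := hc
  exact ⟨w, h1, h w h2⟩

private theorem hvalid_next {C : Type} {S : L.Structure C} {c : ℕ → C} {s d α d₁ : ℕ}
    (h : HStep S c s d α) (hd₁ : ∀ w : ℕ → C, Tr S d₁ w ↔ Tr S (hnx s d α) w) :
    HValid S c (s + 1) d₁ := by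
  obtain ⟨h1, -, h3, -⟩ := h
  refine ⟨cons_mono (fun w => (hd₁ w).2) h1, fun j hj i hi hcon => ?_⟩
  refine h3 j hj i hi (cons_mono (fun w hw => ?_) hcon)
  rw [tr_and] at hw ⊢
  exact ⟨(hd₁ w).1 hw.1, hw.2⟩

theorem exists_hrun {C : Type} [Infinite C] (S : L.Structure C) (c : ℕ → C)
    (hq : ComputablePred fun n : ℕ => Tr S n c) :
    ∃ δ α : ℕ → ℕ, Computable δ ∧ (∀ s, DepS S (2 * s + 1) (δ s)) ∧ (∀ s, HValid S c s (δ s)) ∧
      (∀ s, HStep S c s (δ s) (α s)) ∧
      ∀ s w, Tr S (δ (s + 1)) w ↔ Tr S (hnx s (δ s) (α s)) w := by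
  obtain ⟨F, hF, hFp⟩ := CP.choose (α := ℕ × ℕ) (β := ℕ)
    (p := fun x y => HValid S c x.1 (trunc (2 * x.1 + 1) x.2) →
      HStep S c x.1 (trunc (2 * x.1 + 1) x.2) y)
    (CP.imp
      (CP.comp (hvalid_comp hq) (f := fun x : (ℕ × ℕ) × ℕ =>
        (x.1.1, trunc (2 * x.1.1 + 1) x.1.2)) (by fun_prop))
      (CP.comp (hstep_comp hq) (f := fun x : (ℕ × ℕ) × ℕ =>
        ((x.1.1, trunc (2 * x.1.1 + 1) x.1.2), x.2)) (by fun_prop)))
    (by
      intro x
      by_cases hv : HValid S c x.1 (trunc (2 * x.1 + 1) x.2)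
      · obtain ⟨a, h⟩ := hstep_total S c (depS_trunc S (2 * x.1 + 1) x.2) hv
        exact ⟨a, fun _ => h⟩
      · exact ⟨0, fun h => absurd h hv⟩)
  obtain ⟨st, hst0, hst, hstc⟩ : ∃ st : ℕ → ℕ, st 0 = cneg 0 ∧
      (∀ s, st (s + 1) = hnx s (trunc (2 * s + 1) (st s)) (F (s, st s))) ∧
      Computable st := by
    refine ⟨fun n => Nat.rec (motive := fun _ => ℕ) (cneg 0) (fun y IH =>
      hnx y (trunc (2 * y + 1) IH) (F (y, IH))) n, rfl, fun s => rfl, ?_⟩
    exact Computable.nat_rec (f := fun n : ℕ => n) (g := fun _ => cneg 0)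
      (h := fun _ p => hnx p.1 (trunc (2 * p.1 + 1) p.2) (F (p.1, p.2)))
      Computable.id (Computable.const _) (by
        show Computable fun q : ℕ × (ℕ × ℕ) => hnx q.2.1 (trunc (2 * q.2.1 + 1) q.2.2)
          (F (q.2.1, q.2.2))
        fun_prop)
  have hnx' : ∀ (s : ℕ) (w : ℕ → C), Tr S (trunc (2 * (s + 1) + 1) (st (s + 1))) w ↔
      Tr S (hnx s (trunc (2 * s + 1) (st s)) (F (s, st s))) w := by
    intro s w
    rw [hst s]
    exact truncS_iff (depS_hnx _ (depS_trunc S _ _)) w
  have hval : ∀ s, HValid S c s (trunc (2 * s + 1) (st s)) := by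
    intro s
    induction s with
    | zero =>
      rw [hst0]
      refine ⟨?_, fun j hj => absurd hj (Nat.not_lt_zero j)⟩
      rw [cons_iff]
      refine ⟨c, fun _ => rfl, ?_⟩
      rw [tr_trunc]
      exact ⟨c, fun _ _ => rfl, (tr_neg _ _ _).2 (tr_zero _ _)⟩
    | succ s ih => exact hvalid_next (hFp (s, st s) ih) (hnx' s)
  refine ⟨fun s => trunc (2 * s + 1) (st s), fun s => F (s, st s), ?_, fun s => depS_trunc S _ _,
    hval, fun s => hFp (s, st s) (hval s), hnx'⟩
  fun_prop

/-- renaming of all variables by a primitive recursive function -/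
private theorem exists_rg (g : ℕ → ℕ) (hg : Primrec g) : ∃ r : ℕ → ℕ, Computable r ∧
    ∀ (A : Type) (S : L.Structure A) (n : ℕ) (w : ℕ → A),
      Tr S (r n) w ↔ Tr S n fun i => w (g i) := by
  obtain ⟨rn, h1, h2⟩ := exists_rn
  refine ⟨fun n => rn n ((List.range (n + 1)).map g), ?_, fun A S n w => ?_⟩
  · have h3 : Primrec fun n : ℕ => (List.range (n + 1)).map g :=
      Primrec.list_map (Primrec.list_range.comp Primrec.succ) (hg.comp Primrec.snd).to₂
    exact h1.comp (Computable.pair Computable.id h3.to_comp)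
  · rw [h2 L A S]
    apply tr_congr
    intro i hi
    have hi' : i < n + 1 := by omega
    congr 1
    simp [List.getD, List.getElem?_map, List.getElem?_range hi']

private theorem get_good {C : Type} {S : L.Structure C} {c : ℕ → C} {s d : ℕ}
    (h : HValid S c s d) : ∃ u : ℕ → C, (∀ i, u (2 * i) = c (2 * i)) ∧ Tr S d u :=
  (cons_iff S c d).1 h.1

/-- consequences of an inconsistency -/
private theorem of_not_cons {C : Type} {S : L.Structure C} {c u : ℕ → C} {a b : ℕ}
    (h : ¬ Cons S c (cand a b)) (h1 : ∀ i, u (2 * i) = c (2 * i)) (h2 : Tr S a u) :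
    ¬ Tr S b u := by
  intro h3
  refine h ?_
  rw [cons_iff]
  exact ⟨u, h1, (tr_and _ _ _ _).2 ⟨h2, h3⟩⟩

/-- a sequence with a computable type is realized in a decidable structure -/
theorem eff_henkin {C : Type} [Infinite C] (S : L.Structure C) (c : ℕ → C)
    (hq : ComputablePred fun n : ℕ => Tr S n c) :
    ∃ N : L.Structure ℕ, Decid N ∧ ∃ d : ℕ → ℕ, ∀ n, Tr N n d ↔ Tr S n c := by
  classical
  obtain ⟨r2, hr2, hr2'⟩ := exists_rg (L := L) (fun i => i / 2)
    (Primrec.nat_div.comp Primrec.id (Primrec.const 2))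
  obtain ⟨r1, hr1, hr1'⟩ := exists_rg (L := L) (fun i => 2 * i + 1)
    (Primrec.nat_add.comp (Primrec.nat_mul.comp (Primrec.const 2) Primrec.id) (Primrec.const 1))
  set c' : ℕ → C := fun k => c (k / 2) with hc'
  have hc'e : ∀ i, c' (2 * i) = c i := by
    intro i
    rw [hc']
    show c (2 * i / 2) = c i
    congr 1
    omega
  have hq' : ComputablePred fun n : ℕ => Tr S n c' :=
    CP.of_eq (CP.comp hq (f := fun n => r2 n) hr2) fun n => (hr2' C S n c).symm
  obtain ⟨δ, α, hδc, -, hval, hstep, hnext⟩ := exists_hrun S c' hq'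
  have hdec : ∀ s w, Tr S (δ (s + 1)) w → Tr S (δ s) w := by
    intro s w h
    have h1 := (hnext s w).1 h
    unfold hnx at h1
    exact ((tr_and _ _ _ _).1 h1).1
  have hmon : ∀ s t, s ≤ t → ∀ w, Tr S (δ t) w → Tr S (δ s) w := by
    intro s t hst
    induction t, hst using Nat.le_induction with
    | base => exact fun w h => h
    | succ t _ ih => exact fun w h => ih w (hdec t w h)
  have hD0 : ∀ (u : ℕ → C) (t : ℕ), (∀ i, u (2 * i) = c' (2 * i)) → Tr S (δ t) u →
      ∀ n < t, (Tr S n u ↔ ¬ Cons S c' (cand (δ (n + 1)) (cneg n))) := by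
    intro u t h1 h2 n hn
    have h3 := hmon (n + 1) t hn u h2
    have h4 := (hnext n u).1 h3
    constructor
    · intro h5 h6
      have h7 : ¬ Cons S c' (cand (hnx n (δ n) (α n)) (cneg n)) := by
        rcases (hstep n).2.1 with h7 | h7
        · exact absurd h5 (of_not_cons h7 h1 h4)
        · exact h7
      refine h7 (cons_mono (fun w hw => ?_) h6)
      rw [tr_and] at hw ⊢
      exact ⟨(hnext n w).1 hw.1, hw.2⟩
    · intro h5
      have h6 := of_not_cons h5 h1 h3
      rw [tr_neg, not_not] at h6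
      exact h6
  -- the witnesses
  have hwit : ∀ i n : ℕ, (∃ u t, Nat.pair i n < t ∧ (∀ i, u (2 * i) = c' (2 * i)) ∧
      Tr S (δ t) u ∧ Tr S (cex i n) u) → ∃ j, ∀ (u : ℕ → C) (t : ℕ), Nat.pair i n < t →
        (∀ i, u (2 * i) = c' (2 * i)) → Tr S (δ t) u →
        Tr S n (Function.update u i (u (2 * j + 1))) := by
    rintro i n ⟨u, t, ht, h1, h2, h3⟩
    have h4 := (hstep (Nat.pair i n)).2.2.2
    rw [Nat.unpair_pair] at h4
    rcases h4 with h4 | ⟨j, -, h4⟩
    · exact absurd h3 (of_not_cons h4 h1 ((hnext _ u).1 (hmon _ t ht u h2)))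
    · refine ⟨j, fun u t ht h1 h2 => ?_⟩
      have h5 := of_not_cons h4 h1 ((hnext _ u).1 (hmon _ t ht u h2))
      rw [tr_neg, not_not] at h5
      exact (tr_sb S _ _ _ u).1 h5
  have hgood : ∀ t, ∃ u : ℕ → C, (∀ i, u (2 * i) = c' (2 * i)) ∧ Tr S (δ t) u := fun t =>
    get_good (hval t)
  have hDg : ∀ (u : ℕ → C) (t : ℕ), (∀ i, u (2 * i) = c' (2 * i)) → Tr S (δ t) u →
      ∀ n, r1 n < t → (Tr S n (fun i => u (2 * i + 1)) ↔
        ¬ Cons S c' (cand (δ (r1 n + 1)) (cneg (r1 n)))) := by
    intro u t h1 h2 n hn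
    rw [← hD0 u t h1 h2 (r1 n) hn]
    exact (hr1' C S n u).symm
  obtain ⟨N, hN⟩ := model_of_diagram S
    (fun n => ¬ Cons S c' (cand (δ (r1 n + 1)) (cneg (r1 n)))) (by
      intro s
      obtain ⟨t, ht⟩ : ∃ t, ∀ n < s, r1 n < t := by
        refine ⟨∑ n ∈ Finset.range s, (r1 n + 1), fun n hn => ?_⟩
        have h1 : r1 n + 1 ≤ ∑ n ∈ Finset.range s, (r1 n + 1) :=
          Finset.single_le_sum (f := fun n => r1 n + 1) (fun _ _ => Nat.zero_le _)
            (Finset.mem_range.2 hn)
        omega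
      obtain ⟨u, h1, h2⟩ := hgood t
      exact ⟨fun i => u (2 * i + 1), fun n hn => hDg u t h1 h2 n (ht n hn)⟩) (by
      have key : ∀ i j, i < j →
          ¬ ¬ Cons S c' (cand (δ (r1 (ceq i j) + 1)) (cneg (r1 (ceq i j)))) := by
        intro i j hij hcon
        obtain ⟨u, h1, h2⟩ := hgood (r1 (ceq i j) + j + 1)
        have h3 := (hDg u _ h1 h2 (ceq i j) (by omega)).2 hcon
        rw [tr_eq] at h3
        refine of_not_cons ((hval (r1 (ceq i j) + j + 1)).2 j (by omega) i hij) h1 h2 ?_
        rw [tr_eq]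
        exact h3
      have key2 : ∀ i j, j < i →
          ¬ ¬ Cons S c' (cand (δ (r1 (ceq i j) + 1)) (cneg (r1 (ceq i j)))) := by
        intro i j hij hcon
        obtain ⟨u, h1, h2⟩ := hgood (r1 (ceq i j) + i + 1)
        have h3 := (hDg u _ h1 h2 (ceq i j) (by omega)).2 hcon
        rw [tr_eq] at h3
        refine of_not_cons ((hval (r1 (ceq i j) + i + 1)).2 i (by omega) j hij) h1 h2 ?_
        rw [tr_eq]
        exact h3.symm
      intro i j h
      by_contra hne
      rcases lt_or_gt_of_ne hne with h1 | h1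
      · exact key i j h1 h
      · exact key2 i j h1 h) (by
      intro i n h
      obtain ⟨n1, hn1⟩ := exists_ren (L := L) n (fun k => if k = i then 0 else 2 * k + 1)
      have hup : ∀ (u : ℕ → C) (x : C), (fun k => Function.update u 0 x
          ((fun k => if k = i then 0 else 2 * k + 1) k)) =
          Function.update (fun k => u (2 * k + 1)) i x := by
        intro u x
        funext k
        by_cases hk : k = i
        · subst hk
          simp
        · rw [Function.update_of_ne hk]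
          show Function.update u 0 x (if k = i then 0 else 2 * k + 1) = u (2 * k + 1)
          rw [if_neg hk, Function.update_of_ne (by omega)]
      obtain ⟨j, hj⟩ := hwit 0 n1 (by
        obtain ⟨u, h1, h2⟩ := hgood (r1 (cex i n) + Nat.pair 0 n1 + 1)
        refine ⟨u, _, ?_, h1, h2, ?_⟩
        · omega
        · have h3 := (hDg u _ h1 h2 (cex i n) (by omega)).2 h
          rw [tr_ex] at h3 ⊢
          obtain ⟨x, hx⟩ := h3
          refine ⟨x, ?_⟩
          rw [hn1, hup]
          exact hx)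
      refine ⟨j, ?_⟩
      obtain ⟨u, h1, h2⟩ := hgood (r1 (sb i j n) + Nat.pair 0 n1 + 1)
      refine (hDg u _ h1 h2 (sb i j n) (by omega)).1 ?_
      rw [tr_sb]
      have h3 := hj u _ (by omega : Nat.pair 0 n1 < r1 (sb i j n) + Nat.pair 0 n1 + 1) h1 h2
      rw [hn1, hup] at h3
      exact h3)
  refine ⟨N, ?_, ?_⟩
  · apply decid_of_id
    refine CP.of_eq (CP.not (CP.comp (cons_comp hq')
      (f := fun n => cand (δ (r1 n + 1)) (cneg (r1 n))) ?_)) hN
    fun_prop
  · have hd : ∀ i : ℕ, ∃ j T, ∀ (u : ℕ → C) (t : ℕ), T < t →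
        (∀ i, u (2 * i) = c' (2 * i)) → Tr S (δ t) u → u (2 * j + 1) = c i := by
      intro i
      obtain ⟨j, hj⟩ := hwit (2 * i + 1) (ceq (2 * i + 1) (2 * i)) (by
        obtain ⟨u, h1, h2⟩ := hgood (Nat.pair (2 * i + 1) (ceq (2 * i + 1) (2 * i)) + 1)
        refine ⟨u, _, Nat.lt_succ_self _, h1, h2, ?_⟩
        rw [tr_ex]
        refine ⟨u (2 * i), ?_⟩
        rw [tr_eq, Function.update_self, Function.update_of_ne (by omega)])
      refine ⟨j, Nat.pair (2 * i + 1) (ceq (2 * i + 1) (2 * i)), fun u t ht h1 h2 => ?_⟩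
      have h3 := hj u t ht h1 h2
      rw [tr_eq, Function.update_self, Function.update_of_ne (by omega), h1, hc'e] at h3
      exact h3
    choose d T hdT using hd
    refine ⟨d, fun n => ?_⟩
    obtain ⟨n', hn'⟩ := exists_ren (L := L) n d
    obtain ⟨u, h1, h2⟩ := hgood (r1 n' + ∑ i ∈ Finset.range (n + 1), (T i + 1) + 1)
    have h3 := hn' ℕ N (fun i => i)
    have h4 := hN n'
    have h5 := hDg u _ h1 h2 n' (by omega)
    have h6 := hn' C S (fun i => u (2 * i + 1))
    have h7 : (Tr S n fun i => u (2 * d i + 1)) ↔ Tr S n c := by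
      apply tr_congr
      intro i hi
      refine hdT i u _ ?_ h1 h2
      have h8 : T i + 1 ≤ ∑ i ∈ Finset.range (n + 1), (T i + 1) :=
        Finset.single_le_sum (f := fun i => T i + 1) (fun _ _ => Nat.zero_le _)
          (Finset.mem_range.2 (by omega))
      omega
    exact (h3.symm.trans (h4.trans (h5.symm.trans h6))).trans h7

end Pool.Agent.DP
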