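import Pool.Agent.DP.Exst

set_option autoImplicit false

/-!
# A run of the construction: stabilization

The part of the state which is preserved by a requirement stabilizes.
-/

open FirstOrder FirstOrder.Language

namespace Pool.Agent.DP

variable {L : FirstOrder.Language.{0, 0}}
variable [Encodable (Σ n, L.Functions n)] [Encodable (Σ n, L.Relations n)]
variable {M : L.Structure ℕ} {Q : ℕ → L.Structure ℕ} {δ σ α ρ : ℕ → ℕ}

theorem Run.tr (h : Run M Q δ σ α ρ) (s : ℕ) : Tr M (δ s) (ent (σ s)) := (h.valid s).1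

theorem Run.inj (h : Run M Q δ σ α ρ) (s : ℕ) (w : ℕ → ℕ) (hw : Tr M (δ s) w) :
    ∀ j < s + 1, ∀ i < j, w i ≠ w j := by
  exact (inj_iff (h.dep s)).1 (h.valid s).2 w hw

theorem Run.imp (h : Run M Q δ σ α ρ) {s t : ℕ} (hst : s ≤ t) (S : L.Structure ℕ) (w : ℕ → ℕ)
    (hw : Tr S (δ t) w) : Tr S (δ s) w := by
  induction t, hst using Nat.le_induction with
  | base => exact hw
  | succ t hst ih => exact ih ((tr_nx S w).1 ((h.nxt t S w).1 hw)).1

/-- the formula with number `n` is decided by `δ (n + 1)` in `M` -/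
theorem Run.decides (h : Run M Q δ σ α ρ) (n : ℕ) :
    (∀ w, Tr M (δ (n + 1)) w → ¬ Tr M n w) ∨ ∀ w, Tr M (δ (n + 1)) w → Tr M n w := by
  obtain ⟨_, _, _, h4, _⟩ := h.step n
  have hd : Dep L (n + 2) (nx n (δ n) (α n)) := dep_nx (α n) (h.dep n)
  have hn : Dep L (n + 2) n := dep_mono (dep_self n) (by omega)
  rcases h4 with h4 | h4
  · left
    intro w hw
    exact (dec_iff hd hn).1 h4 w ((h.nxt n M w).1 hw)
  · right
    intro w hw
    have h5 := (dec_iff hd (dep_neg hn)).1 h4 w ((h.nxt n M w).1 hw)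
    by_contra h6
    exact h5 ((tr_neg M n w).2 h6)

/-- stabilization of the preserved part -/
theorem Run.stab (h : Run M Q δ σ α ρ) (r s0 : ℕ) (h0 : ∀ s ≥ s0, r ≤ ρ s) :
    ∃ s1 ≥ s0, r ≤ hgt r (σ s1) (s1 + 1) ∧
      (∀ y < r, ∃ i < hgt r (σ s1) (s1 + 1), ent (σ s1) i = y) ∧
      ∀ s ≥ s1, hgt r (σ s) (s + 1) = hgt r (σ s1) (s1 + 1) ∧
        ∀ i < hgt r (σ s1) (s1 + 1), ent (σ s) i = ent (σ s1) i := by
  have ha : ∀ s ≥ s0, ∀ i < hgt r (σ s) (s + 1), ent (σ (s + 1)) i = ent (σ s) i := by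
    intro s hs i hi
    obtain ⟨_, _, _, _, h5, _⟩ := h.step s
    exact h5 i (lt_of_lt_of_le hi (hgt_mono (h0 s hs)))
  have hb : ∀ s ≥ s0, hgt r (σ s) (s + 1) ≤ hgt r (σ (s + 1)) (s + 1 + 1) := by
    intro s hs
    apply hgt_le_of
    intro a hal hac
    have h1 : a < hgt r (σ s) (s + 1) := lt_hgt hal hac
    apply lt_hgt (by omega)
    rw [ha s hs a h1]
    exact hac
  have hc : ∀ s ≥ s0, ∀ t ≥ s, hgt r (σ s) (s + 1) ≤ hgt r (σ t) (t + 1) ∧
      ∀ i < hgt r (σ s) (s + 1), ent (σ t) i = ent (σ s) i := by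
    intro s hs t hst
    induction t, hst using Nat.le_induction with
    | base => exact ⟨le_rfl, fun _ _ => rfl⟩
    | succ t hst ih =>
      refine ⟨ih.1.trans (hb t (le_trans hs hst)), fun i hi => ?_⟩
      rw [ha t (le_trans hs hst) i (lt_of_lt_of_le hi ih.1)]
      exact ih.2 i hi
  have hd : ∀ n ≤ r, ∃ s ≥ s0, ∀ y < n, ∃ i < s + 1, ent (σ s) i = y := by
    intro n
    induction n with
    | zero => exact fun _ => ⟨s0, le_rfl, fun y hy => absurd hy (Nat.not_lt_zero y)⟩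
    | succ n ih =>
      intro hn
      obtain ⟨s, hs, hy⟩ := ih (by omega)
      have hy1 : ∀ y < n, ∃ i < s + 1, ent (σ (s + 1)) i = y := by
        intro y hyn
        obtain ⟨i, hi, hiy⟩ := hy y hyn
        refine ⟨i, hi, ?_⟩
        rw [ha s hs i (lt_hgt hi (Or.inr (by omega)))]
        exact hiy
      obtain ⟨_, _, _, _, _, h6, _⟩ := h.step s
      refine ⟨s + 1, le_trans hs (Nat.le_succ s), fun y hyn => ?_⟩
      rcases Nat.lt_succ_iff_lt_or_eq.1 hyn with hyn | hyn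
      · obtain ⟨i, hi, hiy⟩ := hy1 y hyn
        exact ⟨i, by omega, hiy⟩
      · subst hyn
        rcases Nat.lt_trichotomy (ent (σ (s + 1)) (s + 1)) y with h7 | h7 | h7
        · obtain ⟨i, hi, hiy⟩ := hy1 _ h7
          exact absurd hiy (h.inj (s + 1) _ (h.tr (s + 1)) (s + 1) (by omega) i hi)
        · exact ⟨s + 1, by omega, h7⟩
        · obtain ⟨i, hi, hiy⟩ := h6 y h7
          exact ⟨i, by omega, hiy⟩
  obtain ⟨s, hs, hy⟩ := hd r le_rfl
  have hm : s ≤ max s r := le_max_left s r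
  have hr : r ≤ max s r := le_max_right s r
  have hm0 : max s r ≥ s0 := le_trans hs hm
  have hy1 : ∀ y < r, ∃ i < hgt r (σ (max s r)) (max s r + 1), ent (σ (max s r)) i = y := by
    intro y hyr
    obtain ⟨i, hi, hiy⟩ := hy y hyr
    have h1 : i < hgt r (σ s) (s + 1) := lt_hgt hi (Or.inr (by omega))
    obtain ⟨h2, h3⟩ := hc s hs (max s r) hm
    exact ⟨i, lt_of_lt_of_le h1 h2, (h3 i h1).trans hiy⟩
  have hrh : r ≤ hgt r (σ (max s r)) (max s r + 1) := by
    rcases Nat.eq_zero_or_pos r with h1 | h1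
    · omega
    · have h2 : r - 1 < hgt r (σ (max s r)) (max s r + 1) :=
        lt_hgt (by omega) (Or.inl (by omega))
      omega
  refine ⟨max s r, hm0, hrh, hy1, fun t ht => ?_⟩
  obtain ⟨h2, h3⟩ := hc (max s r) hm0 t ht
  refine ⟨le_antisymm ?_ h2, h3⟩
  apply hgt_le_of
  intro a hal hac
  rcases hac with hac | hac
  · exact lt_of_lt_of_le hac hrh
  · obtain ⟨i, hi, hiy⟩ := hy1 _ hac
    have h4 : ent (σ t) i = ent (σ t) a := (h3 i hi).trans hiy
    have h5 : i < t + 1 := by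
      have h6 := hgt_le r (σ (max s r)) (max s r + 1)
      omega
    rcases Nat.lt_trichotomy i a with h7 | h7 | h7
    · exact absurd h4 (h.inj t _ (h.tr t) a hal i h7)
    · exact h7 ▸ hi
    · exact absurd h4.symm (h.inj t _ (h.tr t) i h5 a h7)

end Pool.Agent.DP
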