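import Pool.Agent.DP.LimA

set_option autoImplicit false

/-!
# A run of the construction: every requirement acts finitely often

A tuple which is dead stays dead as long as the preserved part does not change, and every action of the requirement `r` kills a new tuple; the tuples
are bounded by fixed values, so there are only finitely many actions after the stabilization of the preserved part.
-/

open FirstOrder FirstOrder.Language

namespace Pool.Agent.DP

variable {L : FirstOrder.Language.{0, 0}}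
variable [Encodable (Σ n, L.Functions n)] [Encodable (Σ n, L.Relations n)]
variable {M : L.Structure ℕ} {Q : ℕ → L.Structure ℕ} {δ σ α ρ : ℕ → ℕ}

private theorem blk_succ {e r s b : ℕ}
    (hh : hgt r (σ (s + 1)) (s + 2) = hgt r (σ s) (s + 1)) (hb : Blk e s r (σ s) b) :
    Blk e (s + 1) r (σ (s + 1)) b := by
  obtain ⟨h1, h2, h3⟩ := hb
  refine ⟨by omega, fun i hi => cvg_mono (h2 i hi) (Nat.le_succ s), ?_⟩
  rw [show s + 1 + 1 = s + 2 from rfl, hh]
  exact h3

/-- a tuple which is dead stays dead while the preserved part does not change -/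
theorem Run.killed_mono (h : Run M Q δ σ α ρ) {e j r s t : ℕ}
    (hh : hgt r (σ (s + 1)) (s + 2) = hgt r (σ s) (s + 1))
    (hk : Killed Q e j s r (σ s) t (δ s)) : Killed Q e j (s + 1) r (σ (s + 1)) t (δ (s + 1)) := by
  obtain ⟨b, hb1, hb2, hd⟩ := hk
  refine ⟨b, by omega, blk_succ hh hb2, ?_⟩
  intro y hy hbox hagr htr
  rw [Bx_mono hb2.2.1 (Nat.le_succ s)] at hy
  rw [Box_mono hb2.2.1 (Nat.le_succ s)] at hbox
  rw [show s + 1 + 1 = s + 2 from rfl, hh] at hagr
  obtain ⟨w, hw1, hw2⟩ := (exB_iff (h.dep (s + 1)) (Q j) (ent y)).1 htr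
  refine hd y hy hbox hagr ((exB_iff (h.dep s) (Q j) (ent y)).2 ⟨w, hw1, ?_⟩)
  exact ((tr_nx (Q j) w).1 ((h.nxt s (Q j) w).1 hw2)).1

/-- progress at stage `s` -/
theorem Run.kill_killed (h : Run M Q δ σ α ρ) {r s : ℕ}
    (hh : hgt r (σ (s + 1)) (s + 2) = hgt r (σ s) (s + 1))
    (hk : Kill Q s (δ s) (σ s) (nx s (δ s) (α s)) r) :
    ∃ t, (∀ i < hgt r (σ s) (s + 1), cvg r.unpair.1 s i = true ∧ ent t i ≤ bd r.unpair.1 s i) ∧
      ¬ Killed Q r.unpair.1 r.unpair.2 s r (σ s) t (δ s) ∧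
      Killed Q r.unpair.1 r.unpair.2 (s + 1) r (σ (s + 1)) t (δ (s + 1)) := by
  obtain ⟨b, hb1, hb2, t, ht1, ht2, ht3, hd⟩ := hk
  refine ⟨t, fun i hi => ⟨hb2.2.1 i (lt_of_lt_of_le hi hb2.2.2), ht2 i (lt_of_lt_of_le hi hb2.2.2)⟩,
    ht3, b, by omega, blk_succ hh hb2, ?_⟩
  intro y hy hbox hagr htr
  rw [Bx_mono hb2.2.1 (Nat.le_succ s)] at hy
  rw [Box_mono hb2.2.1 (Nat.le_succ s)] at hbox
  rw [show s + 1 + 1 = s + 2 from rfl, hh] at hagr
  obtain ⟨w, hw1, hw2⟩ := (exB_iff (h.dep (s + 1)) (Q r.unpair.2) (ent y)).1 htr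
  refine hd y hy hbox hagr ((exB_iff (dep_nx (α s) (h.dep s)) (Q r.unpair.2) (ent y)).2
    ⟨w, hw1, ?_⟩)
  exact (h.nxt s (Q r.unpair.2) w).1 hw2

theorem killed_congr {e j s r x t t' d : ℕ} (h : ∀ i < hgt r x (s + 1), ent t i = ent t' i)
    (hk : Killed Q e j s r x t d) : Killed Q e j s r x t' d := by
  obtain ⟨b, hb1, hb2, hd⟩ := hk
  refine ⟨b, hb1, hb2, fun y hy hbox hagr => hd y hy hbox fun i hi => ?_⟩
  rw [hagr i hi, h i hi]

/-- every requirement acts only finitely often -/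
theorem Run.finact (h : Run M Q δ σ α ρ) (r : ℕ) : ∃ s0, ∀ s ≥ s0, r ≤ ρ s := by
  induction r with
  | zero => exact ⟨0, fun s _ => Nat.zero_le _⟩
  | succ r ih =>
    obtain ⟨s0, hs0⟩ := ih
    obtain ⟨s1, hs10, _, _, hst⟩ := h.stab r s0 hs0
    set k := hgt r (σ s1) (s1 + 1) with hk
    have hhgt : ∀ s ≥ s1, hgt r (σ s) (s + 1) = k := fun s hs => (hst s hs).1
    have hhh : ∀ s ≥ s1, hgt r (σ (s + 1)) (s + 2) = hgt r (σ s) (s + 1) := by
      intro s hs
      rw [hhgt s hs]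
      exact hhgt (s + 1) (by omega)
    by_contra hcon
    push Not at hcon
    have hS : ∀ m, ∃ s, m ≤ s ∧ s1 ≤ s ∧ r ≤ s ∧ ρ s = r := by
      intro m
      obtain ⟨s, hs, hlt⟩ := hcon (max m (max s1 r))
      have h1 : m ≤ s := le_trans (le_max_left _ _) hs
      have h2 : s1 ≤ s := le_trans (le_trans (le_max_left _ _) (le_max_right _ _)) hs
      have h3 : r ≤ s := le_trans (le_trans (le_max_right _ _) (le_max_right _ _)) hs
      have h4 := hs0 s (by omega)
      exact ⟨s, h1, h2, h3, by omega⟩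
    set S : Set ℕ := {s | s1 ≤ s ∧ r ≤ s ∧ ρ s = r} with hSdef
    have hinf : S.Infinite := by
      rw [Set.infinite_iff_exists_gt]
      intro a
      obtain ⟨s, hs1, hs2⟩ := hS (a + 1)
      exact ⟨s, hs2, by omega⟩
    have hkill : ∀ s ∈ S, ∃ t, (∀ i < k, cvg r.unpair.1 s i = true ∧ ent t i ≤ bd r.unpair.1 s i) ∧
        ¬ Killed Q r.unpair.1 r.unpair.2 s r (σ s) t (δ s) ∧
        Killed Q r.unpair.1 r.unpair.2 (s + 1) r (σ (s + 1)) t (δ (s + 1)) := by
      intro s hs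
      obtain ⟨hs1, hs2, hs3⟩ := hs
      have hK : Kill Q s (δ s) (σ s) (nx s (δ s) (α s)) r := by
        rcases (h.step s).2.2.2.2.2.2.2 with h1 | h1
        · omega
        · rwa [hs3] at h1
      have := h.kill_killed (hhh s hs1) hK
      rwa [hhgt s hs1] at this
    choose! t ht using hkill
    obtain ⟨sm, _, hsm1, hsm2, hsm3⟩ := hS 0
    have hsmS : sm ∈ S := ⟨hsm1, hsm2, hsm3⟩
    set S' : Set ℕ := {s ∈ S | sm ≤ s} with hS'
    have hinf' : S'.Infinite := by
      rw [Set.infinite_iff_exists_gt]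
      intro a
      obtain ⟨s, hs1, hs2⟩ := hS (max (a + 1) sm)
      exact ⟨s, ⟨hs2, le_trans (le_max_right _ _) hs1⟩,
        lt_of_lt_of_le (Nat.lt_succ_self a) (le_trans (le_max_left _ _) hs1)⟩
    have hmaps : Set.MapsTo (fun s => fun i : Fin k => ent (t s) i) S'
        (Set.Icc (0 : Fin k → ℕ) fun i => bd r.unpair.1 sm i) := by
      intro s hs
      refine ⟨fun i => Nat.zero_le _, fun i => ?_⟩
      have h1 := (ht s hs.1).1 i i.2
      have h2 := (ht sm hsmS).1 i i.2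
      have h3 := bd_mono h2.1 hs.2
      show ent (t s) i ≤ bd r.unpair.1 sm i
      rw [← h3]
      exact h1.2
    obtain ⟨x, hx, y, hy, hxy, hf⟩ :=
      hinf'.exists_lt_map_eq_of_mapsTo hmaps (Set.finite_Icc _ _)
    have hmono : ∀ n, x + 1 ≤ n →
        Killed Q r.unpair.1 r.unpair.2 n r (σ n) (t x) (δ n) := by
      intro n hn
      induction n, hn using Nat.le_induction with
      | base => exact (ht x hx.1).2.2
      | succ n hn ihn => exact h.killed_mono (hhh n (by have := hx.1.1; omega)) ihn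
    apply (ht y hy.1).2.1
    refine killed_congr (t := t x) ?_ (hmono y hxy)
    intro i hi
    rw [hhgt y hy.1.1] at hi
    exact congrFun hf ⟨i, hi⟩

end Pool.Agent.DP
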