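import Pool.Agent.DP.LimB

set_option autoImplicit false

/-!
# A run of the construction: the limit

Every entry stabilizes, the limit is a bijection, and it satisfies all formulas `δ s`.
-/

open FirstOrder FirstOrder.Language

namespace Pool.Agent.DP

variable {L : FirstOrder.Language.{0, 0}}
variable [Encodable (Σ n, L.Functions n)] [Encodable (Σ n, L.Relations n)]
variable {M : L.Structure ℕ} {Q : ℕ → L.Structure ℕ} {δ σ α ρ : ℕ → ℕ}

private theorem stab_all (h : Run M Q δ σ α ρ) (l : ℕ) :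
    ∃ s1 k, l ≤ k ∧ (∀ y < l, ∃ i < k, ent (σ s1) i = y) ∧
      ∀ s ≥ s1, ∀ i < k, ent (σ s) i = ent (σ s1) i := by
  obtain ⟨s0, h0⟩ := h.finact l
  obtain ⟨s1, _, hk, hy, hs⟩ := h.stab l s0 h0
  exact ⟨s1, hgt l (σ s1) (s1 + 1), hk, hy, fun s hs1 i hi => (hs s hs1).2 i hi⟩

/-- the limit -/
theorem Run.limit (h : Run M Q δ σ α ρ) :
    ∃ f : ℕ ≃ ℕ, ∀ l, ∃ s1, ∀ s ≥ s1, ∀ i < l, ent (σ s) i = f i := by
  choose S K hK hY hS using stab_all h
  have hc : ∀ l i, i < K l → ∀ s ≥ S l, ent (σ s) i = ent (σ (S (i + 1))) i := by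
    intro l i hi s hs
    have h1 := hS l (max (S l) (S (i + 1))) (le_max_left _ _) i hi
    have h2 := hS (i + 1) (max (S l) (S (i + 1))) (le_max_right _ _) i (hK (i + 1))
    rw [hS l s hs i hi, ← h1, h2]
  have hinj : Function.Injective (fun i => ent (σ (S (i + 1))) i) := by
    have key : ∀ i j, i < j → ent (σ (S (i + 1))) i ≠ ent (σ (S (j + 1))) j := by
      intro i j hij he
      have hs := le_max_left (S (j + 1)) (j + 1)
      have e1 := hc (j + 1) i (lt_of_lt_of_le (by omega) (hK (j + 1))) _ hs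
      have e2 := hc (j + 1) j (hK (j + 1)) _ hs
      have hj : j < max (S (j + 1)) (j + 1) + 1 := by
        have := le_max_right (S (j + 1)) (j + 1)
        omega
      refine h.inj _ _ (h.tr _) j hj i hij ?_
      rw [e1, e2]
      exact he
    intro i j he
    rcases lt_trichotomy i j with hij | hij | hij
    · exact absurd he (key i j hij)
    · exact hij
    · exact absurd he.symm (key j i hij)
  have hsur : Function.Surjective (fun i => ent (σ (S (i + 1))) i) := by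
    intro y
    obtain ⟨i, hi, he⟩ := hY (y + 1) y (Nat.lt_succ_self y)
    refine ⟨i, ?_⟩
    show ent (σ (S (i + 1))) i = y
    rw [← hc (y + 1) i hi _ le_rfl, he]
  refine ⟨Equiv.ofBijective _ ⟨hinj, hsur⟩, ?_⟩
  intro l
  refine ⟨S l, ?_⟩
  intro s hs i hi
  exact hc l i (lt_of_lt_of_le hi (hK l)) s hs

theorem Run.tr_limit (h : Run M Q δ σ α ρ) (f : ℕ ≃ ℕ)
    (hf : ∀ l, ∃ s1, ∀ s ≥ s1, ∀ i < l, ent (σ s) i = f i) (s : ℕ) : Tr M (δ s) f := by
  obtain ⟨s1, hs1⟩ := hf (s + 1)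
  have h1 := h.imp (le_max_left s s1) M _ (h.tr (max s s1))
  exact (h.dep s M _ _ (hs1 _ (le_max_right s s1))).1 h1

theorem Run.tr_limit_iff (h : Run M Q δ σ α ρ) (f : ℕ ≃ ℕ)
    (hf : ∀ l, ∃ s1, ∀ s ≥ s1, ∀ i < l, ent (σ s) i = f i) (n : ℕ) :
    Tr M n f ↔ Tr M n (ent (σ (n + 1))) := by
  have h1 := h.tr_limit f hf (n + 1)
  have h2 := h.tr (n + 1)
  rcases h.decides n with hd | hd
  · exact ⟨fun hx => absurd hx (hd _ h1), fun hx => absurd hx (hd _ h2)⟩
  · exact ⟨fun _ => hd _ h2, fun _ => hd _ h1⟩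

end Pool.Agent.DP
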