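import Pool.Agent.DP.Codes

set_option autoImplicit false

/-!
# Compactness for formulas with named variables

Plan. Take the ultrapower of `S` (an ultraproduct over ℕ with a nonprincipal ultrafilter,
`Filter.hyperfilter ℕ`) with Mathlib's structure FirstOrder.Language.Ultraproduct.structure. By induction on
`φ` (term_realize_cast, relMap_quotient_mk', Ultrafilter.eventually_imp; for `all` as in
boundedFormula_realize_cast of Mathlib/ModelTheory/Ultraproducts.lean): Sat of `φ` in the
ultrapower at the classes of `w · k` iff Sat of `φ` in `S` at `w i` for almost all `i`. Here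
`Function.update` of classes is the class of the updated sequences. The map `emb` is the diagonal.
-/

open FirstOrder FirstOrder.Language

namespace Pool.Agent.DP

variable {L : FirstOrder.Language.{0, 0}}

/-- the carrier of the ultrapower -/
private abbrev UP (C : Type) : Type :=
  (Filter.hyperfilter ℕ : Filter ℕ).Product (fun _ : ℕ => C)

/-- the class of a sequence -/
private noncomputable def cls {C : Type} (x : ℕ → C) : UP C :=
  Quotient.mk'' x

/-- the structure of the ultrapower -/
@[instance_reducible]
private noncomputable def ups {C : Type} (S : L.Structure C) : L.Structure (UP C) :=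
  letI := S
  Ultraproduct.structure

private theorem cls_eq {C : Type} (x y : ℕ → C) :
    cls x = cls y ↔ ∀ᶠ a in (Filter.hyperfilter ℕ : Filter ℕ), x a = y a := by
  exact Quotient.eq''

private theorem cls_surj {C : Type} (z : UP C) : ∃ x : ℕ → C, cls x = z := by
  induction z using Quotient.inductionOn' with
  | h x => exact ⟨x, rfl⟩

private theorem cls_update {C : Type} (x : ℕ → ℕ → C) (i : ℕ) (m : ℕ → C) :
    Function.update (fun k => cls (x k)) i (cls m) = fun k => cls (Function.update x i m k) := by
  funext k
  by_cases hk : k = i
  · subst hk
    simp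
  · simp [Function.update_of_ne hk]

private theorem update_apply' {C : Type} (x : ℕ → ℕ → C) (i : ℕ) (m : ℕ → C) (a : ℕ) :
    (fun k => Function.update x i m k a) = Function.update (fun k => x k a) i (m a) := by
  funext k
  by_cases hk : k = i
  · subst hk
    simp
  · simp [Function.update_of_ne hk]

private theorem term_cls {C : Type} (S : L.Structure C) (x : ℕ → ℕ → C) (t : L.Term ℕ) :
    (letI := ups S; t.realize fun k => cls (x k)) =
      cls (fun a => letI := S; t.realize fun k => x k a) := by
  let := S
  exact Ultraproduct.term_realize_cast (u := Filter.hyperfilter ℕ) (M := fun _ : ℕ => C) x t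

private theorem los {C : Type} [Nonempty C] (S : L.Structure C) (φ : Fm L) :
    ∀ x : ℕ → ℕ → C, Sat (ups S) φ (fun k => cls (x k)) ↔
      ∀ᶠ a in (Filter.hyperfilter ℕ : Filter ℕ), Sat S φ (fun k => x k a) := by
  induction φ with
  | bot =>
    intro x
    simp only [Sat, Filter.eventually_const]
  | eq t u =>
    intro x
    simp only [Sat]
    have h1 := term_cls S x t
    have h2 := term_cls S x u
    rw [h1, h2, cls_eq]
  | rel R ts =>
    intro x
    simp only [Sat]
    have h1 : (fun i => (letI := ups S; (ts i).realize fun k => cls (x k))) =
        fun i => cls (fun a => letI := S; (ts i).realize fun k => x k a) :=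
      funext fun i => term_cls S x (ts i)
    rw [h1]
    let := S
    exact @relMap_quotient_mk' L _ ((Filter.hyperfilter ℕ : Filter ℕ).productSetoid fun _ : ℕ => C)
      (Ultraproduct.setoidPrestructure (fun _ : ℕ => C) (Filter.hyperfilter ℕ)) _ R
      (fun i a => (ts i).realize fun k => x k a)
  | imp φ ψ ih ih' =>
    intro x
    simp only [Sat, ih x, ih' x]
    rw [Ultrafilter.eventually_imp]
  | all i φ ih =>
    intro x
    simp only [Sat]
    have h1 : (∀ z : UP C, Sat (ups S) φ (Function.update (fun k => cls (x k)) i z)) ↔
        ∀ m : ℕ → C, ∀ᶠ a in (Filter.hyperfilter ℕ : Filter ℕ),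
          Sat S φ (Function.update (fun k => x k a) i (m a)) := by
      constructor
      · intro h m
        have := h (cls m)
        rw [cls_update, ih] at this
        simpa only [update_apply'] using this
      · intro h z
        obtain ⟨m, rfl⟩ := cls_surj z
        rw [cls_update, ih]
        simpa only [update_apply'] using h m
    rw [h1]
    constructor
    · intro h
      have h2 := h fun a => Classical.epsilon fun c =>
        ¬ Sat S φ (Function.update (fun k => x k a) i c)
      filter_upwards [h2] with a ha
      by_contra hc
      push Not at hc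
      obtain ⟨c, hc⟩ := hc
      exact Classical.epsilon_spec (p := fun c =>
        ¬ Sat S φ (Function.update (fun k => x k a) i c)) ⟨c, hc⟩ ha
    · intro h m
      filter_upwards [h] with a ha
      exact ha (m a)

/-- compactness: formulas which are satisfied in `S` by the tuples `w s` for all large `s` are
satisfied in some elementary extension of `S` by one tuple -/
theorem exists_limit {C : Type} (S : L.Structure C) (w : ℕ → ℕ → C) :
    ∃ (C' : Type) (S' : L.Structure C') (emb : C → C') (e : ℕ → C'), Elem S S' emb ∧
      (∀ φ : Fm L, (∀ᶠ s in Filter.atTop, Sat S φ (w s)) → Sat S' φ e) ∧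
      ∀ (k : ℕ) (x : C), (∀ᶠ s in Filter.atTop, w s k = x) → e k = emb x := by
  have : Nonempty C := ⟨w 0 0⟩
  have hle : (Filter.hyperfilter ℕ : Filter ℕ) ≤ Filter.atTop := by
    rw [← Nat.cofinite_eq_atTop]
    exact Filter.hyperfilter_le_cofinite
  refine ⟨UP C, ups S, fun c => cls fun _ => c, fun k => cls fun s => w s k, ?_, ?_, ?_⟩
  · intro φ v
    rw [los S φ fun k _ => v k, Filter.eventually_const]
  · intro φ h
    rw [los S φ fun k s => w s k]
    exact hle h
  · intro k x h
    rw [cls_eq]
    exact hle h

end Pool.Agent.DP
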