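import Pool.Agent.DP.Ren

set_option autoImplicit false

/-!
# Saturated structures: types over a finite tuple

`Saturated.many`: induction on the number of variables; `∃ v_(k+1) ... v_(k+n) /\F` is a formula.
`finite_over`: otherwise the negations of all isolating formulas are satisfied by some tuple.
-/

open FirstOrder FirstOrder.Language

namespace Pool.Agent.DP

variable {L : FirstOrder.Language.{0, 0}}
variable [Encodable (Σ n, L.Functions n)] [Encodable (Σ n, L.Relations n)]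

/-- finite conjunctions -/
private theorem exists_conj {A : Type} (S : L.Structure A) {F : Set (Fm L)} (hF : F.Finite) :
    ∃ c : ℕ, ∀ w : ℕ → A, Tr S c w ↔ ∀ φ ∈ F, Sat S φ w := by
  induction F, hF using Set.Finite.induction_on with
  | empty =>
    refine ⟨cneg 0, fun w => ?_⟩
    rw [tr_neg]
    exact ⟨fun _ φ hφ => absurd hφ (Set.notMem_empty φ), fun _ => tr_zero S w⟩
  | @insert φ F _ _ ih =>
    obtain ⟨c, hc⟩ := ih
    obtain ⟨m, hm⟩ := fm_surj φ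
    refine ⟨cand m c, fun w => ?_⟩
    rw [tr_and, hc, Set.forall_mem_insert, ← hm]
    rfl

/-- the formula which says that the finitely many conditions in `F` can be satisfied -/
private theorem exists_cond {A : Type} (S : L.Structure A) {F : Set (Fm L)} (hF : F.Finite)
    (k : ℕ) : ∃ ψ : Fm L, ψ.fv ⊆ Set.Iic k ∧ ∀ w : ℕ → A, Sat S ψ w ↔
      ∃ u : ℕ → A, (∀ i < k + 1, u i = w i) ∧ ∀ φ ∈ F, Sat S φ u := by
  obtain ⟨c, hc⟩ := exists_conj S hF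
  refine ⟨fm (trunc (k + 1) c), fun i hi => ?_, fun w => ?_⟩
  · have h1 : i < k + 1 := fv_trunc (k + 1) c hi
    exact Nat.le_of_lt_succ h1
  · have h1 : Sat S (fm (trunc (k + 1) c)) w ↔ Tr S (trunc (k + 1) c) w := Iff.rfl
    rw [h1, tr_trunc]
    constructor
    · rintro ⟨u, h2, h3⟩
      exact ⟨u, h2, (hc u).1 h3⟩
    · rintro ⟨u, h2, h3⟩
      exact ⟨u, h2, (hc u).2 h3⟩

/-- saturation for finitely many variables -/
theorem Saturated.many {A : Type} {S : L.Structure A} (hS : Saturated S) (k n : ℕ) (w : ℕ → A)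
    (Φ : Set (Fm L)) (hΦ : ∀ φ ∈ Φ, φ.fv ⊆ Set.Iio (k + n))
    (hfin : ∀ F : Set (Fm L), F.Finite → F ⊆ Φ →
      ∃ u : ℕ → A, (∀ i < k, u i = w i) ∧ ∀ φ ∈ F, Sat S φ u) :
    ∃ u : ℕ → A, (∀ i < k, u i = w i) ∧ ∀ φ ∈ Φ, Sat S φ u := by
  induction n generalizing k w with
  | zero =>
    refine ⟨w, fun _ _ => rfl, fun φ hφ => ?_⟩
    obtain ⟨u, h1, h2⟩ := hfin {φ} (Set.finite_singleton φ) (Set.singleton_subset_iff.2 hφ)
    refine (sat_congr S φ u w fun i hi => h1 i ?_).1 (h2 φ rfl)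
    have h3 : i < k + 0 := hΦ φ hφ hi
    omega
  | succ n ih =>
    let Ψ : Set (Fm L) := {ψ | ψ.fv ⊆ Set.Iic k ∧ ∃ F : Set (Fm L), F.Finite ∧ F ⊆ Φ ∧
      ∀ w' : ℕ → A, Sat S ψ w' ↔
        ∃ u : ℕ → A, (∀ i < k + 1, u i = w' i) ∧ ∀ φ ∈ F, Sat S φ u}
    have hΨ : ∃ a, ∀ ψ ∈ Ψ, Sat S ψ (Function.update w k a) := by
      refine hS k w Ψ (fun ψ hψ => hψ.1) ?_
      intro G hG hGΨ
      have h1 : ∀ ψ ∈ G, ∃ F : Set (Fm L), F.Finite ∧ F ⊆ Φ ∧ ∀ w' : ℕ → A, Sat S ψ w' ↔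
        ∃ u : ℕ → A, (∀ i < k + 1, u i = w' i) ∧ ∀ φ ∈ F, Sat S φ u :=
        fun ψ hψ => (hGΨ hψ).2
      choose! f hf1 hf2 hf3 using h1
      obtain ⟨u, h2, h3⟩ := hfin (⋃ ψ ∈ G, f ψ) (hG.biUnion hf1)
        (Set.iUnion₂_subset hf2)
      refine ⟨u k, fun ψ hψ => (hf3 ψ hψ _).2 ⟨u, fun i hi => ?_, fun φ hφ => ?_⟩⟩
      · by_cases hik : i = k
        · rw [hik, Function.update_self]
        · rw [Function.update_of_ne hik]
          exact h2 i (by omega)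
      · exact h3 φ (Set.mem_iUnion₂.2 ⟨ψ, hψ, hφ⟩)
    obtain ⟨a, ha⟩ := hΨ
    have hk : k + (n + 1) = k + 1 + n := by omega
    rw [hk] at hΦ
    obtain ⟨u, h1, h2⟩ := ih (k + 1) (Function.update w k a) hΦ (by
      intro F hF hFΦ
      obtain ⟨ψ, hψ1, hψ2⟩ := exists_cond S hF k
      exact (hψ2 _).1 (ha ψ ⟨hψ1, F, hF, hFΦ, hψ2⟩))
    refine ⟨u, fun i hi => ?_, h2⟩
    rw [h1 i (by omega), Function.update_of_ne (by omega)]

/-- finitely many isolated types over the tuple -/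
theorem Saturated.finite_over {A : Type} {S : L.Structure A} (hS : Saturated S) {k : ℕ}
    {w : ℕ → A} (hat : AtomicOver S k w) (n : ℕ) : ∃ F : Set (Fm L), F.Finite ∧
      (∀ χ ∈ F, ∀ u u' : ℕ → A, (∀ i < k, u i = w i) → (∀ i < k, u' i = w i) → Sat S χ u →
        Sat S χ u' → ∀ φ : Fm L, φ.fv ⊆ Set.Iio (k + n) → (Sat S φ u ↔ Sat S φ u')) ∧
      ∀ u : ℕ → A, (∀ i < k, u i = w i) → ∃ χ ∈ F, Sat S χ u := by
  classical
  let I : Set (Fm L) := {χ | χ.fv ⊆ Set.Iio (k + n) ∧ ∀ u u' : ℕ → A, (∀ i < k, u i = w i) →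
    (∀ i < k, u' i = w i) → Sat S χ u → Sat S χ u' →
      ∀ φ : Fm L, φ.fv ⊆ Set.Iio (k + n) → (Sat S φ u ↔ Sat S φ u')}
  have hI : ∀ u : ℕ → A, (∀ i < k, u i = w i) → ∃ χ ∈ I, Sat S χ u := by
    intro u hu
    obtain ⟨χ, h1, h2, h3⟩ := hat (k + n) u hu
    refine ⟨χ, ⟨h1, fun v v' hv hv' hχ hχ' φ hφ => ?_⟩, h2⟩
    by_cases h4 : Sat S φ u
    · exact ⟨fun _ => h3 φ hφ h4 v' hv' hχ', fun _ => h3 φ hφ h4 v hv hχ⟩
    · have h5 : (Fm.imp φ .bot).fv ⊆ Set.Iio (k + n) := by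
        have e : (Fm.imp φ .bot).fv = φ.fv ∪ ∅ := rfl
        rw [e, Set.union_empty]
        exact hφ
      have h6 : Sat S (.imp φ .bot) u := fun h => h4 h
      have h7 : Sat S φ v → False := h3 _ h5 h6 v hv hχ
      have h8 : Sat S φ v' → False := h3 _ h5 h6 v' hv' hχ'
      exact ⟨fun h => (h7 h).elim, fun h => (h8 h).elim⟩
  by_contra hcon
  have hno : ∀ F : Set (Fm L), F.Finite → F ⊆ I →
      ∃ u : ℕ → A, (∀ i < k, u i = w i) ∧ ∀ χ ∈ F, ¬ Sat S χ u := by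
    intro F hF hFI
    by_contra hne
    push Not at hne
    exact hcon ⟨F, hF, fun χ hχ => (hFI hχ).2, hne⟩
  have hinj : Function.Injective fun χ : Fm L => Fm.imp χ .bot := by
    intro χ χ' h
    exact (Fm.imp.inj h).1
  obtain ⟨u, h1, h2⟩ := hS.many k n w ((fun χ : Fm L => Fm.imp χ .bot) '' I) (by
      rintro φ ⟨χ, hχ, rfl⟩
      have e : (Fm.imp χ .bot).fv = χ.fv ∪ ∅ := rfl
      show (Fm.imp χ .bot).fv ⊆ Set.Iio (k + n)
      rw [e, Set.union_empty]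
      exact hχ.1) (by
      intro G hG hGI
      obtain ⟨u, hu1, hu2⟩ := hno ((fun χ : Fm L => Fm.imp χ .bot) ⁻¹' G)
        (hG.preimage hinj.injOn) (by
          intro χ hχ
          obtain ⟨χ', h3, h4⟩ := hGI hχ
          rw [← hinj h4]
          exact h3)
      refine ⟨u, hu1, fun φ hφ => ?_⟩
      obtain ⟨χ, -, rfl⟩ := hGI hφ
      exact fun h => hu2 χ hφ h)
  obtain ⟨χ, h3, h4⟩ := hI u h1
  exact h2 _ ⟨χ, h3, rfl⟩ h4

end Pool.Agent.DP
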