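import Pool.Agent.DP.SatA

set_option autoImplicit false

/-!
# Saturated structures: types over the empty set

Plan: apply finite_over for `n`; a tuple `y : ℕ → A` of length `n` is placed at the variables `v_k, ..., v_(k+n-1)` (assignment `w` below `k`). If two tuples satisfy the same
`χ ∈ F` they satisfy the same formulas with fv in `Iio n` (rename `v_i` to `v_(k+i)`, exists_ren). So there are finitely many classes of tuples; choose representatives
and formulas with fv in `Iio n` which separate them; the conjunctions isolate the classes.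
-/

open FirstOrder FirstOrder.Language

namespace Pool.Agent.DP

variable {L : FirstOrder.Language.{0, 0}}

private theorem satB_conj {A : Type} (S : L.Structure A) (n : ℕ) (G : Set (Fm L))
    (hG : G.Finite) (hfv : ∀ φ ∈ G, φ.fv ⊆ Set.Iio n) :
    ∃ χ : Fm L, χ.fv ⊆ Set.Iio n ∧ ∀ u : ℕ → A, Sat S χ u ↔ ∀ φ ∈ G, Sat S φ u := by
  induction G, hG using Set.Finite.induction_on with
  | empty => exact ⟨.imp .bot .bot, by simp [Fm.fv], by simp [Sat]⟩
  | @insert a G ha hG ih =>
    obtain ⟨χ, h1, h2⟩ := ih fun φ hφ => hfv φ (Set.mem_insert_of_mem _ hφ)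
    refine ⟨.imp (.imp a (.imp χ .bot)) .bot, ?_, ?_⟩
    · have := hfv a (Set.mem_insert _ _)
      simp only [Fm.fv, Set.union_empty, Set.union_subset_iff]
      exact ⟨this, h1⟩
    · intro u
      have := h2 u
      simp only [Sat, Set.mem_insert_iff, forall_eq_or_imp]
      tauto

variable [Encodable (Σ n, L.Functions n)] [Encodable (Σ n, L.Relations n)]

/-- finitely many types over the empty set -/
theorem Saturated.finite_types {A : Type} {S : L.Structure A} (hS : Saturated S) {k : ℕ}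
    {w : ℕ → A} (hat : AtomicOver S k w) (n : ℕ) : ∃ F : Set (Fm L), F.Finite ∧
      (∀ χ ∈ F, χ.fv ⊆ Set.Iio n) ∧
      (∀ χ ∈ F, ∀ u u' : ℕ → A, Sat S χ u → Sat S χ u' →
        ∀ φ : Fm L, φ.fv ⊆ Set.Iio n → (Sat S φ u ↔ Sat S φ u')) ∧
      ∀ u : ℕ → A, ∃ χ ∈ F, Sat S χ u := by
  have : Nonempty (Fm L) := ⟨.bot⟩
  obtain ⟨F, hF, hiso, hcov⟩ := hS.finite_over hat n
  set τ : (ℕ → A) → Set (Fm L) := fun u => {φ | φ.fv ⊆ Set.Iio n ∧ Sat S φ u} with hτ
  set ext : (ℕ → A) → ℕ → A := fun u i => if i < k then w i else u (i - k) with hext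
  have hextk : ∀ u, ∀ i < k, ext u i = w i := by
    intro u i hi
    simp [hext, hi]
  have hextu : ∀ u, (fun i => ext u (k + i)) = u := by
    intro u
    funext i
    simp [hext]
  have key : ∀ u u' : ℕ → A, ∀ χ ∈ F, Sat S χ (ext u) → Sat S χ (ext u') → τ u = τ u' := by
    intro u u' χ hχ h1 h2
    ext φ
    simp only [hτ, Set.mem_ofPred_eq]
    refine and_congr_right fun hfv => ?_
    obtain ⟨m, rfl⟩ := fm_surj φ
    obtain ⟨m', hm'⟩ := exists_ren (L := L) m fun i => k + i
    obtain ⟨ψ, hψ1, hψ2⟩ := exists_fm S (k + n) m' (by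
      intro v v' hv h
      rw [hm'] at h ⊢
      refine (sat_congr S (fm m) _ _ fun i hi => ?_).1 h
      exact hv _ (Nat.add_lt_add_left (hfv hi) k))
    have := hiso χ hχ (ext u) (ext u') (hextk u) (hextk u') h1 h2 ψ hψ1
    rw [hψ2, hψ2, hm', hm', hextu, hextu] at this
    exact this
  have fin : (Set.range τ).Finite := by
    classical
    have hch : ∀ u, ∃ χ ∈ F, Sat S χ (ext u) := fun u => hcov (ext u) (hextk u)
    have : Set.range τ ⊆ (fun χ => if h : ∃ u, Sat S χ (ext u) then τ h.choose else ∅) '' F := by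
      rintro _ ⟨u, rfl⟩
      obtain ⟨χ, hχ, h⟩ := hch u
      refine ⟨χ, hχ, ?_⟩
      have hex : ∃ u, Sat S χ (ext u) := ⟨u, h⟩
      simp only [dif_pos hex]
      exact key _ _ χ hχ hex.choose_spec h
    exact (hF.image _).subset this
  have iso : ∀ t ∈ Set.range τ, ∃ χ : Fm L, χ.fv ⊆ Set.Iio n ∧
      ∀ u : ℕ → A, Sat S χ u ↔ τ u = t := by
    rintro _ ⟨u0, rfl⟩
    have sep : ∀ t' ∈ Set.range τ, ∃ φ : Fm L, φ.fv ⊆ Set.Iio n ∧ Sat S φ u0 ∧
        (t' ≠ τ u0 → ∀ u, τ u = t' → ¬ Sat S φ u) := by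
      rintro _ ⟨u', rfl⟩
      by_cases h : τ u' = τ u0
      · exact ⟨.imp .bot .bot, by simp [Fm.fv], by simp [Sat], fun h' => absurd h h'⟩
      · have h1 : ∃ φ, φ.fv ⊆ Set.Iio n ∧ ¬ (Sat S φ u' ↔ Sat S φ u0) := by
          by_contra hcon
          push Not at hcon
          apply h
          ext φ
          simp only [hτ, Set.mem_ofPred_eq]
          exact and_congr_right fun hfv => hcon φ hfv
        obtain ⟨φ, hfv, hφ⟩ := h1
        have hsame : ∀ u, τ u = τ u' → (Sat S φ u ↔ Sat S φ u') := by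
          intro u hu
          have : φ ∈ τ u ↔ φ ∈ τ u' := by rw [hu]
          simp only [hτ, Set.mem_ofPred_eq, hfv, true_and] at this
          exact this
        by_cases h0 : Sat S φ u0
        · refine ⟨φ, hfv, h0, fun _ u hu => ?_⟩
          rw [hsame u hu]
          tauto
        · refine ⟨.imp φ .bot, by simpa [Fm.fv] using hfv, by simpa [Sat] using h0,
            fun _ u hu => ?_⟩
          simp only [Sat]
          rw [hsame u hu]
          tauto
    choose! g hg1 hg2 hg3 using sep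
    obtain ⟨χ, hχ1, hχ2⟩ := satB_conj S n (g '' Set.range τ) (fin.image g) (by
      rintro _ ⟨t, ht, rfl⟩
      exact hg1 t ht)
    have hχ0 : Sat S χ u0 := by
      rw [hχ2]
      rintro _ ⟨t, ht, rfl⟩
      exact hg2 t ht
    refine ⟨χ, hχ1, fun u => ⟨fun h => ?_, fun h => ?_⟩⟩
    · by_contra hne
      rw [hχ2] at h
      exact hg3 (τ u) ⟨u, rfl⟩ hne u rfl (h _ ⟨τ u, ⟨u, rfl⟩, rfl⟩)
    · have : χ ∈ τ u := by
        rw [h]
        exact ⟨hχ1, hχ0⟩
      exact this.2
  choose! X hX1 hX2 using iso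
  refine ⟨X '' Set.range τ, fin.image X, ?_, ?_, ?_⟩
  · rintro _ ⟨t, ht, rfl⟩
    exact hX1 t ht
  · rintro _ ⟨t, ht, rfl⟩ u u' h h' φ hfv
    rw [hX2 t ht] at h h'
    have : φ ∈ τ u ↔ φ ∈ τ u' := by rw [h, h']
    simp only [hτ, Set.mem_ofPred_eq, hfv, true_and] at this
    exact this
  · intro u
    exact ⟨X (τ u), ⟨τ u, ⟨u, rfl⟩, rfl⟩, (hX2 (τ u) ⟨u, rfl⟩ u).2 rfl⟩

end Pool.Agent.DP
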