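import Pool.Agent.DP.LimC

set_option autoImplicit false

/-!
# The requirements are satisfied, first part

`not_killed`: the code of the bounded tuple `g` is a witness against `Dead`.  `no_split`: for large `s` the bounded tuples
which agree with `g` below `k` and satisfy `∃ v_b ... δ s` are the same for `s` and `s + 1`; if the conclusion failed, the
requirement `(e, j)` would object to the new formula, contrary to clause 7 of `Step`.
-/

open FirstOrder FirstOrder.Language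

namespace Pool.Agent.DP

variable {L : FirstOrder.Language.{0, 0}}
variable [Encodable (Σ n, L.Functions n)] [Encodable (Σ n, L.Relations n)]
variable {M : L.Structure ℕ} {Q : ℕ → L.Structure ℕ} {δ σ α ρ : ℕ → ℕ}

/-- a tuple which is bounded and elementary is never dead -/
theorem Run.not_killed (h : Run M Q δ σ α ρ) {f : ℕ ≃ ℕ}
    (hf : ∀ l, ∃ s1, ∀ s ≥ s1, ∀ i < l, ent (σ s) i = f i) {e j : ℕ} {g : ℕ → ℕ}
    (hg : ∀ n, Tr M n f → Tr (Q j) n g)
    (hle : ∀ s i, cvg e s i = true → g i ≤ bd e s i) {s r t : ℕ}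
    (ht : ∀ i < hgt r (σ s) (s + 1), ent t i = g i) : ¬ Killed Q e j s r (σ s) t (δ s) := by
  rintro ⟨b, hb, ⟨_, hcv, hhb⟩, hdead⟩
  obtain ⟨y, hy, hyg⟩ := Bx_spec e s b g (fun i hi => hle s i (hcv i hi))
  refine hdead y hy (fun i hi => ?_) (fun i hi => ?_) ?_
  · rw [hyg i hi]
    exact hle s i (hcv i hi)
  · rw [hyg i (hi.trans_le hhb), ht i hi]
  · rw [exB_iff (h.dep s)]
    exact ⟨g, fun i hi => (hyg i hi).symm, hg _ (h.tr_limit f hf s)⟩

/-- finitely many decreasing properties are eventually constant -/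
private theorem sca_stab (P : ℕ → ℕ → Prop) (S0 : ℕ) (hP : ∀ s ≥ S0, ∀ y, P (s + 1) y → P s y)
    (B : ℕ) : ∃ s2 ≥ S0, ∀ s ≥ s2, ∀ y < B, P s y → P (s + 1) y := by
  have h1 : ∀ y, ∃ sy ≥ S0, ∀ s ≥ sy, P s y → P (s + 1) y := by
    intro y
    by_cases h : ∀ s ≥ S0, P s y
    · exact ⟨S0, le_refl _, fun s hs _ => h (s + 1) (hs.trans (Nat.le_succ s))⟩
    · push Not at h
      obtain ⟨sy, hsy, hn⟩ := h
      have h2 : ∀ d, ¬ P (sy + d) y := by
        intro d
        induction d with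
        | zero => exact hn
        | succ d ih => exact fun hc => ih (hP (sy + d) (hsy.trans (Nat.le_add_right _ _)) y hc)
      refine ⟨sy, hsy, fun s hs hPs => ?_⟩
      obtain ⟨d, rfl⟩ := Nat.exists_eq_add_of_le hs
      exact absurd hPs (h2 d)
  choose F hF1 hF2 using h1
  refine ⟨S0 + ∑ y ∈ Finset.range B, F y, Nat.le_add_right _ _, fun s hs y hy => ?_⟩
  have h3 : F y ≤ ∑ y ∈ Finset.range B, F y :=
    Finset.single_le_sum (f := F) (fun _ _ => Nat.zero_le _) (Finset.mem_range.2 hy)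
  exact hF2 y s (by omega)

/-- from some stage on no formula which is added to `δ` restricts the block -/
theorem Run.no_split (h : Run M Q δ σ α ρ) {f : ℕ ≃ ℕ}
    (hf : ∀ l, ∃ s1, ∀ s ≥ s1, ∀ i < l, ent (σ s) i = f i) {e j : ℕ} {g : ℕ → ℕ}
    (hg : ∀ n, Tr M n f → Tr (Q j) n g) (hcv : ∀ i, ∃ s, cvg e s i = true)
    (hle : ∀ s i, cvg e s i = true → g i ≤ bd e s i) {s1 k b : ℕ}
    (h1 : ∀ s ≥ s1, Nat.pair e j < ρ s)
    (h2 : ∀ s ≥ s1, hgt (Nat.pair e j) (σ s) (s + 1) = k)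
    (h3 : ∀ s ≥ s1, ∀ i < k, ent (σ s) i = f i) (hb : k ≤ b) :
    ∃ s2, ∀ s ≥ s2, ∀ u : ℕ → ℕ, (∀ i < k, u i = f i) → Tr M (δ s) u →
      Tr M (exB b (s + 2) (nx s (δ s) (α s))) u := by
  choose c hc using hcv
  set S0 : ℕ := s1 + b + ∑ i ∈ Finset.range b, c i with hS0
  have hS1 : s1 ≤ S0 := by omega
  have hSb : b ≤ S0 := by omega
  have hcvS : ∀ s ≥ S0, ∀ i < b, cvg e s i = true := by
    intro s hs i hi
    refine cvg_mono (hc i) ?_
    have h4 : c i ≤ ∑ i ∈ Finset.range b, c i :=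
      Finset.single_le_sum (f := c) (fun _ _ => Nat.zero_le _) (Finset.mem_range.2 hi)
    omega
  set B : ℕ := Bx e S0 b with hB
  have hBx : ∀ s ≥ S0, Bx e s b = B := fun s hs => Bx_mono (hcvS S0 (le_refl _)) hs
  obtain ⟨s2, hs2, hst⟩ := sca_stab
    (fun s y => Box e S0 b y ∧ (∀ i < k, ent y i = g i) ∧
      Tr (Q j) (exB b (s + 1) (δ s)) (ent y)) S0 (by
    rintro s _ y ⟨p1, p2, p3⟩
    refine ⟨p1, p2, ?_⟩
    rw [exB_iff (h.dep (s + 1))] at p3
    obtain ⟨w', hw1, hw2⟩ := p3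
    rw [exB_iff (h.dep s)]
    exact ⟨w', hw1, h.imp (Nat.le_succ s) (Q j) w' hw2⟩) B
  refine ⟨s2, fun s hs u hu hTu => ?_⟩
  by_contra hcon
  have hsS : s ≥ S0 := hs2.trans hs
  have hss1 : s ≥ s1 := hS1.trans hsS
  have hbs : b < s + 2 := by omega
  have e1 : (Nat.pair e j).unpair.1 = e := by rw [Nat.unpair_pair]
  have e2 : (Nat.pair e j).unpair.2 = j := by rw [Nat.unpair_pair]
  obtain ⟨t, ht, htg⟩ := Bx_spec e s b g (fun i hi => hle s i (hcvS s hsS i hi))
  have hk : hgt (Nat.pair e j) (σ s) (s + 1) = k := h2 s hss1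
  have hobj : Obj M Q s (δ s) (σ s) (nx s (δ s) (α s)) (Nat.pair e j) := by
    unfold Obj
    rw [e1, e2, hk]
    refine ⟨b, hbs, ⟨hbs, hcvS s hsS, by rw [hk]; exact hb⟩, t, ht, fun i hi => ?_, ?_, ?_, ?_⟩
    · rw [htg i hi]
      exact hle s i (hcvS s hsS i hi)
    · refine h.not_killed hf hg hle (fun i hi => ?_)
      rw [hk] at hi
      exact htg i (hi.trans_le hb)
    · intro y hy hbox hagr htr
      rw [hBx s hsS] at hy
      have hbox' : Box e S0 b y := (Box_mono (hcvS S0 (le_refl _)) hsS).1 hbox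
      have hyg : ∀ i < k, ent y i = g i := fun i hi => by
        rw [hagr i hi, htg i (hi.trans_le hb)]
      have p := (hst s hs y hy ⟨hbox', hyg, htr⟩).2.2
      rw [exB_iff (h.dep (s + 1))] at p
      obtain ⟨w', hw1, hw2⟩ := p
      rw [exB_iff (dep_nx (α s) (h.dep s))]
      exact ⟨w', hw1, (h.nxt s (Q j) w').1 hw2⟩
    · have hd1 : Dep L (s + 1) (cneg (exB b (s + 2) (nx s (δ s) (α s)))) :=
        dep_neg (dep_mono (dep_exB (dep_nx (α s) (h.dep s))) (by omega))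
      rw [exB_iff (dep_and (h.dep s) hd1)]
      refine ⟨u, fun i hi => ?_, ?_⟩
      · rw [hu i hi, h3 s hss1 i hi]
      · rw [tr_and, tr_neg]
        exact ⟨hTu, hcon⟩
  obtain ⟨_, _, _, _, _, _, hno, _⟩ := h.step s
  exact hno _ (h1 s hss1) hobj

end Pool.Agent.DP
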